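import Pool.Agent.Lib.Pa1e890.Omega2

/-!
# The penalised dual ball
-/

set_option autoImplicit false
set_option linter.unusedSectionVars false
open Filter Topology Set BoundedContinuousFunction

namespace Pool.Agent.Lib.Pa1e890

variable {Ω : Type*} [LinearOrder Ω] [OrderTop Ω] [hΩ : OmegaLike Ω]
variable [TopologicalSpace Ω] [OrderTopology Ω]

/-- The penalised dual ball. -/
def EE (p : Seminorm ℝ (XX Ω)) (κ : ℝ) : Set (XX Ω →L[ℝ] ℝ) :=
  {μ | ∀ x y : XX Ω, p x ≤ 1 → ‖y‖ ≤ 1 → y ⊤ = 0 → μ x + κ * μ y ≤ 1}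

/-- Its support function. -/
noncomputable def FF (p : Seminorm ℝ (XX Ω)) (κ : ℝ) (z : XX Ω) : ℝ := ⨆ μ : EE p κ, μ.1 z

variable {p : Seminorm ℝ (XX Ω)} {κ c₁ C₁ : ℝ}

lemma zero_mem_EE : (0 : XX Ω →L[ℝ] ℝ) ∈ EE p κ := by
  intro x y _ _ _
  simp

lemma EE_neg {μ : XX Ω →L[ℝ] ℝ} (hμ : μ ∈ EE p κ) : -μ ∈ EE p κ := by
  intro x y hx hy hy0
  have h := hμ (-x) (-y) (by rwa [map_neg_eq_map]) (by rwa [norm_neg])
    (by rw [BoundedContinuousFunction.neg_apply, hy0, neg_zero])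
  rw [map_neg, map_neg] at h
  change -(μ x) + κ * -(μ y) ≤ 1
  exact h

lemma EE_mid {μ ν : XX Ω →L[ℝ] ℝ} (hμ : μ ∈ EE p κ) (hν : ν ∈ EE p κ) :
    (1 / 2 : ℝ) • (μ + ν) ∈ EE p κ := by
  intro x y hx hy hy0
  have h1 := hμ x y hx hy hy0
  have h2 := hν x y hx hy hy0
  change (1 / 2 : ℝ) * (μ x + ν x) + κ * ((1 / 2 : ℝ) * (μ y + ν y)) ≤ 1
  linarith

lemma EE_closed {μ : XX Ω →L[ℝ] ℝ} (h : ∀ x y : XX Ω, ∀ ε > 0, ∃ ν ∈ EE p κ,
    |ν x - μ x| ≤ ε ∧ |ν y - μ y| ≤ ε) : μ ∈ EE p κ := by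
  intro x y hx hy hy0
  refine le_of_forall_pos_le_add fun ε hε => ?_
  obtain ⟨ν, hν, h1, h2⟩ := h x y (ε / (1 + |κ|)) (by positivity)
  have h3 := hν x y hx hy hy0
  have h4 := (abs_le.1 h1).1
  have h5 : κ * μ y - κ * ν y ≤ |κ| * (ε / (1 + |κ|)) := by
    have e : κ * μ y - κ * ν y = -(κ * (ν y - μ y)) := by ring
    rw [e]
    refine (neg_le_abs _).trans ?_
    rw [abs_mul]
    exact mul_le_mul_of_nonneg_left h2 (abs_nonneg _)
  have h6 : ε / (1 + |κ|) + |κ| * (ε / (1 + |κ|)) = ε := by field_simp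
  linarith

lemma EE_le (hc₁ : 0 < c₁) (hlow : ∀ x, c₁ * ‖x‖ ≤ p x) {μ : XX Ω →L[ℝ] ℝ}
    (hμ : μ ∈ EE p κ) (x : XX Ω) : μ x ≤ p x := by
  rcases eq_or_ne x 0 with rfl | h0
  · simp
  have hpos : 0 < p x := lt_of_lt_of_le (mul_pos hc₁ (norm_pos_iff.2 h0)) (hlow x)
  have h := hμ ((p x)⁻¹ • x) 0 (by
    rw [map_smul_eq_mul, Real.norm_eq_abs, abs_inv, abs_of_pos hpos, inv_mul_cancel₀ hpos.ne'])
    (by simp) rfl
  rw [map_smul, smul_eq_mul, map_zero, mul_zero, add_zero] at h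
  have h2 := mul_le_mul_of_nonneg_left h hpos.le
  rw [← mul_assoc, mul_inv_cancel₀ hpos.ne', one_mul, mul_one] at h2
  exact h2

lemma EE_norm (hc₁ : 0 < c₁) (hlow : ∀ x, c₁ * ‖x‖ ≤ p x) (hC₁ : 0 < C₁)
    (hup : ∀ x, p x ≤ C₁ * ‖x‖) {μ : XX Ω →L[ℝ] ℝ} (hμ : μ ∈ EE p κ) : ‖μ‖ ≤ C₁ := by
  apply ContinuousLinearMap.opNorm_le_bound _ hC₁.le
  intro x
  rw [Real.norm_eq_abs, abs_le]
  have h1 := EE_le hc₁ hlow hμ x
  have h2 := EE_le hc₁ hlow (EE_neg hμ) x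
  have h3 : (-μ) x = -(μ x) := rfl
  have h4 := hup x
  constructor <;> linarith

lemma FF_bdd (hc₁ : 0 < c₁) (hlow : ∀ x, c₁ * ‖x‖ ≤ p x) (z : XX Ω) :
    BddAbove (Set.range fun μ : EE p κ => μ.1 z) := by
  refine ⟨p z, ?_⟩
  rintro _ ⟨μ, rfl⟩
  exact EE_le hc₁ hlow μ.2 z

lemma le_FF (hc₁ : 0 < c₁) (hlow : ∀ x, c₁ * ‖x‖ ≤ p x) {μ : XX Ω →L[ℝ] ℝ} (hμ : μ ∈ EE p κ)
    (z : XX Ω) : μ z ≤ FF p κ z := le_ciSup (FF_bdd hc₁ hlow z) ⟨μ, hμ⟩

lemma FF_nonneg (hc₁ : 0 < c₁) (hlow : ∀ x, c₁ * ‖x‖ ≤ p x) (z : XX Ω) : 0 ≤ FF p κ z := by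
  have := le_FF (κ := κ) hc₁ hlow zero_mem_EE z
  simpa using this

lemma FF_le (hc₁ : 0 < c₁) (hlow : ∀ x, c₁ * ‖x‖ ≤ p x) (z : XX Ω) : FF p κ z ≤ p z := by
  have : Nonempty (EE p κ) := ⟨⟨0, zero_mem_EE⟩⟩
  exact ciSup_le fun μ => EE_le hc₁ hlow μ.2 z

lemma exists_FF (z : XX Ω) {t : ℝ} (ht : t < FF p κ z) : ∃ μ ∈ EE p κ, t < μ z := by
  have : Nonempty (EE p κ) := ⟨⟨0, zero_mem_EE⟩⟩
  obtain ⟨μ, hμ⟩ := exists_lt_of_lt_ciSup (f := fun μ : EE p κ => μ.1 z) ht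
  exact ⟨μ.1, μ.2, hμ⟩

/-- Comparison with the original norm. -/
lemma le_FF_mul (hκ : 0 ≤ κ) (hc₁ : 0 < c₁) (hlow : ∀ x, c₁ * ‖x‖ ≤ p x) (hC₁ : 0 < C₁)
    (hup : ∀ x, p x ≤ C₁ * ‖x‖) (z : XX Ω) : p z ≤ (1 + κ * C₁) * FF p κ z := by
  rcases eq_or_ne z 0 with rfl | hz
  · rw [map_zero]
    have := FF_nonneg (κ := κ) hc₁ hlow (0 : XX Ω)
    positivity
  -- Hahn-Banach
  obtain ⟨g, hg1, hg2⟩ := exists_extension_of_le_sublinear
    (LinearPMap.mkSpanSingleton (K := ℝ) z (p z) hz) (fun x => p x)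
    (fun c hc x => by rw [map_smul_eq_mul, Real.norm_eq_abs, abs_of_pos hc])
    (fun x y => map_add_le_add p x y) (by
      rintro ⟨x, hx⟩
      obtain ⟨t, rfl⟩ := Submodule.mem_span_singleton.1 hx
      rw [LinearPMap.mkSpanSingleton'_apply]
      change t • p z ≤ p (t • z)
      rw [map_smul_eq_mul, Real.norm_eq_abs, smul_eq_mul]
      exact mul_le_mul_of_nonneg_right (le_abs_self t) (apply_nonneg p z))
  have hgz : g z = p z := by
    have h := hg1 ⟨z, Submodule.mem_span_singleton_self z⟩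
    rw [h]
    exact LinearPMap.mkSpanSingleton'_apply_self _ _ _ _
  have hgabs : ∀ x, |g x| ≤ C₁ * ‖x‖ := by
    intro x
    rw [abs_le]
    have h1 := hg2 x
    have h2 := hg2 (-x)
    rw [map_neg] at h2
    have h3 : p (-x) = p x := map_neg_eq_map p x
    have h4 := hup x
    constructor <;> linarith
  let G : XX Ω →L[ℝ] ℝ := LinearMap.mkContinuous g C₁ (fun x => by
    rw [Real.norm_eq_abs]; exact hgabs x)
  have hG : ∀ x, G x = g x := fun x => rfl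
  have hk : 0 < 1 + κ * C₁ := by positivity
  have hmem : (1 + κ * C₁)⁻¹ • G ∈ EE p κ := by
    intro x y hx hy _
    change (1 + κ * C₁)⁻¹ * g x + κ * ((1 + κ * C₁)⁻¹ * g y) ≤ 1
    have h1 : g x ≤ 1 := (hg2 x).trans hx
    have h2 : g y ≤ C₁ := by
      have h3 := hg2 y
      have h4 := hup y
      have h5 : C₁ * ‖y‖ ≤ C₁ * 1 := mul_le_mul_of_nonneg_left hy hC₁.le
      linarith
    have h6 : g x + κ * g y ≤ 1 + κ * C₁ := by
      have := mul_le_mul_of_nonneg_left h2 hκ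
      linarith
    have h7 : (1 + κ * C₁)⁻¹ * g x + κ * ((1 + κ * C₁)⁻¹ * g y) =
      (1 + κ * C₁)⁻¹ * (g x + κ * g y) := by ring
    rw [h7]
    calc (1 + κ * C₁)⁻¹ * (g x + κ * g y) ≤ (1 + κ * C₁)⁻¹ * (1 + κ * C₁) :=
          mul_le_mul_of_nonneg_left h6 (by positivity)
      _ = 1 := inv_mul_cancel₀ hk.ne'
  have h8 := le_FF hc₁ hlow hmem z
  have h9 : ((1 + κ * C₁)⁻¹ • G) z = (1 + κ * C₁)⁻¹ * p z := by
    change (1 + κ * C₁)⁻¹ * g z = _
    rw [hgz]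
  rw [h9] at h8
  have h10 := mul_le_mul_of_nonneg_left h8 hk.le
  rwa [← mul_assoc, mul_inv_cancel₀ hk.ne', one_mul] at h10

lemma FF_pos (hκ : 0 ≤ κ) (hc₁ : 0 < c₁) (hlow : ∀ x, c₁ * ‖x‖ ≤ p x) (hC₁ : 0 < C₁)
    (hup : ∀ x, p x ≤ C₁ * ‖x‖) {z : XX Ω} (hz : z ≠ 0) : 0 < FF p κ z := by
  have h1 := le_FF_mul hκ hc₁ hlow hC₁ hup z
  have h2 : 0 < p z := lt_of_lt_of_le (mul_pos hc₁ (norm_pos_iff.2 hz)) (hlow z)
  have h3 : 0 < 1 + κ * C₁ := by positivity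
  by_contra hcon
  push Not at hcon
  nlinarith

/-- The closing-off property of an element `b`. -/
def Good (p : Seminorm ℝ (XX Ω)) (b : Ω) : Prop :=
  b < ⊤ ∧ (∃ c, c < b) ∧ ∀ β, β < b → ∀ x : XX Ω, p x ≤ 1 → ∀ ε > 0, ∃ y : XX Ω, p y ≤ 1 ∧
    ‖SS β x - SS β y‖ ≤ ε ∧ ∀ a, b ≤ a → y a = y ⊤

lemma exists_good (p : Seminorm ℝ (XX Ω)) (a : Ω) (ha : a < ⊤) : ∃ b, Good p b ∧ a < b := by
  have h : ∀ b : Ω, ∃ g : Ω, b < ⊤ → g < ⊤ ∧ b < g ∧ ∀ x : XX Ω, p x ≤ 1 → ∀ ε > 0,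
      ∃ y : XX Ω, p y ≤ 1 ∧ ‖SS b x - SS b y‖ ≤ ε ∧ ∀ a, g ≤ a → y a = y ⊤ := by
    intro b
    by_cases hb : b < ⊤
    · obtain ⟨g, h1, h2, h3⟩ := exists_gamma {x : XX Ω | p x ≤ 1} b hb
      exact ⟨g, fun _ => ⟨h1, h2, h3⟩⟩
    · exact ⟨b, fun h => absurd h hb⟩
  choose γ hγ using h
  obtain ⟨b, hb1, hb2, hb3⟩ := exists_closed γ (fun b hb => (hγ b hb).1) a ha
  refine ⟨b, ⟨hb1, ⟨a, hb2⟩, fun β hβ x hx ε hε => ?_⟩, hb2⟩
  obtain ⟨y, hy1, hy2, hy3⟩ := (hγ β (hβ.trans hb1)).2.2 x hx ε hε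
  exact ⟨y, hy1, hy2, fun a ha => hy3 a ((hb3 β hβ).le.trans ha)⟩

/-- The key localisation lemma. -/
lemma localise (hκ : 0 < κ) (hc₁ : 0 < c₁) (hlow : ∀ x, c₁ * ‖x‖ ≤ p x) (hC₁ : 0 < C₁)
    (hup : ∀ x, p x ≤ C₁ * ‖x‖) (hκC : κ * C₁ ≤ 1 / 2) {b : Ω} (hb : Good p b) {z : XX Ω}
    (hz : z ≠ 0) {bz : Ω} (hbz : bz < b) (hosc : ∀ a, bz < a → |z a - z ⊤| ≤ κ * FF p κ z / 12)
    {θ : ℝ} (hθ : θ < FF p κ z) : ∃ μ ∈ EE p κ, (∀ x, μ (SS b x) = μ x) ∧ θ < μ z := by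
  have hF := FF_pos hκ.le hc₁ hlow hC₁ hup hz
  set F := FF p κ z with hFdef
  set θ' : ℝ := max θ (F / 2) with hθ'
  have hθ'F : θ' < F := max_lt hθ (by linarith)
  have hθ'pos : 0 < θ' := lt_of_lt_of_le (by linarith) (le_max_right θ (F / 2))
  obtain ⟨μ, hμ, hμz⟩ := exists_FF z hθ'F
  set ε₁ : ℝ := min 1 ((μ z - θ') / (2 * θ')) with hε₁
  have hε₁pos : 0 < ε₁ := lt_min one_pos (div_pos (by linarith) (by linarith))
  have hε₁1 : ε₁ ≤ 1 := min_le_left _ _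
  have hε₁2 : θ' * (1 + ε₁) < μ z := by
    have h1 : ε₁ ≤ (μ z - θ') / (2 * θ') := min_le_right _ _
    have h2 : θ' * ε₁ ≤ (μ z - θ') / 2 := by
      calc θ' * ε₁ ≤ θ' * ((μ z - θ') / (2 * θ')) := mul_le_mul_of_nonneg_left h1 hθ'pos.le
        _ = (μ z - θ') / 2 := by field_simp
    linarith
  obtain ⟨b', hb', hvar⟩ := var_small μ hb.2.1 (show 0 < ε₁ * c₁ / 4 by positivity)
  set β := max b' bz with hβ
  have hβb : β < b := max_lt hb' hbz
  have hβt : β < ⊤ := hβb.trans hb.1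
  have hμn := EE_norm hc₁ hlow hC₁ hup hμ
  let Y : Set (XX Ω) := {y | ‖y‖ ≤ 1 ∧ (∀ a, a ≤ β → y a = 0) ∧ y ⊤ = 0}
  have hY0 : (0 : XX Ω) ∈ Y := ⟨by simp, fun _ _ => rfl, rfl⟩
  have hY1 : ∀ y ∈ Y, ‖y‖ ≤ 1 := fun y hy => hy.1
  set m := Tf Y μ with hm
  have hm0 : 0 ≤ m := Tf_nonneg hY0 hY1 μ
  have hmC : m ≤ C₁ := (Tf_le_norm hY0 hY1 μ).trans hμn
  set D : ℝ := 1 + ε₁ - κ * m with hD
  have hκm : κ * m ≤ 1 / 2 := (mul_le_mul_of_nonneg_left hmC hκ.le).trans hκC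
  have hDpos : 0 < D := by rw [hD]; linarith
  -- the functional
  have hmem : D⁻¹ • (μ.comp (SS β)) ∈ EE p κ := by
    intro x y hx hy hy0
    change D⁻¹ * μ (SS β x) + κ * (D⁻¹ * μ (SS β y)) ≤ 1
    have key : μ (SS β x) + κ * μ (SS β y) ≤ D := by
      obtain ⟨x', hx'1, hx'2, hx'3⟩ := hb.2.2 β hβb x hx (ε₁ / (2 * C₁)) (by positivity)
      -- comparison of `SS β x` and `SS β x'`
      have h1 : μ (SS β x) ≤ μ (SS β x') + ε₁ / 2 := by
        have h2 := μ.le_opNorm (SS β x - SS β x')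
        rw [Real.norm_eq_abs, map_sub] at h2
        have h3 : ‖μ‖ * ‖SS β x - SS β x'‖ ≤ C₁ * (ε₁ / (2 * C₁)) :=
          mul_le_mul hμn hx'2 (norm_nonneg _) hC₁.le
        have h4 : C₁ * (ε₁ / (2 * C₁)) = ε₁ / 2 := by field_simp
        have h5 := le_abs_self (μ (SS β x) - μ (SS β x'))
        linarith
      -- comparison of `SS β x'` and `x'`
      have h6 : μ (SS β x') ≤ μ x' + ε₁ / 2 := by
        have hx'n : ‖x'‖ ≤ 1 / c₁ := by
          rw [le_div_iff₀ hc₁]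
          have := hlow x'
          linarith
        have h7 := hvar ((c₁ / 2) • (SS β x' - x')) (by
            rw [norm_smul, Real.norm_eq_abs, abs_of_pos (by positivity)]
            have h8 := norm_sub_le (SS β x') x'
            have h9 := norm_SS_le β x'
            have h10 : c₁ / 2 * ‖SS β x' - x'‖ ≤ c₁ / 2 * (2 * (1 / c₁)) :=
              mul_le_mul_of_nonneg_left (by linarith) (by positivity)
            have h11 : c₁ / 2 * (2 * (1 / c₁)) = 1 := by field_simp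
            linarith)
          (by
            intro a ha
            rw [BoundedContinuousFunction.smul_apply, BoundedContinuousFunction.sub_apply,
              SS_apply_le _ (ha.trans (le_max_left _ _)), sub_self, smul_zero])
          (by
            intro a ha
            rw [BoundedContinuousFunction.smul_apply, BoundedContinuousFunction.sub_apply,
              SS_apply_gt _ (lt_of_lt_of_le hβb ha), hx'3 a ha, sub_self, smul_zero])
        rw [map_smul, smul_eq_mul, map_sub, abs_mul, abs_of_pos (by positivity)] at h7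
        have h12 := le_abs_self (μ (SS β x') - μ x')
        have h13 : c₁ / 2 * |μ (SS β x') - μ x'| ≤ c₁ / 2 * (ε₁ / 2) := by linarith
        have h14 := le_of_mul_le_mul_left h13 (by positivity)
        linarith
      -- the penalty
      have h15 : μ x' + κ * μ (SS β y) + κ * m ≤ 1 := by
        have h16 : m ≤ (1 - μ x' - κ * μ (SS β y)) / κ := by
          rw [hm]
          apply Tf_le hY0
          intro y' hy'
          rw [le_div_iff₀ hκ]
          have h17 := hμ x' (SS β y + y') hx'1 (by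
            apply norm_le_of_abs zero_le_one
            intro a
            rw [BoundedContinuousFunction.add_apply]
            rcases le_or_gt a β with h | h
            · rw [SS_apply_le _ h, hy'.2.1 a h, add_zero]
              exact (abs_le_norm' y a).trans hy
            · rw [SS_apply_gt _ h, hy0, zero_add]
              exact (abs_le_norm' y' a).trans hy'.1) (by
            rw [BoundedContinuousFunction.add_apply, SS_apply_gt _ hβt, hy0, hy'.2.2, add_zero])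
          rw [map_add] at h17
          linarith
        rw [le_div_iff₀ hκ] at h16
        linarith
      rw [hD]
      linarith
    have h18 : D⁻¹ * μ (SS β x) + κ * (D⁻¹ * μ (SS β y)) =
      D⁻¹ * (μ (SS β x) + κ * μ (SS β y)) := by ring
    rw [h18]
    calc D⁻¹ * (μ (SS β x) + κ * μ (SS β y)) ≤ D⁻¹ * D :=
          mul_le_mul_of_nonneg_left key (by positivity)
      _ = 1 := inv_mul_cancel₀ hDpos.ne'
  refine ⟨_, hmem, ?_, ?_⟩
  · intro x
    change D⁻¹ * μ (SS β (SS b x)) = D⁻¹ * μ (SS β x)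
    rw [SS_SS hβb.le]
  · change θ < D⁻¹ * μ (SS β z)
    set δ : ℝ := κ * F / 12 with hδ
    have hδpos : 0 < δ := by positivity
    have h19 : μ (z - SS β z) ≤ δ * m := by
      have h20 : δ⁻¹ • (z - SS β z) ∈ Y := by
        refine ⟨?_, ?_, ?_⟩
        · rw [norm_smul, Real.norm_eq_abs, abs_of_pos (by positivity)]
          have h21 : ‖z - SS β z‖ ≤ δ := by
            apply norm_le_of_abs hδpos.le
            intro a
            rw [BoundedContinuousFunction.sub_apply]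
            rcases le_or_gt a β with h | h
            · rw [SS_apply_le _ h, sub_self, abs_zero]; exact hδpos.le
            · rw [SS_apply_gt _ h]
              exact hosc a (lt_of_le_of_lt (le_max_right _ _) h)
          calc δ⁻¹ * ‖z - SS β z‖ ≤ δ⁻¹ * δ := mul_le_mul_of_nonneg_left h21 (by positivity)
            _ = 1 := inv_mul_cancel₀ hδpos.ne'
        · intro a ha
          rw [BoundedContinuousFunction.smul_apply, BoundedContinuousFunction.sub_apply,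
            SS_apply_le _ ha, sub_self, smul_zero]
        · rw [BoundedContinuousFunction.smul_apply, BoundedContinuousFunction.sub_apply,
            SS_apply_gt _ hβt, sub_self, smul_zero]
      have h22 := le_Tf hY1 μ h20
      rw [map_smul, smul_eq_mul] at h22
      have h23 := mul_le_mul_of_nonneg_left h22 hδpos.le
      rwa [← mul_assoc, mul_inv_cancel₀ hδpos.ne', one_mul] at h23
    rw [map_sub] at h19
    have h24 : θ' < D⁻¹ * μ (SS β z) := by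
      rw [inv_mul_eq_div, lt_div_iff₀ hDpos]
      -- θ' D < μ z - δ m
      have h25 : θ' * D = θ' * (1 + ε₁) - θ' * (κ * m) := by rw [hD]; ring
      have h26 : F / 2 ≤ θ' := le_max_right _ _
      have h27 : δ * m ≤ θ' * (κ * m) := by
        have h28 : δ ≤ θ' * κ := by
          rw [hδ]
          nlinarith
        have := mul_le_mul_of_nonneg_right h28 hm0
        linarith
      rw [h25]
      linarith
    exact lt_of_le_of_lt (le_max_left _ _) h24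

end Pool.Agent.Lib.Pa1e890
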