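import Pool.Agent.Lib.Pa1e890.Smulian

/-!
# Gluing families of functionals

For a family `u a : I a → X*` (`a ∈ L`) and functionals `τ a ∈ X*` we consider the set of all
`∑ w_a u_a(i_a) + c (w_a - w_a² / 2) (± τ_a)` over finitely supported subprobability weights `w`.
-/

set_option autoImplicit false
open Filter Topology Set

namespace Pool.Agent.Lib.Pa1e890

/-- Finitely supported subprobability weights. -/
structure Wt (L : Type*) where
  /-- a finite set containing the support -/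
  s : Finset L
  /-- the weights -/
  w : L → ℝ
  nonneg : ∀ a, 0 ≤ w a
  supp : ∀ a, a ∉ s → w a = 0
  sum_le : ∑ a ∈ s, w a ≤ 1

/-- Signs. -/
noncomputable def sgn (b : Bool) : ℝ := if b then 1 else -1

lemma sgn_sq (b : Bool) : |sgn b| = 1 := by
  unfold sgn; split_ifs <;> simp

lemma exists_sgn (t : ℝ) : ∃ b, sgn b * t = |t| := by
  rcases le_total 0 t with h | h
  · exact ⟨true, by simp [sgn, abs_of_nonneg h]⟩
  · exact ⟨false, by simp [sgn, abs_of_nonpos h]⟩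

lemma sgn_mul_le (b : Bool) (t : ℝ) : sgn b * t ≤ |t| := by
  have := le_abs_self (sgn b * t)
  rwa [abs_mul, sgn_sq, one_mul] at this

section

variable {X : Type*} [NormedAddCommGroup X] [NormedSpace ℝ X] {L : Type*} {I : L → Type*}

/-- The index type. -/
abbrev GI (L : Type*) (I : L → Type*) := Wt L × (∀ a, I a) × (L → Bool)

/-- One term. -/
noncomputable def term (u : ∀ a, I a → X →L[ℝ] ℝ) (τ : L → X →L[ℝ] ℝ) (c : ℝ) (g : GI L I)
    (a : L) : X →L[ℝ] ℝ :=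
  g.1.w a • u a (g.2.1 a) + (c * (g.1.w a - g.1.w a ^ 2 / 2) * sgn (g.2.2 a)) • τ a

/-- The glued family. -/
noncomputable def glue (u : ∀ a, I a → X →L[ℝ] ℝ) (τ : L → X →L[ℝ] ℝ) (c : ℝ) (g : GI L I) :
    X →L[ℝ] ℝ := ∑ a ∈ g.1.s, term u τ c g a

lemma Wt.le_one {L : Type*} (W : Wt L) (a : L) : W.w a ≤ 1 := by
  by_cases h : a ∈ W.s
  · exact (Finset.single_le_sum (fun b _ => W.nonneg b) h).trans W.sum_le
  · rw [W.supp a h]; norm_num

lemma Wt.sum_eq {L : Type*} (W : Wt L) {T : Finset L} (hT : W.s ⊆ T) (F : L → ℝ → ℝ)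
    (hF : ∀ a, F a 0 = 0) : ∑ a ∈ W.s, F a (W.w a) = ∑ a ∈ T, F a (W.w a) := by
  apply Finset.sum_subset hT
  intro a _ ha
  rw [W.supp a ha, hF]

lemma Wt.sum_le' {L : Type*} (W : Wt L) (T : Finset L) : ∑ a ∈ T, W.w a ≤ 1 := by
  classical
  have h1 : ∑ a ∈ T, W.w a ≤ ∑ a ∈ T ∪ W.s, W.w a :=
    Finset.sum_le_sum_of_subset_of_nonneg Finset.subset_union_left (fun a _ _ => W.nonneg a)
  have h2 := W.sum_eq (T := T ∪ W.s) Finset.subset_union_right (fun _ x => x) (fun _ => rfl)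
  have := W.sum_le
  linarith

/-- `J` functional. -/
noncomputable def Jf (f t : L → ℝ) (c : ℝ) (W : Wt L) : ℝ :=
  ∑ a ∈ W.s, (W.w a * f a + c * (W.w a - W.w a ^ 2 / 2) * |t a|)

lemma Jf_eq (f t : L → ℝ) (c : ℝ) (W : Wt L) {T : Finset L} (hT : W.s ⊆ T) :
    Jf f t c W = ∑ a ∈ T, (W.w a * f a + c * (W.w a - W.w a ^ 2 / 2) * |t a|) :=
  W.sum_eq hT (fun a x => x * f a + c * (x - x ^ 2 / 2) * |t a|) (fun a => by simp)

/-- The midpoint of two weights. -/
noncomputable def midW [DecidableEq L] (W W' : Wt L) : Wt L where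
  s := W.s ∪ W'.s
  w := fun a => (W.w a + W'.w a) / 2
  nonneg := fun a => by have := W.nonneg a; have := W'.nonneg a; linarith
  supp := fun a ha => by
    rw [Finset.mem_union, not_or] at ha
    simp only [W.supp a ha.1, W'.supp a ha.2]
    norm_num
  sum_le := by
    rw [← Finset.sum_div, Finset.sum_add_distrib]
    have := W.sum_le' (W.s ∪ W'.s)
    have := W'.sum_le' (W.s ∪ W'.s)
    linarith

lemma Jf_mid [DecidableEq L] (f t : L → ℝ) (c : ℝ) (W W' : Wt L) :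
    Jf f t c (midW W W') = (Jf f t c W + Jf f t c W') / 2 +
      ∑ b ∈ W.s ∪ W'.s, c / 8 * |t b| * (W.w b - W'.w b) ^ 2 := by
  rw [Jf_eq f t c W (T := W.s ∪ W'.s) Finset.subset_union_left,
    Jf_eq f t c W' (T := W.s ∪ W'.s) Finset.subset_union_right]
  set P : L → ℝ := fun b => W.w b * f b + c * (W.w b - W.w b ^ 2 / 2) * |t b| with hP
  set P' : L → ℝ := fun b => W'.w b * f b + c * (W'.w b - W'.w b ^ 2 / 2) * |t b| with hP'
  set Q : L → ℝ := fun b => c / 8 * |t b| * (W.w b - W'.w b) ^ 2 with hQ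
  have e : Jf f t c (midW W W') = ∑ b ∈ W.s ∪ W'.s, (P b / 2 + P' b / 2 + Q b) := by
    unfold Jf
    apply Finset.sum_congr rfl
    intro b _
    simp only [midW, hP, hP', hQ]
    ring
  rw [e, Finset.sum_add_distrib, Finset.sum_add_distrib, ← Finset.sum_div, ← Finset.sum_div]
  ring

lemma Jf_gap [DecidableEq L] (f t : L → ℝ) {c : ℝ} (hc : 0 ≤ c) (W W' : Wt L) (a : L) :
    (Jf f t c W + Jf f t c W') / 2 + c / 8 * |t a| * (W.w a - W'.w a) ^ 2 ≤
      Jf f t c (midW W W') := by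
  rw [Jf_mid]
  by_cases ha : a ∈ W.s ∪ W'.s
  · have h1 : c / 8 * |t a| * (W.w a - W'.w a) ^ 2 ≤
        ∑ b ∈ W.s ∪ W'.s, c / 8 * |t b| * (W.w b - W'.w b) ^ 2 :=
      Finset.single_le_sum (f := fun b => c / 8 * |t b| * (W.w b - W'.w b) ^ 2)
        (fun b _ => by positivity) ha
    linarith
  · rw [Finset.mem_union, not_or] at ha
    rw [W.supp a ha.1, W'.supp a ha.2]
    have h1 : 0 ≤ ∑ b ∈ W.s ∪ W'.s, c / 8 * |t b| * (W.w b - W'.w b) ^ 2 :=
      Finset.sum_nonneg (fun b _ => by positivity)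
    simp only [sub_self]
    norm_num
    linarith

/-- Moving all the mass outside `A` to `a₀`. -/
noncomputable def moveW [DecidableEq L] (W : Wt L) (A : Finset L) (a₀ : L) (h0 : a₀ ∈ A) : Wt L where
  s := A
  w := fun a => if a ∈ A then (if a = a₀ then W.w a + (1 - ∑ b ∈ A, W.w b) else W.w a) else 0
  nonneg := fun a => by
    have := W.nonneg a
    have := W.sum_le' A
    split_ifs <;> linarith
  supp := fun a ha => by simp [ha]
  sum_le := by
    have e : ∀ a ∈ A, (if a ∈ A then (if a = a₀ then W.w a + (1 - ∑ b ∈ A, W.w b) else W.w a)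
        else 0) = W.w a + (if a = a₀ then (1 - ∑ b ∈ A, W.w b) else 0) := by
      intro a ha
      rw [if_pos ha]
      split_ifs <;> ring
    rw [Finset.sum_congr rfl e, Finset.sum_add_distrib, Finset.sum_ite_eq' A a₀, if_pos h0]
    linarith

lemma Jf_move [DecidableEq L] (f t : L → ℝ) {c c' F γ : ℝ} (hc : 0 ≤ c) (hc' : 0 ≤ c') (hF : 0 ≤ F)
    (hγ : 0 ≤ γ) (hf : ∀ a, f a ≤ F + c' * |t a|) (W : Wt L) (A : Finset L) (a₀ : L) (h0 : a₀ ∈ A)
    (hA : ∀ a, a ∉ A → |t a| ≤ γ) (hf0 : F ≤ f a₀) :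
    Jf f t c W + c / 2 * |t a₀| * (1 - ∑ a ∈ A, W.w a) ^ 2 ≤
      Jf f t c (moveW W A a₀ h0) + (c + c') * γ := by
  set δ := 1 - ∑ a ∈ A, W.w a with hδ
  have hδ0 : 0 ≤ δ := by have := W.sum_le' A; linarith
  rw [Jf_eq f t c W (T := A ∪ W.s) Finset.subset_union_right]
  have hsplit : ∑ a ∈ A ∪ W.s, (W.w a * f a + c * (W.w a - W.w a ^ 2 / 2) * |t a|) =
      ∑ a ∈ A, (W.w a * f a + c * (W.w a - W.w a ^ 2 / 2) * |t a|) +
      ∑ a ∈ W.s \ A, (W.w a * f a + c * (W.w a - W.w a ^ 2 / 2) * |t a|) := by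
    rw [← Finset.union_sdiff_self_eq_union, Finset.sum_union Finset.disjoint_sdiff]
  rw [hsplit]
  have hout : ∑ a ∈ W.s \ A, (W.w a * f a + c * (W.w a - W.w a ^ 2 / 2) * |t a|) ≤
      (∑ a ∈ W.s \ A, W.w a) * (F + (c + c') * γ) := by
    rw [Finset.sum_mul]
    apply Finset.sum_le_sum
    intro a ha
    have haA : a ∉ A := (Finset.mem_sdiff.1 ha).2
    have h1 := hf a
    have h2 := hA a haA
    have h3 := W.nonneg a
    have h4 := abs_nonneg (t a)
    have h5 : W.w a * f a ≤ W.w a * (F + c' * γ) := by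
      apply mul_le_mul_of_nonneg_left _ h3
      nlinarith
    have h6 : c * (W.w a - W.w a ^ 2 / 2) * |t a| ≤ c * W.w a * γ := by
      have h7 : W.w a - W.w a ^ 2 / 2 ≤ W.w a := by nlinarith [sq_nonneg (W.w a)]
      have h8 : c * (W.w a - W.w a ^ 2 / 2) ≤ c * W.w a := mul_le_mul_of_nonneg_left h7 hc
      calc c * (W.w a - W.w a ^ 2 / 2) * |t a| ≤ c * W.w a * |t a| :=
            mul_le_mul_of_nonneg_right h8 h4
        _ ≤ c * W.w a * γ := mul_le_mul_of_nonneg_left h2 (by positivity)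
    nlinarith
  have ho : ∑ a ∈ W.s \ A, W.w a ≤ δ := by
    have h1 := W.sum_le' (A ∪ W.s)
    rw [← Finset.union_sdiff_self_eq_union, Finset.sum_union Finset.disjoint_sdiff] at h1
    linarith
  have ho0 : 0 ≤ ∑ a ∈ W.s \ A, W.w a := Finset.sum_nonneg fun a _ => W.nonneg a
  have hδ1 : δ ≤ 1 := by
    have : 0 ≤ ∑ a ∈ A, W.w a := Finset.sum_nonneg fun a _ => W.nonneg a
    linarith
  have hin : Jf f t c (moveW W A a₀ h0) =
      ∑ a ∈ A, (W.w a * f a + c * (W.w a - W.w a ^ 2 / 2) * |t a|) +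
      (δ * f a₀ + c * |t a₀| * (δ - W.w a₀ * δ - δ ^ 2 / 2)) := by
    unfold Jf
    have e2 : (moveW W A a₀ h0).s = A := rfl
    rw [e2]
    have e : ∀ a ∈ A, ((moveW W A a₀ h0).w a * f a +
        c * ((moveW W A a₀ h0).w a - (moveW W A a₀ h0).w a ^ 2 / 2) * |t a|) =
        (W.w a * f a + c * (W.w a - W.w a ^ 2 / 2) * |t a|) +
        (if a = a₀ then (δ * f a + c * |t a| * (δ - W.w a * δ - δ ^ 2 / 2)) else 0) := by
      intro a ha
      simp only [moveW, if_pos ha]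
      split_ifs with h
      · rw [← hδ]; ring
      · ring
    rw [Finset.sum_congr rfl e, Finset.sum_add_distrib, Finset.sum_ite_eq' A a₀, if_pos h0]
  rw [hin]
  have hw0 : W.w a₀ + δ ≤ 1 := by
    have := Finset.single_le_sum (f := W.w) (fun b _ => W.nonneg b) h0
    linarith
  have h1 : δ * F ≤ δ * f a₀ := mul_le_mul_of_nonneg_left hf0 hδ0
  have h2 : c / 2 * |t a₀| * δ ^ 2 ≤ c * |t a₀| * (δ - W.w a₀ * δ - δ ^ 2 / 2) := by
    have h3 : δ ^ 2 / 2 ≤ δ - W.w a₀ * δ - δ ^ 2 / 2 := by nlinarith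
    have h4 : 0 ≤ c * |t a₀| := by positivity
    nlinarith
  have h5 : (∑ a ∈ W.s \ A, W.w a) * (F + (c + c') * γ) ≤ δ * F + (c + c') * γ := by
    have h6 : (∑ a ∈ W.s \ A, W.w a) * F ≤ δ * F := mul_le_mul_of_nonneg_right ho hF
    have h7 : (∑ a ∈ W.s \ A, W.w a) * ((c + c') * γ) ≤ 1 * ((c + c') * γ) :=
      mul_le_mul_of_nonneg_right (ho.trans hδ1) (by positivity)
    linarith
  linarith

end

end Pool.Agent.Lib.Pa1e890
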