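import Pool.Agent.Lib.Pa1e890.Glue

/-!
# The glued family is strongly exposed
-/

set_option autoImplicit false
open Filter Topology Set

namespace Pool.Agent.Lib.Pa1e890

variable {X : Type*} [NormedAddCommGroup X] [NormedSpace ℝ X] {L : Type*} {I : L → Type*}

lemma psi_bounds {w : ℝ} (h0 : 0 ≤ w) (h1 : w ≤ 1) : w / 2 ≤ w - w ^ 2 / 2 ∧ w - w ^ 2 / 2 ≤ w := by
  constructor <;> nlinarith

lemma psi_lip {w w' : ℝ} (h0 : 0 ≤ w) (h1 : w ≤ 1) (h0' : 0 ≤ w') (h1' : w' ≤ 1) :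
    |(w - w ^ 2 / 2) - (w' - w' ^ 2 / 2)| ≤ |w - w'| := by
  have e : (w - w ^ 2 / 2) - (w' - w' ^ 2 / 2) = (w - w') * (1 - (w + w') / 2) := by ring
  rw [e, abs_mul]
  have : |1 - (w + w') / 2| ≤ 1 := by
    rw [abs_le]; constructor <;> linarith
  calc |w - w'| * |1 - (w + w') / 2| ≤ |w - w'| * 1 :=
        mul_le_mul_of_nonneg_left this (abs_nonneg _)
    _ = |w - w'| := mul_one _

/-- The zero weight. -/
def Wt.zero (L : Type*) : Wt L where
  s := ∅
  w := fun _ => 0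
  nonneg := fun _ => le_rfl
  supp := fun _ _ => rfl
  sum_le := by simp

variable {u : ∀ a, I a → X →L[ℝ] ℝ} {τ : L → X →L[ℝ] ℝ} {c M : ℝ}

lemma norm_term_le (hc : 0 ≤ c) (_hM : 0 ≤ M) (hu : ∀ a i, ‖u a i‖ ≤ M) (hτ : ∀ a, ‖τ a‖ ≤ M)
    (g : GI L I) (a : L) : ‖term u τ c g a‖ ≤ (1 + c) * M * g.1.w a := by
  unfold term
  have h0 := g.1.nonneg a
  have h1 := g.1.le_one a
  obtain ⟨h2, h3⟩ := psi_bounds h0 h1
  refine (norm_add_le _ _).trans ?_
  rw [norm_smul, norm_smul, Real.norm_eq_abs, Real.norm_eq_abs, abs_of_nonneg h0, abs_mul, sgn_sq,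
    mul_one, abs_of_nonneg (by apply mul_nonneg hc; linarith)]
  have h4 : g.1.w a * ‖u a (g.2.1 a)‖ ≤ g.1.w a * M := mul_le_mul_of_nonneg_left (hu a _) h0
  have h5 : c * (g.1.w a - g.1.w a ^ 2 / 2) * ‖τ a‖ ≤ c * g.1.w a * M := by
    apply mul_le_mul _ (hτ a) (norm_nonneg _) (by positivity)
    exact mul_le_mul_of_nonneg_left h3 hc
  linarith

lemma norm_sum_term_le (hc : 0 ≤ c) (hM : 0 ≤ M) (hu : ∀ a i, ‖u a i‖ ≤ M) (hτ : ∀ a, ‖τ a‖ ≤ M)
    (g : GI L I) (T : Finset L) : ‖∑ a ∈ T, term u τ c g a‖ ≤ (1 + c) * M * ∑ a ∈ T, g.1.w a := by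
  rw [Finset.mul_sum]
  exact (norm_sum_le _ _).trans (Finset.sum_le_sum fun a _ => norm_term_le hc hM hu hτ g a)

lemma norm_glue_le (hc : 0 ≤ c) (hM : 0 ≤ M) (hu : ∀ a i, ‖u a i‖ ≤ M) (hτ : ∀ a, ‖τ a‖ ≤ M)
    (g : GI L I) : ‖glue u τ c g‖ ≤ (1 + c) * M := by
  unfold glue
  refine (norm_sum_term_le hc hM hu hτ g _).trans ?_
  have := g.1.sum_le
  calc (1 + c) * M * ∑ a ∈ g.1.s, g.1.w a ≤ (1 + c) * M * 1 :=
        mul_le_mul_of_nonneg_left this (by positivity)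
    _ = (1 + c) * M := mul_one _

lemma term_apply (g : GI L I) (a : L) (z : X) : term u τ c g a z =
    g.1.w a * u a (g.2.1 a) z + c * (g.1.w a - g.1.w a ^ 2 / 2) * (sgn (g.2.2 a) * τ a z) := by
  unfold term
  simp only [add_apply, smul_apply, smul_eq_mul]
  ring

lemma glue_apply (g : GI L I) (z : X) : glue u τ c g z = ∑ a ∈ g.1.s, (g.1.w a * u a (g.2.1 a) z +
    c * (g.1.w a - g.1.w a ^ 2 / 2) * (sgn (g.2.2 a) * τ a z)) := by
  unfold glue
  rw [sum_apply]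
  exact Finset.sum_congr rfl fun a _ => term_apply g a z

/-- The loss in each coordinate. -/
lemma loss (hc : 0 ≤ c) (hu : ∀ a i, ‖u a i‖ ≤ M) (g : GI L I) (z : X) {a : L} (ha : a ∈ g.1.s) :
    g.1.w a * (supF (u a) z - u a (g.2.1 a) z) +
      c * (g.1.w a - g.1.w a ^ 2 / 2) * (|τ a z| - sgn (g.2.2 a) * τ a z) ≤
    Jf (fun a => supF (u a) z) (fun a => τ a z) c g.1 - glue u τ c g z := by
  rw [glue_apply]
  unfold Jf
  rw [← Finset.sum_sub_distrib]
  have h := Finset.single_le_sum (s := g.1.s) (f := fun a =>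
    (g.1.w a * supF (u a) z + c * (g.1.w a - g.1.w a ^ 2 / 2) * |τ a z|) -
    (g.1.w a * u a (g.2.1 a) z + c * (g.1.w a - g.1.w a ^ 2 / 2) * (sgn (g.2.2 a) * τ a z)))
    (fun b _ => ?_) ha
  · have e : g.1.w a * (supF (u a) z - u a (g.2.1 a) z) +
      c * (g.1.w a - g.1.w a ^ 2 / 2) * (|τ a z| - sgn (g.2.2 a) * τ a z) =
      (g.1.w a * supF (u a) z + c * (g.1.w a - g.1.w a ^ 2 / 2) * |τ a z|) -
      (g.1.w a * u a (g.2.1 a) z + c * (g.1.w a - g.1.w a ^ 2 / 2) * (sgn (g.2.2 a) * τ a z)) := by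
      ring
    rw [e]
    exact h
  · have h0 := g.1.nonneg b
    have h1 := g.1.le_one b
    obtain ⟨h2, h3⟩ := psi_bounds h0 h1
    have h4 : g.1.w b * u b (g.2.1 b) z ≤ g.1.w b * supF (u b) z :=
      mul_le_mul_of_nonneg_left (le_supF (hu b) z _) h0
    have h5 : c * (g.1.w b - g.1.w b ^ 2 / 2) * (sgn (g.2.2 b) * τ b z) ≤
        c * (g.1.w b - g.1.w b ^ 2 / 2) * |τ b z| :=
      mul_le_mul_of_nonneg_left (sgn_mul_le _ _) (mul_nonneg hc (by linarith))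
    linarith

lemma glue_le_Jf (hc : 0 ≤ c) (hu : ∀ a i, ‖u a i‖ ≤ M) (g : GI L I) (z : X) :
    glue u τ c g z ≤ Jf (fun a => supF (u a) z) (fun a => τ a z) c g.1 := by
  rw [glue_apply]
  unfold Jf
  apply Finset.sum_le_sum
  intro b _
  have h0 := g.1.nonneg b
  have h1 := g.1.le_one b
  obtain ⟨h2, h3⟩ := psi_bounds h0 h1
  have h4 : g.1.w b * u b (g.2.1 b) z ≤ g.1.w b * supF (u b) z :=
    mul_le_mul_of_nonneg_left (le_supF (hu b) z _) h0
  have h5 : c * (g.1.w b - g.1.w b ^ 2 / 2) * (sgn (g.2.2 b) * τ b z) ≤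
      c * (g.1.w b - g.1.w b ^ 2 / 2) * |τ b z| :=
    mul_le_mul_of_nonneg_left (sgn_mul_le _ _) (mul_nonneg hc (by linarith))
  linarith

lemma Jf_le_sup [∀ a, Nonempty (I a)] (hc : 0 ≤ c) (hM : 0 ≤ M) (hu : ∀ a i, ‖u a i‖ ≤ M)
    (hτ : ∀ a, ‖τ a‖ ≤ M) (W : Wt L) (z : X) :
    Jf (fun a => supF (u a) z) (fun a => τ a z) c W ≤ supF (glue u τ c) z := by
  refine le_of_forall_pos_le_add fun η hη => ?_
  choose i hi using fun a => exists_near (u a) z hη
  choose b hb using fun a => exists_sgn (τ a z)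
  let g : GI L I := (W, i, b)
  have h1 := le_supF (norm_glue_le hc hM hu hτ) z g
  have h2 : Jf (fun a => supF (u a) z) (fun a => τ a z) c W ≤ glue u τ c g z + η := by
    rw [glue_apply]
    unfold Jf
    have h3 : ∑ a ∈ W.s, (W.w a * supF (u a) z + c * (W.w a - W.w a ^ 2 / 2) * |τ a z|) ≤
        ∑ a ∈ W.s, ((W.w a * u a (i a) z + c * (W.w a - W.w a ^ 2 / 2) * (sgn (b a) * τ a z)) +
          W.w a * η) := by
      apply Finset.sum_le_sum
      intro a _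
      rw [hb]
      have h0 := W.nonneg a
      have := mul_le_mul_of_nonneg_left (hi a).le h0
      linarith
    have h3' : ∑ a ∈ W.s, ((W.w a * u a (i a) z +
        c * (W.w a - W.w a ^ 2 / 2) * (sgn (b a) * τ a z)) + W.w a * η) =
        ∑ a ∈ W.s, (W.w a * u a (i a) z + c * (W.w a - W.w a ^ 2 / 2) * (sgn (b a) * τ a z)) +
        (∑ a ∈ W.s, W.w a) * η := by
      rw [Finset.sum_add_distrib, ← Finset.sum_mul]
    rw [h3'] at h3
    have h4 : (∑ a ∈ W.s, W.w a) * η ≤ 1 * η := mul_le_mul_of_nonneg_right W.sum_le hη.le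
    have e : ∑ a ∈ g.1.s, (g.1.w a * u a (g.2.1 a) z +
        c * (g.1.w a - g.1.w a ^ 2 / 2) * (sgn (g.2.2 a) * τ a z)) =
        ∑ a ∈ W.s, (W.w a * u a (i a) z + c * (W.w a - W.w a ^ 2 / 2) * (sgn (b a) * τ a z)) := rfl
    rw [e]
    linarith
  linarith

/-- Each coordinate of near-maximisers is norm controlled. -/
lemma coord [∀ a, Nonempty (I a)] (hc : 0 < c) (hM : 0 < M) (hu : ∀ a i, ‖u a i‖ ≤ M)
    (hτ : ∀ a, ‖τ a‖ ≤ M) {z : X} {a : L} (ha : τ a z ≠ 0) (hexp : Exposes (u a) z) {ε : ℝ}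
    (hε : 0 < ε) : ∃ ζ : X →L[ℝ] ℝ, ∃ η > 0, ∀ g : GI L I,
      supF (glue u τ c) z - η < glue u τ c g z → ‖term u τ c g a - ζ‖ ≤ ε := by
  classical
  have hgn : Nonempty (GI L I) := ⟨(Wt.zero L, fun a => Classical.arbitrary (I a),
    fun _ => true)⟩
  have htpos : 0 < |τ a z| := abs_pos.2 ha
  set K : ℝ := (1 + c) * M with hK
  have hKpos : 0 < K := by rw [hK]; positivity
  set δ : ℝ := min 1 (ε / (4 * K)) with hδ
  have hδpos : 0 < δ := lt_min one_pos (by positivity)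
  have hδK : 4 * K * δ ≤ ε := by
    have : δ ≤ ε / (4 * K) := min_le_right _ _
    calc 4 * K * δ ≤ 4 * K * (ε / (4 * K)) := mul_le_mul_of_nonneg_left this (by positivity)
      _ = ε := by field_simp
  obtain ⟨ζu, ηu, hηu, hζu⟩ := hexp (ε / 4) (by linarith)
  -- level η
  set η : ℝ := min (c * |τ a z| * δ ^ 2 / 8) (min (ηu * δ / 2) (c * δ * |τ a z| / 2)) with hη
  have hηpos : 0 < η := lt_min (by positivity) (lt_min (by positivity) (by positivity))
  have hη1 : η ≤ c * |τ a z| * δ ^ 2 / 8 := min_le_left _ _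
  have hη2 : η ≤ ηu * δ / 2 := (min_le_right _ _).trans (min_le_left _ _)
  have hη3 : η ≤ c * δ * |τ a z| / 2 := (min_le_right _ _).trans (min_le_right _ _)
  have hwclose : ∀ g g' : GI L I, supF (glue u τ c) z - η < glue u τ c g z →
      supF (glue u τ c) z - η < glue u τ c g' z → |g.1.w a - g'.1.w a| ≤ δ := by
    intro g g' h1 h2
    have h3 := Jf_gap (fun a => supF (u a) z) (fun a => τ a z) hc.le g.1 g'.1 a
    have h4 := Jf_le_sup hc.le hM.le hu hτ (midW g.1 g'.1) z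
    have h5 := glue_le_Jf (τ := τ) hc.le hu g z
    have h6 := glue_le_Jf (τ := τ) hc.le hu g' z
    have h7 : c / 8 * |τ a z| * (g.1.w a - g'.1.w a) ^ 2 ≤ c / 8 * |τ a z| * δ ^ 2 := by
      linarith
    have h8 : (g.1.w a - g'.1.w a) ^ 2 ≤ δ ^ 2 := le_of_mul_le_mul_left h7 (by positivity)
    exact abs_le_of_sq_le_sq h8 hδpos.le
  obtain ⟨g₀, hg₀⟩ := exists_near (glue u τ c) z hηpos
  by_cases hsmall : g₀.1.w a ≤ 2 * δ
  · refine ⟨0, η, hηpos, fun g hg => ?_⟩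
    rw [sub_zero]
    have h1 := abs_le.1 (hwclose g g₀ hg hg₀)
    have h2 := norm_term_le hc.le hM.le hu hτ g a
    have h3 : (1 + c) * M * g.1.w a ≤ K * (3 * δ) :=
      mul_le_mul_of_nonneg_left (by linarith) hKpos.le
    linarith
  · push Not at hsmall
    set w' := g₀.1.w a with hw'
    refine ⟨w' • ζu + (c * (w' - w' ^ 2 / 2) * (|τ a z| / τ a z)) • τ a, η, hηpos, fun g hg => ?_⟩
    have h1 := abs_le.1 (hwclose g g₀ hg hg₀)
    have hwδ : δ ≤ g.1.w a := by linarith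
    have hw0 := g.1.nonneg a
    have hw1 := g.1.le_one a
    obtain ⟨hp1, hp2⟩ := psi_bounds hw0 hw1
    have hmem : a ∈ g.1.s := by
      by_contra hcon
      rw [g.1.supp a hcon] at hwδ
      linarith
    have hloss := loss (τ := τ) hc.le hu g z hmem
    have h5 := Jf_le_sup hc.le hM.le hu hτ g.1 z
    have hA : 0 ≤ g.1.w a * (supF (u a) z - u a (g.2.1 a) z) :=
      mul_nonneg hw0 (by have := le_supF (hu a) z (g.2.1 a); linarith)
    have hB : 0 ≤ c * (g.1.w a - g.1.w a ^ 2 / 2) * (|τ a z| - sgn (g.2.2 a) * τ a z) :=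
      mul_nonneg (mul_nonneg hc.le (by linarith)) (by
        have := sgn_mul_le (g.2.2 a) (τ a z); linarith)
    -- `u` part near maximising
    have hu1 : supF (u a) z - ηu < u a (g.2.1 a) z := by
      have h6 : g.1.w a * (supF (u a) z - u a (g.2.1 a) z) < η := by linarith
      by_contra hcon
      push Not at hcon
      have h7 : δ * ηu ≤ g.1.w a * (supF (u a) z - u a (g.2.1 a) z) :=
        mul_le_mul hwδ (by linarith) hηu.le hw0
      nlinarith
    have hu2 := hζu _ hu1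
    -- sign part
    have hsg : sgn (g.2.2 a) * τ a z = |τ a z| := by
      by_contra hcon
      have h6 : sgn (g.2.2 a) * τ a z = -|τ a z| := by
        have h7 : |sgn (g.2.2 a) * τ a z| = |τ a z| := by rw [abs_mul, sgn_sq, one_mul]
        rcases abs_choice (sgn (g.2.2 a) * τ a z) with h8 | h8
        · rw [h8] at h7; exact absurd h7 hcon
        · rw [h8] at h7; linarith
      rw [h6] at hB hloss
      have h7 : c * (g.1.w a - g.1.w a ^ 2 / 2) * (|τ a z| - -|τ a z|) < η := by linarith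
      have h8 : c * (δ / 2) * (2 * |τ a z|) ≤
          c * (g.1.w a - g.1.w a ^ 2 / 2) * (|τ a z| - -|τ a z|) := by
        have h9 : |τ a z| - -|τ a z| = 2 * |τ a z| := by ring
        rw [h9]
        apply mul_le_mul_of_nonneg_right _ (by positivity)
        apply mul_le_mul_of_nonneg_left _ hc.le
        linarith
      nlinarith
    have hsg2 : sgn (g.2.2 a) = |τ a z| / τ a z := by
      rw [← hsg]; field_simp
    have hw'0 := g₀.1.nonneg a
    have hw'1 := g₀.1.le_one a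
    have e : term u τ c g a - (w' • ζu + (c * (w' - w' ^ 2 / 2) * (|τ a z| / τ a z)) • τ a) =
        (g.1.w a - w') • u a (g.2.1 a) + w' • (u a (g.2.1 a) - ζu) +
        (c * ((g.1.w a - g.1.w a ^ 2 / 2) - (w' - w' ^ 2 / 2)) * sgn (g.2.2 a)) • τ a := by
      unfold term
      rw [← hsg2]
      module
    rw [e]
    have hψ := psi_lip hw0 hw1 hw'0 hw'1
    have hwc := hwclose g g₀ hg hg₀
    have n1 : ‖(g.1.w a - w') • u a (g.2.1 a)‖ ≤ δ * M := by
      rw [norm_smul, Real.norm_eq_abs]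
      exact mul_le_mul hwc (hu a _) (norm_nonneg _) hδpos.le
    have n2 : ‖w' • (u a (g.2.1 a) - ζu)‖ ≤ ε / 4 := by
      rw [norm_smul, Real.norm_eq_abs, abs_of_nonneg hw'0]
      calc w' * ‖u a (g.2.1 a) - ζu‖ ≤ 1 * (ε / 4) :=
            mul_le_mul hw'1 hu2 (norm_nonneg _) zero_le_one
        _ = ε / 4 := one_mul _
    have n3 : ‖(c * ((g.1.w a - g.1.w a ^ 2 / 2) - (w' - w' ^ 2 / 2)) * sgn (g.2.2 a)) • τ a‖ ≤
        c * δ * M := by
      rw [norm_smul, Real.norm_eq_abs, abs_mul, sgn_sq, mul_one, abs_mul, abs_of_pos hc]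
      apply mul_le_mul _ (hτ a) (norm_nonneg _) (by positivity)
      exact mul_le_mul_of_nonneg_left (hψ.trans hwc) hc.le
    have n4 := norm_add₃_le (a := (g.1.w a - w') • u a (g.2.1 a))
      (b := w' • (u a (g.2.1 a) - ζu))
      (c := (c * ((g.1.w a - g.1.w a ^ 2 / 2) - (w' - w' ^ 2 / 2)) * sgn (g.2.2 a)) • τ a)
    have n5 : δ * M + c * δ * M = K * δ := by rw [hK]; ring
    linarith

/-- The gluing theorem. -/
theorem exposes_glue [∀ a, Nonempty (I a)] {c' F : ℝ} (hc : 0 < c) (hc' : 0 ≤ c') (hM : 0 < M)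
    (hu : ∀ a i, ‖u a i‖ ≤ M) (hτ : ∀ a, ‖τ a‖ ≤ M) {z : X} (hF : 0 ≤ F)
    (h1 : ∀ a, supF (u a) z ≤ F + c' * |τ a z|) (h2 : ∃ a₀, F ≤ supF (u a₀) z ∧ τ a₀ z ≠ 0)
    (h3 : ∀ γ > 0, {a | γ ≤ |τ a z|}.Finite) (h4 : ∀ a, τ a z ≠ 0 → Exposes (u a) z) :
    Exposes (glue u τ c) z := by
  classical
  intro ε hε
  obtain ⟨a₀, ha₀F, ha₀⟩ := h2
  have ht0 : 0 < |τ a₀ z| := abs_pos.2 ha₀
  set K : ℝ := (1 + c) * M with hK
  have hKpos : 0 < K := by rw [hK]; positivity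
  set δ : ℝ := ε / (2 * K) with hδ
  have hδpos : 0 < δ := by positivity
  -- thresholds
  set η₁ : ℝ := c / 2 * |τ a₀ z| * δ ^ 2 / 2 with hη₁
  have hη₁pos : 0 < η₁ := by positivity
  set γ : ℝ := min (|τ a₀ z|) (c / 2 * |τ a₀ z| * δ ^ 2 / (2 * (c + c' + 1))) with hγ
  have hγpos : 0 < γ := lt_min ht0 (by positivity)
  have hγ1 : (c + c') * γ ≤ c / 2 * |τ a₀ z| * δ ^ 2 / 2 := by
    have h5 : γ ≤ c / 2 * |τ a₀ z| * δ ^ 2 / (2 * (c + c' + 1)) := min_le_right _ _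
    calc (c + c') * γ ≤ (c + c' + 1) * γ := mul_le_mul_of_nonneg_right (by linarith) hγpos.le
      _ ≤ (c + c' + 1) * (c / 2 * |τ a₀ z| * δ ^ 2 / (2 * (c + c' + 1))) :=
          mul_le_mul_of_nonneg_left h5 (by positivity)
      _ = c / 2 * |τ a₀ z| * δ ^ 2 / 2 := by field_simp
  let A : Finset L := (h3 γ hγpos).toFinset
  have hmemA : ∀ a, a ∈ A ↔ γ ≤ |τ a z| := fun a => by simp [A]
  have h0A : a₀ ∈ A := (hmemA a₀).2 (min_le_left _ _)
  -- coordinates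
  have hcoord : ∀ a : L, ∃ ζ : X →L[ℝ] ℝ, ∃ η > 0, a ∈ A → ∀ g : GI L I,
      supF (glue u τ c) z - η < glue u τ c g z → ‖term u τ c g a - ζ‖ ≤ ε / (2 * (A.card + 1)) := by
    intro a
    by_cases haA : a ∈ A
    · have hta : τ a z ≠ 0 := by
        have := (hmemA a).1 haA
        exact abs_pos.1 (lt_of_lt_of_le hγpos this)
      obtain ⟨ζ, η, hη, h⟩ := coord hc hM hu hτ hta (h4 a hta)
        (show 0 < ε / (2 * ((A.card : ℝ) + 1)) by positivity)
      exact ⟨ζ, η, hη, fun _ => h⟩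
    · exact ⟨0, 1, one_pos, fun h => absurd h haA⟩
  choose ζ η hη hζ using hcoord
  obtain ⟨η₂, hη₂pos, hη₂⟩ : ∃ η₂ > 0, ∀ a ∈ A, η₂ ≤ η a := by
    refine ⟨A.inf' ⟨a₀, h0A⟩ η, ?_, fun a ha => Finset.inf'_le _ ha⟩
    rw [gt_iff_lt, Finset.lt_inf'_iff]
    exact fun a _ => hη a
  refine ⟨∑ a ∈ A, ζ a, min η₁ η₂, lt_min hη₁pos hη₂pos, fun g hg => ?_⟩
  have hg1 : supF (glue u τ c) z - η₁ < glue u τ c g z := by
    have := min_le_left η₁ η₂; linarith
  -- tail mass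
  have hmove := Jf_move (fun a => supF (u a) z) (fun a => τ a z) hc.le hc' hF hγpos.le h1 g.1 A a₀
    h0A (fun a ha => by
      have := (hmemA a).not.1 ha
      push Not at this
      exact this.le) ha₀F
  have hJ1 := Jf_le_sup hc.le hM.le hu hτ (moveW g.1 A a₀ h0A) z
  have hJ2 := glue_le_Jf (τ := τ) hc.le hu g z
  have htail : (1 - ∑ a ∈ A, g.1.w a) ^ 2 ≤ δ ^ 2 := by
    have h6 : c / 2 * |τ a₀ z| * (1 - ∑ a ∈ A, g.1.w a) ^ 2 ≤ c / 2 * |τ a₀ z| * δ ^ 2 := by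
      linarith
    exact le_of_mul_le_mul_left h6 (by positivity)
  have htail2 : 1 - ∑ a ∈ A, g.1.w a ≤ δ := (abs_le.1 (abs_le_of_sq_le_sq htail hδpos.le)).2
  -- decomposition
  have hdec : glue u τ c g = ∑ a ∈ A, term u τ c g a + ∑ a ∈ g.1.s \ A, term u τ c g a := by
    have h7 : glue u τ c g = ∑ a ∈ A ∪ g.1.s, term u τ c g a := by
      unfold glue
      apply Finset.sum_subset Finset.subset_union_right
      intro a _ ha
      unfold term
      rw [g.1.supp a ha]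
      simp
    rw [h7, ← Finset.union_sdiff_self_eq_union, Finset.sum_union Finset.disjoint_sdiff]
  have hout : ‖∑ a ∈ g.1.s \ A, term u τ c g a‖ ≤ ε / 2 := by
    refine (norm_sum_term_le hc.le hM.le hu hτ g _).trans ?_
    have h8 : ∑ a ∈ g.1.s \ A, g.1.w a ≤ δ := by
      have h9 := g.1.sum_le' (A ∪ g.1.s)
      rw [← Finset.union_sdiff_self_eq_union, Finset.sum_union Finset.disjoint_sdiff] at h9
      linarith
    calc (1 + c) * M * ∑ a ∈ g.1.s \ A, g.1.w a ≤ K * δ := mul_le_mul_of_nonneg_left h8 hKpos.le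
      _ = ε / 2 := by rw [hδ]; field_simp
  have hin : ‖∑ a ∈ A, term u τ c g a - ∑ a ∈ A, ζ a‖ ≤ ε / 2 := by
    rw [← Finset.sum_sub_distrib]
    refine (norm_sum_le _ _).trans ?_
    have h10 : ∀ a ∈ A, ‖term u τ c g a - ζ a‖ ≤ ε / (2 * (A.card + 1)) := by
      intro a ha
      apply hζ a ha g
      have := min_le_right η₁ η₂
      have := hη₂ a ha
      linarith
    refine (Finset.sum_le_sum h10).trans ?_
    rw [Finset.sum_const, nsmul_eq_mul]
    have h11 : (A.card : ℝ) * (ε / (2 * (A.card + 1))) ≤ ((A.card : ℝ) + 1) * (ε / (2 * (A.card + 1)))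
        := mul_le_mul_of_nonneg_right (by linarith) (by positivity)
    refine h11.trans (le_of_eq ?_)
    field_simp
  rw [hdec]
  have e : ∑ a ∈ A, term u τ c g a + ∑ a ∈ g.1.s \ A, term u τ c g a - ∑ a ∈ A, ζ a =
      (∑ a ∈ A, term u τ c g a - ∑ a ∈ A, ζ a) + ∑ a ∈ g.1.s \ A, term u τ c g a := by abel
  rw [e]
  have := norm_add_le (∑ a ∈ A, term u τ c g a - ∑ a ∈ A, ζ a) (∑ a ∈ g.1.s \ A, term u τ c g a)
  linarith

end Pool.Agent.Lib.Pa1e890
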