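import Pool.Agent.Lib.Pa1e890.Main

/-!
# The interval `[0, ω₁]` satisfies the hypotheses of `density`
-/

set_option autoImplicit false
open Filter Topology Set BoundedContinuousFunction

namespace Pool.Agent.Lib.Pa1e890

abbrev W1 : Type 1 := Set.Iic (Cardinal.aleph.{0} 1).ord

lemma lt_top_iff' (b : W1) : b < ⊤ ↔ (b : Ordinal.{0}) < (Cardinal.aleph.{0} 1).ord := Iff.rfl

lemma countable_Iic_of_lt (o : Ordinal.{0}) (ho : o < (Cardinal.aleph.{0} 1).ord) :
    (Set.Iic o).Countable := by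
  have hlim := Cardinal.isSuccLimit_ord (Cardinal.aleph0_le_aleph 1)
  have ho' : Order.succ o < (Cardinal.aleph.{0} 1).ord := hlim.succ_lt ho
  have h1 : (Order.succ o).card < Cardinal.aleph 1 := Cardinal.lt_ord.1 ho'
  have h2 : (Order.succ o).card ≤ Cardinal.aleph0 := by
    rw [← Order.lt_succ_iff, Cardinal.succ_aleph0]
    exact h1
  have h3 : Set.Iic o = Set.Iio (Order.succ o) := by
    ext x; simp
  rw [h3, ← Cardinal.le_aleph0_iff_set_countable, Cardinal.mk_Iio_ordinal]
  rw [Cardinal.lift_le_aleph0]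
  exact h2

instance : OrderTopology W1 := inferInstance

lemma cof_aux (s : Set W1) (hs : s.Countable) (hlt : ∀ a ∈ s, a < ⊤) :
    ∃ b : W1, b < ⊤ ∧ ∀ a ∈ s, a ≤ b := by
  have : Countable s := hs
  have hkey : ∀ w : Ordinal.{0}, w = (Cardinal.aleph.{0} 1).ord →
      (⨆ a : s, ((a : W1) : Ordinal.{0})) < w := by
    intro w hw
    rw [Cardinal.ord_aleph] at hw
    rw [hw]
    refine Ordinal.iSup_lt_omega_one ?_
    intro a
    have h := (lt_top_iff' _).1 (hlt a a.2)
    exact h.trans_eq (Cardinal.ord_aleph 1)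
  have hsup := hkey _ rfl
  refine ⟨⟨⨆ a : s, ((a : W1) : Ordinal.{0}), hsup.le⟩, (lt_top_iff' _).2 hsup, ?_⟩
  intro a ha
  have hbdd : BddAbove (Set.range (fun a : s => ((a : W1) : Ordinal.{0}))) :=
    ⟨(Cardinal.aleph.{0} 1).ord, by rintro _ ⟨x, rfl⟩; exact x.1.2⟩
  exact le_ciSup hbdd ⟨a, ha⟩

instance : OmegaLike W1 where
  wf := inferInstance
  count := by
    intro b hb
    have hb' := (lt_top_iff' b).1 hb
    have h := countable_Iic_of_lt _ hb'
    have : (Set.Iic b) = (fun x : W1 => (x : Ordinal.{0})) ⁻¹' (Set.Iic (b : Ordinal.{0})) := by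
      ext x; simp
    rw [this]
    exact h.preimage_of_injOn (Subtype.val_injective.injOn)
  cof := cof_aux
  lim := by
    intro b hb
    have hb' := (lt_top_iff' b).1 hb
    have hlim := Cardinal.isSuccLimit_ord (Cardinal.aleph0_le_aleph 1)
    have ho' : Order.succ (b : Ordinal.{0}) < (Cardinal.aleph.{0} 1).ord := hlim.succ_lt hb'
    refine ⟨⟨Order.succ (b : Ordinal.{0}), ho'.le⟩, (lt_top_iff' _).2 ho', ?_⟩
    exact Order.lt_succ (b : Ordinal.{0})

end Pool.Agent.Lib.Pa1e890
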