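import Pool.Agent.Lib.Pa1e890.Dual

/-!
# Assembly of the smooth norm
-/

set_option autoImplicit false
set_option linter.unusedSectionVars false
open Filter Topology Set BoundedContinuousFunction

namespace Pool.Agent.Lib.Pa1e890

section general
variable {X : Type*} [NormedAddCommGroup X] [NormedSpace ℝ X] {I : Type*}

lemma Tf_neg {Y : Set X} (hY0 : (0 : X) ∈ Y) (hY1 : ∀ y ∈ Y, ‖y‖ ≤ 1) (hY : ∀ y ∈ Y, -y ∈ Y)
    (μ : X →L[ℝ] ℝ) : Tf Y (-μ) = Tf Y μ := by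
  apply le_antisymm
  · apply Tf_le hY0
    intro y hy
    have h1 := le_Tf hY1 μ (hY y hy)
    rw [map_neg] at h1
    exact h1
  · apply Tf_le hY0
    intro y hy
    have h1 := le_Tf hY1 (-μ) (hY y hy)
    have h2 : (-μ) (-y) = μ y := by
      change -(μ (-y)) = μ y
      rw [map_neg, neg_neg]
    rwa [h2] at h1

lemma supF_add_le [Nonempty I] {v : I → X →L[ℝ] ℝ} {M : ℝ} (hM : ∀ i, ‖v i‖ ≤ M) (x y : X) :
    supF v (x + y) ≤ supF v x + supF v y := by
  apply supF_le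
  intro i
  rw [map_add]
  exact add_le_add (le_supF hM x i) (le_supF hM y i)

lemma supF_neg [Nonempty I] {v : I → X →L[ℝ] ℝ} {M : ℝ} (hM : ∀ i, ‖v i‖ ≤ M)
    (hs : ∀ i, ∃ j, v j = -v i) (x : X) : supF v (-x) = supF v x := by
  have key : ∀ x : X, supF v (-x) ≤ supF v x := by
    intro x
    apply supF_le
    intro i
    obtain ⟨j, hj⟩ := hs i
    have := le_supF hM x j
    rw [hj] at this
    rw [map_neg]
    exact this
  apply le_antisymm (key x)
  have := key (-x)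
  rwa [neg_neg] at this

lemma supF_smul [Nonempty I] {v : I → X →L[ℝ] ℝ} {M : ℝ} (hM : ∀ i, ‖v i‖ ≤ M)
    (hs : ∀ i, ∃ j, v j = -v i) (t : ℝ) (x : X) : supF v (t • x) = ‖t‖ * supF v x := by
  have key : ∀ t : ℝ, 0 ≤ t → supF v (t • x) = t * supF v x := by
    intro t ht
    unfold supF
    rw [Real.mul_iSup_of_nonneg ht]
    congr 1
    ext i
    rw [map_smul, smul_eq_mul]
  rw [Real.norm_eq_abs]
  rcases le_total 0 t with h | h
  · rw [abs_of_nonneg h, key t h]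
  · rw [abs_of_nonpos h]
    have h1 : t • x = -((-t) • x) := by rw [neg_smul, neg_neg]
    rw [h1, supF_neg hM hs, key (-t) (by linarith)]

end general

variable {Ω : Type*} [LinearOrder Ω] [OrderTop Ω] [hΩ : OmegaLike Ω]
variable [TopologicalSpace Ω] [OrderTopology Ω]

/-- Standing assumptions on the norm. -/
structure Std (Ω : Type*) [TopologicalSpace Ω] where
  p : Seminorm ℝ (XX Ω)
  κ : ℝ
  c₁ : ℝ
  C₁ : ℝ
  hκ : 0 < κ
  hc₁ : 0 < c₁
  hC₁ : 0 < C₁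
  hlow : ∀ x, c₁ * ‖x‖ ≤ p x
  hup : ∀ x, p x ≤ C₁ * ‖x‖
  hκC : κ * C₁ ≤ 1 / 2

variable (A : Std Ω)

/-- The set of functionals attached to `b`. -/
def Eb (b : Ω) : Set (XX Ω →L[ℝ] ℝ) := {μ | μ ∈ EE A.p A.κ ∧ ∀ x, μ (SS b x) = μ x}

lemma exists_e (b : Ω) (hb : b < ⊤) : ∃ e : ℕ → XX Ω, (∀ m, ‖e m‖ ≤ 1) ∧
    ∀ y : XX Ω, ‖y‖ ≤ 1 → ∀ ε > 0, ∃ m, ‖SS b y - SS b (e m)‖ ≤ ε := by
  obtain ⟨D, hDB, hDc, hD⟩ := exists_dense b hb {y : XX Ω | ‖y‖ ≤ 1}
  have hne : D.Nonempty := by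
    obtain ⟨y, hy, -⟩ := hD 0 (by simp) 1 one_pos
    exact ⟨y, hy⟩
  obtain ⟨e, he⟩ := hDc.exists_eq_range hne
  refine ⟨e, fun m => hDB (by rw [he]; exact ⟨m, rfl⟩), fun y hy ε hε => ?_⟩
  obtain ⟨z, hz, hz2⟩ := hD y hy ε hε
  rw [he] at hz
  obtain ⟨m, rfl⟩ := hz
  exact ⟨m, hz2⟩

lemma exists_k (b : Ω) (hb : b < ⊤) : ∃ k : ℕ → Ω, ∀ a, a ≤ b → ∃ i, k i = a := by
  obtain ⟨k, hk⟩ := (hΩ.count b hb).exists_eq_range ⟨b, le_refl b⟩
  refine ⟨k, fun a ha => ?_⟩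
  have : a ∈ Set.range k := by rw [← hk]; exact ha
  exact this

open scoped Classical in
/-- The piece attached to `b`. -/
noncomputable def mkPiece (b : Ω) (hb : b < ⊤) : Piece (XX Ω) where
  E := Eb A b
  C := A.C₁
  e := Classical.choose (exists_e b hb)
  Y := fun m => YF ((Finset.range m).image (Classical.choose (exists_k b hb)))
  hC := A.hC₁
  ne := ⟨0, zero_mem_EE, fun _ => rfl⟩
  mid := fun μ hμ ν hν => ⟨EE_mid hμ.1 hν.1, fun x => by
    change (1 / 2 : ℝ) * (μ (SS b x) + ν (SS b x)) = (1 / 2 : ℝ) * (μ x + ν x)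
    rw [hμ.2, hν.2]⟩
  bound := fun μ hμ => EE_norm A.hc₁ A.hlow A.hC₁ A.hup hμ.1
  closed := by
    intro μ h
    refine ⟨EE_closed fun x y ε hε => ?_, fun x => ?_⟩
    · obtain ⟨ν, hν, h1⟩ := h x y ε hε
      exact ⟨ν, hν.1, h1⟩
    · have h1 : |μ (SS b x) - μ x| ≤ 0 := by
        refine le_of_forall_pos_le_add fun ε hε => ?_
        obtain ⟨ν, hν, h2, h3⟩ := h (SS b x) x (ε / 2) (by linarith)
        rw [hν.2] at h2
        have e : μ (SS b x) - μ x = (ν x - μ x) - (ν x - μ (SS b x)) := by ring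
        rw [e]
        have := abs_sub (ν x - μ x) (ν x - μ (SS b x))
        linarith
      linarith [abs_nonpos_iff.1 h1]
  he := (Classical.choose_spec (exists_e b hb)).1
  dense := by
    intro y ε hε
    have hC := A.hC₁
    rcases eq_or_ne y 0 with rfl | hy
    · exact ⟨0, 0, fun ν _ => by simp [hε.le]⟩
    have hpos : 0 < ‖y‖ := norm_pos_iff.2 hy
    obtain ⟨m, hm⟩ := (Classical.choose_spec (exists_e b hb)).2 (‖y‖⁻¹ • y) (by
      rw [norm_smul, norm_inv, norm_norm, inv_mul_cancel₀ hpos.ne']) (ε / (A.C₁ * ‖y‖))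
      (by positivity)
    refine ⟨m, ‖y‖, fun ν hν => ?_⟩
    set e := Classical.choose (exists_e b hb)
    have h1 := ν.le_opNorm (SS b (‖y‖⁻¹ • y) - SS b (e m))
    rw [Real.norm_eq_abs, map_sub, hν.2, hν.2, map_smul, smul_eq_mul] at h1
    have h2 : ‖ν‖ * ‖SS b (‖y‖⁻¹ • y) - SS b (e m)‖ ≤ A.C₁ * (ε / (A.C₁ * ‖y‖)) :=
      mul_le_mul (EE_norm A.hc₁ A.hlow A.hC₁ A.hup hν.1) hm (norm_nonneg _) hC.le
    have h3 : ν y - ‖y‖ * ν (e m) = ‖y‖ * (‖y‖⁻¹ * ν y - ν (e m)) := by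
      field_simp
    rw [h3, abs_mul, abs_norm]
    calc ‖y‖ * |‖y‖⁻¹ * ν y - ν (e m)| ≤ ‖y‖ * (A.C₁ * (ε / (A.C₁ * ‖y‖))) :=
          mul_le_mul_of_nonneg_left (h1.trans h2) hpos.le
      _ = ε := by field_simp
  hY0 := fun m => zero_mem_YF _
  hY1 := fun m => YF_norm _
  tail := by
    intro μ hμ ε hε
    obtain ⟨F, hF⟩ := finite_support μ hε
    set k := Classical.choose (exists_k b hb) with hk
    have hks : ∀ a, a ≤ b → ∃ i, k i = a := Classical.choose_spec (exists_k b hb)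
    have hidx : ∀ a : Ω, ∃ i : ℕ, a ≤ b → k i = a := by
      intro a
      by_cases ha : a ≤ b
      · obtain ⟨i, hi⟩ := hks a ha
        exact ⟨i, fun _ => hi⟩
      · exact ⟨0, fun h => absurd h ha⟩
    choose i hi using hidx
    refine ⟨F.sup i + 1, ?_⟩
    apply Tf_le (zero_mem_YF _)
    intro y hy
    rw [← hμ.2]
    refine (le_abs_self _).trans (hF _ ((norm_SS_le b y).trans hy.1) fun a ha => ?_)
    rcases le_or_gt a b with h | h
    · rw [SS_apply_le _ h]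
      apply hy.2
      apply Finset.mem_insert_of_mem
      rw [Finset.mem_image]
      refine ⟨i a, Finset.mem_range.2 ?_, hi a h⟩
      exact Nat.lt_succ_of_le (Finset.le_sup (f := i) ha)
    · rw [SS_apply_gt _ h]
      exact hy.2 ⊤ (Finset.mem_insert_self _ _)
  kadec := fun m => ⟨_, fun μ _ ν _ => kadec_YF _ μ ν⟩

lemma mkPiece_ph_neg (b : Ω) (hb : b < ⊤) (μ : XX Ω →L[ℝ] ℝ) :
    (mkPiece A b hb).ph (-μ) = (mkPiece A b hb).ph μ := by
  have h : ∀ m, (mkPiece A b hb).ps m (-μ) = (mkPiece A b hb).ps m μ := by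
    intro m
    unfold Piece.ps
    rw [Tf_neg ((mkPiece A b hb).hY0 m) ((mkPiece A b hb).hY1 m)]
    · congr 1
      change (-(μ _)) ^ 2 = _
      ring
    · intro y hy
      refine ⟨by rw [norm_neg]; exact hy.1, fun k hk => ?_⟩
      rw [BoundedContinuousFunction.neg_apply, hy.2 k hk, neg_zero]
  unfold Piece.ph Piece.Ps
  simp only [h]

/-- A choice of good elements. -/
lemma exists_b (p : Seminorm ℝ (XX Ω)) (a : Ω) : ∃ b, Good p b ∧ (a < ⊤ → a < b) := by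
  by_cases ha : a < ⊤
  · obtain ⟨b, hb, hab⟩ := exists_good p a ha
    exact ⟨b, hb, fun _ => hab⟩
  · obtain ⟨c, hc, -⟩ := hΩ.cof ∅ Set.countable_empty (fun a ha => absurd ha (Set.notMem_empty a))
    obtain ⟨b, hb, -⟩ := exists_good p c hc
    exact ⟨b, hb, fun h => absurd h ha⟩

/-- The function `b`. -/
noncomputable def bb (a : Ω) : Ω := Classical.choose (exists_b A.p a)

lemma bb_good (a : Ω) : Good A.p (bb A a) := (Classical.choose_spec (exists_b A.p a)).1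

lemma lt_bb {a : Ω} (ha : a < ⊤) : a < bb A a := (Classical.choose_spec (exists_b A.p a)).2 ha

/-- The pieces. -/
noncomputable def PP (a : Ω) : Piece (XX Ω) := mkPiece A (bb A a) (bb_good A a).1

/-- The index types. -/
abbrev II (a : Ω) : Type _ := (PP A a).E × Bool

/-- The families. -/
noncomputable def uu (c' : ℝ) (a : Ω) (i : II A a) : XX Ω →L[ℝ] ℝ := (PP A a).fam (tau a) c' i

/-- The norm. -/
noncomputable def VV (c c' : ℝ) (z : XX Ω) : ℝ := supF (glue (uu A c') tau c) z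

lemma norm_uu {c' : ℝ} (hc' : 0 ≤ c') (a : Ω) (i : II A a) : ‖uu A c' a i‖ ≤ A.C₁ + c' * 2 + 2 := by
  have := (PP A a).norm_fam_le hc' (norm_tau_le a) i
  have e : (PP A a).C = A.C₁ := rfl
  rw [e] at this
  change ‖(PP A a).fam (tau a) c' i‖ ≤ _
  linarith

lemma norm_tau' {c' : ℝ} (hc' : 0 ≤ c') (a : Ω) : ‖tau a‖ ≤ A.C₁ + c' * 2 + 2 := by
  have := norm_tau_le a
  have := A.hC₁
  nlinarith

lemma supF_uu_le {c' : ℝ} (hc' : 0 ≤ c') (a : Ω) (z : XX Ω) :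
    supF (uu A c' a) z ≤ FF A.p A.κ z + c' * |tau a z| := by
  have h1 := (PP A a).supF_fam_le (τ := tau a) hc' z
  refine h1.trans ?_
  have : Nonempty (PP A a).E := (PP A a).ne.to_subtype
  apply ciSup_le
  intro μ
  unfold Piece.J
  have h2 := le_FF (κ := A.κ) A.hc₁ A.hlow μ.2.1 z
  have h3 := mul_le_mul_of_nonneg_left ((PP A a).ph_le_one μ.1)
    (show 0 ≤ c' * |tau a z| by positivity)
  linarith

/-- The key covering property. -/
lemma covering {c' : ℝ} (hc' : 0 ≤ c') {z : XX Ω} (hz : z ≠ 0) :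
    ∃ a : Ω, FF A.p A.κ z ≤ supF (uu A c' a) z ∧ tau a z ≠ 0 := by
  have hF := FF_pos A.hκ.le A.hc₁ A.hlow A.hC₁ A.hup hz
  set δ : ℝ := A.κ * FF A.p A.κ z / 12 with hδ
  have hκ := A.hκ
  have hδpos : 0 < δ := by positivity
  obtain ⟨c, hc, hc2⟩ := eventually_const z
  let G : Set Ω := {b | ∀ a, b < a → |z a - z ⊤| ≤ δ}
  have hcG : c ∈ G := by
    intro a ha
    rw [hc2 a ha.le, sub_self, abs_zero]
    exact hδpos.le
  have hne : ∃ b, b ∈ G := ⟨c, hcG⟩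
  set bz := (wellFounded_lt (α := Ω)).min G hne with hbz
  have hbzG : bz ∈ G := (wellFounded_lt (α := Ω)).min_mem G hne
  have hmin : ∀ b, b < bz → b ∉ G := fun b hb hbG =>
    (wellFounded_lt (α := Ω)).not_lt_min G hbG hb
  -- reduction
  have hred : ∀ a : Ω, bz < bb A a → FF A.p A.κ z ≤ supF (uu A c' a) z := by
    intro a ha
    refine le_of_forall_lt fun θ hθ => ?_
    obtain ⟨μ, hμ, hμ2, hμ3⟩ := localise A.hκ A.hc₁ A.hlow A.hC₁ A.hup A.hκC (bb_good A a) hz ha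
      hbzG hθ
    refine lt_of_lt_of_le hμ3 ?_
    exact (PP A a).le_supF_fam' hc' (norm_tau_le a) z (show μ ∈ (PP A a).E from ⟨hμ, hμ2⟩)
  by_cases hex : ∃ a, bz ≤ a ∧ a < ⊤ ∧ z (sc a) ≠ z a
  · obtain ⟨a, ha1, ha2, ha3⟩ := hex
    refine ⟨a, hred a (lt_of_le_of_lt ha1 (lt_bb A ha2)), ?_⟩
    rw [tau_lt ha2]
    exact sub_ne_zero.2 (Ne.symm ha3)
  · push Not at hex
    have hconst := const_of_sc z bz hex
    have htop : z ⊤ = z bz := hconst ⊤ le_top
    have hnl : ∀ l, bz ≤ l := by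
      intro l
      by_contra hcon
      push Not at hcon
      obtain ⟨d, hd, hd2⟩ := left_cont z (l := bz) ⟨l, hcon⟩ hδpos
      apply hmin d hd
      intro a ha
      rcases le_or_gt a bz with h | h
      · rw [htop]; exact (hd2 a ha h).le
      · exact hbzG a h
    obtain ⟨l, hl⟩ := (bb_good A ⊤).2.1
    refine ⟨⊤, hred ⊤ (lt_of_le_of_lt (hnl l) hl), ?_⟩
    rw [tau_top]
    intro h0
    apply hz
    ext a
    rw [hconst a (hnl a), ← htop, h0]
    rfl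

theorem VV_contDiffOn {c c' : ℝ} (hc : 0 < c) (hc' : 0 < c') :
    ContDiffOn ℝ 1 (VV A c c') {z | z ≠ 0} := by
  have hM : 0 < A.C₁ + c' * 2 + 2 := by have := A.hC₁; positivity
  have hne : ∀ a, Nonempty (II A a) := fun a => inferInstance
  have hgn : Nonempty (GI Ω (II A)) := ⟨(Wt.zero Ω, fun a => Classical.arbitrary (II A a),
    fun _ => true)⟩
  exact contDiffOn_supF (norm_glue_le hc.le hM.le (norm_uu A hc'.le) (norm_tau' A hc'.le))
    (fun z hz => exposes_glue hc hc'.le hM (norm_uu A hc'.le) (norm_tau' A hc'.le)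
      (FF_nonneg A.hc₁ A.hlow z) (fun a => supF_uu_le A hc'.le a z) (covering A hc'.le hz)
      (fun γ hγ => tau_finite z hγ)
      (fun a ha => (PP A a).exposes_fam hc' (norm_tau_le a) two_pos ha))

/-- Point mass. -/
noncomputable def Wt.single {L : Type*} [DecidableEq L] (a : L) : Wt L where
  s := {a}
  w := fun b => if b = a then 1 else 0
  nonneg := fun b => by split_ifs <;> norm_num
  supp := fun b hb => by rw [Finset.mem_singleton] at hb; simp [hb]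
  sum_le := by simp

lemma FF_le_VV {c c' : ℝ} (hc : 0 < c) (hc' : 0 < c') (z : XX Ω) : FF A.p A.κ z ≤ VV A c c' z := by
  classical
  have hM : 0 < A.C₁ + c' * 2 + 2 := by have := A.hC₁; positivity
  have hne : ∀ a, Nonempty (II A a) := fun a => inferInstance
  have hgn : Nonempty (GI Ω (II A)) := ⟨(Wt.zero Ω, fun a => Classical.arbitrary (II A a),
    fun _ => true)⟩
  rcases eq_or_ne z 0 with rfl | hz
  · have h1 := FF_le (κ := A.κ) A.hc₁ A.hlow (0 : XX Ω)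
    rw [map_zero] at h1
    have h2 := le_supF (norm_glue_le hc.le hM.le (norm_uu A hc'.le) (norm_tau' A hc'.le))
      (0 : XX Ω) (Classical.arbitrary (GI Ω (II A)))
    rw [map_zero] at h2
    exact h1.trans h2
  · obtain ⟨a, ha, -⟩ := covering A hc'.le hz
    have h1 := Jf_le_sup hc.le hM.le (norm_uu A hc'.le) (norm_tau' A hc'.le) (Wt.single a) z
    refine le_trans ?_ h1
    unfold Jf
    have e : (Wt.single a).s = {a} := rfl
    rw [e, Finset.sum_singleton]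
    have e2 : (Wt.single a).w a = 1 := by simp [Wt.single]
    rw [e2]
    have : 0 ≤ c * (1 - 1 ^ 2 / 2) * |tau a z| := by
      apply mul_nonneg (mul_nonneg hc.le (by norm_num)) (abs_nonneg _)
    linarith

lemma VV_le {c c' : ℝ} (hc : 0 < c) (hc' : 0 < c') (z : XX Ω) :
    VV A c c' z ≤ FF A.p A.κ z + 2 * (c + c') * ‖z‖ := by
  have hM : 0 < A.C₁ + c' * 2 + 2 := by have := A.hC₁; positivity
  have hne : ∀ a, Nonempty (II A a) := fun a => inferInstance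
  have hgn : Nonempty (GI Ω (II A)) := ⟨(Wt.zero Ω, fun a => Classical.arbitrary (II A a),
    fun _ => true)⟩
  apply supF_le
  intro g
  refine (glue_le_Jf (τ := tau) hc.le (norm_uu A hc'.le) g z).trans ?_
  unfold Jf
  have hF0 := FF_nonneg (κ := A.κ) A.hc₁ A.hlow z
  have hR : 0 ≤ FF A.p A.κ z + 2 * (c + c') * ‖z‖ := by positivity
  have h1 : ∀ a ∈ g.1.s, (g.1.w a * supF (uu A c' a) z +
      c * (g.1.w a - g.1.w a ^ 2 / 2) * |tau a z|) ≤
      g.1.w a * (FF A.p A.κ z + 2 * (c + c') * ‖z‖) := by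
    intro a _
    have h2 := supF_uu_le A hc'.le a z
    have h3 := abs_tau_le a z
    have hw0 := g.1.nonneg a
    have hw1 := g.1.le_one a
    obtain ⟨-, hp2⟩ := psi_bounds hw0 hw1
    have h4 : g.1.w a * supF (uu A c' a) z ≤ g.1.w a * (FF A.p A.κ z + c' * (2 * ‖z‖)) := by
      apply mul_le_mul_of_nonneg_left _ hw0
      have := mul_le_mul_of_nonneg_left h3 hc'.le
      linarith
    have h5 : c * (g.1.w a - g.1.w a ^ 2 / 2) * |tau a z| ≤ c * g.1.w a * (2 * ‖z‖) :=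
      mul_le_mul (mul_le_mul_of_nonneg_left hp2 hc.le) h3 (abs_nonneg _) (by positivity)
    linarith
  refine (Finset.sum_le_sum h1).trans ?_
  rw [← Finset.sum_mul]
  calc (∑ a ∈ g.1.s, g.1.w a) * (FF A.p A.κ z + 2 * (c + c') * ‖z‖) ≤
      1 * (FF A.p A.κ z + 2 * (c + c') * ‖z‖) := mul_le_mul_of_nonneg_right g.1.sum_le hR
    _ = _ := one_mul _

lemma sgn_not (b : Bool) : sgn (!b) = -sgn b := by
  cases b <;> simp [sgn]

lemma glue_symm {c c' : ℝ} (g : GI Ω (II A)) :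
    ∃ g' : GI Ω (II A), glue (uu A c') tau c g' = -glue (uu A c') tau c g := by
  have hneg : ∀ a : Ω, ∀ i : II A a, -i.1.1 ∈ (PP A a).E := by
    intro a i
    refine ⟨EE_neg i.1.2.1, fun x => ?_⟩
    change -(i.1.1 (SS (bb A a) x)) = -(i.1.1 x)
    rw [i.1.2.2]
  refine ⟨(g.1, fun a => (⟨-(g.2.1 a).1.1, hneg a _⟩, !(g.2.1 a).2), fun a => !(g.2.2 a)), ?_⟩
  unfold glue
  rw [← Finset.sum_neg_distrib]
  apply Finset.sum_congr rfl
  intro a _
  unfold term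
  have hu : uu A c' a (⟨-(g.2.1 a).1.1, hneg a _⟩, !(g.2.1 a).2) = -uu A c' a (g.2.1 a) := by
    unfold uu Piece.fam
    have hph : (PP A a).ph (-(g.2.1 a).1.1) = (PP A a).ph (g.2.1 a).1.1 :=
      mkPiece_ph_neg A _ _ _
    simp only [hph, sgn_not]
    module
  simp only [hu, sgn_not]
  module

/-- The smooth norm as a seminorm. -/
noncomputable def qq {c c' : ℝ} (hc : 0 < c) (hc' : 0 < c') : Seminorm ℝ (XX Ω) := by
  have hM : 0 < A.C₁ + c' * 2 + 2 := by have := A.hC₁; positivity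
  have hgn : Nonempty (GI Ω (II A)) := ⟨(Wt.zero Ω, fun a => Classical.arbitrary (II A a),
    fun _ => true)⟩
  exact Seminorm.of (VV A c c')
    (supF_add_le (norm_glue_le hc.le hM.le (norm_uu A hc'.le) (norm_tau' A hc'.le)))
    (supF_smul (norm_glue_le hc.le hM.le (norm_uu A hc'.le) (norm_tau' A hc'.le))
      (fun g => glue_symm A g))

lemma qq_apply {c c' : ℝ} (hc : 0 < c) (hc' : 0 < c') (z : XX Ω) :
    qq A hc hc' z = VV A c c' z := rfl

/-- Density of `C¹` norms. -/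
theorem density (p : Seminorm ℝ (XX Ω)) (hlow : ∃ c : ℝ, 0 < c ∧ ∀ x, c * ‖x‖ ≤ p x)
    (hup : ∃ C : ℝ, 0 < C ∧ ∀ x, p x ≤ C * ‖x‖) (ε : ℝ) (hε : 0 < ε) :
    ∃ q : Seminorm ℝ (XX Ω), (∃ c : ℝ, 0 < c ∧ ∀ x, c * ‖x‖ ≤ q x) ∧
      (∃ C : ℝ, 0 < C ∧ ∀ x, q x ≤ C * ‖x‖) ∧ ContDiffOn ℝ 1 (fun x => q x) {x | x ≠ 0} ∧
      ∀ x, ‖x‖ ≤ 1 → |p x - q x| < ε := by
  obtain ⟨c₁, hc₁, hlow⟩ := hlow
  obtain ⟨C₁, hC₁, hup⟩ := hup
  set κ : ℝ := min (1 / (2 * C₁)) (ε / (2 * C₁ ^ 2)) with hκ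
  have hκpos : 0 < κ := lt_min (by positivity) (by positivity)
  have hκ1 : κ * C₁ ≤ 1 / 2 := by
    have h1 : κ ≤ 1 / (2 * C₁) := min_le_left _ _
    calc κ * C₁ ≤ 1 / (2 * C₁) * C₁ := mul_le_mul_of_nonneg_right h1 hC₁.le
      _ = 1 / 2 := by field_simp
  have hκ2 : κ * C₁ ^ 2 ≤ ε / 2 := by
    have h1 : κ ≤ ε / (2 * C₁ ^ 2) := min_le_right _ _
    calc κ * C₁ ^ 2 ≤ ε / (2 * C₁ ^ 2) * C₁ ^ 2 := mul_le_mul_of_nonneg_right h1 (by positivity)
      _ = ε / 2 := by field_simp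
  let A : Std Ω := ⟨p, κ, c₁, C₁, hκpos, hc₁, hC₁, hlow, hup, hκ1⟩
  have h8 : 0 < ε / 8 := by linarith
  refine ⟨qq A h8 h8, ⟨c₁ / (1 + κ * C₁), by positivity, fun x => ?_⟩,
    ⟨C₁ + 2 * (ε / 8 + ε / 8), by positivity, fun x => ?_⟩, ?_, fun x hx => ?_⟩
  · have h1 := FF_le_VV A h8 h8 x
    have h2 := le_FF_mul hκpos.le hc₁ hlow hC₁ hup x
    have h3 := hlow x
    rw [qq_apply, div_mul_eq_mul_div, div_le_iff₀ (by positivity)]
    have h4 : (1 + κ * C₁) * FF p κ x ≤ (1 + κ * C₁) * VV A (ε / 8) (ε / 8) x :=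
      mul_le_mul_of_nonneg_left h1 (by positivity)
    linarith
  · have h1 := VV_le A h8 h8 x
    have h2 : FF A.p A.κ x ≤ p x := FF_le hc₁ hlow x
    have h3 := hup x
    rw [qq_apply]
    linarith
  · exact VV_contDiffOn A h8 h8
  · have h1 := FF_le_VV A h8 h8 x
    have h2 := VV_le A h8 h8 x
    have h3 : FF A.p A.κ x ≤ p x := FF_le hc₁ hlow x
    have h4 : p x ≤ (1 + κ * C₁) * FF A.p A.κ x := le_FF_mul hκpos.le hc₁ hlow hC₁ hup x
    have h5 := hup x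
    have h6 : p x ≤ C₁ := by
      have : C₁ * ‖x‖ ≤ C₁ * 1 := mul_le_mul_of_nonneg_left hx hC₁.le
      linarith
    have h7 : κ * C₁ * FF A.p A.κ x ≤ κ * C₁ * C₁ :=
      mul_le_mul_of_nonneg_left (h3.trans h6) (by positivity)
    have h9 : 2 * (ε / 8 + ε / 8) * ‖x‖ ≤ 2 * (ε / 8 + ε / 8) * 1 :=
      mul_le_mul_of_nonneg_left hx (by positivity)
    rw [qq_apply, abs_lt]
    have h10 : κ * C₁ * C₁ = κ * C₁ ^ 2 := by ring
    constructor <;> linarith

end Pool.Agent.Lib.Pa1e890
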