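import Mathlib

/-!
# Spaces of continuous functions on a well-ordered space with a largest element
-/

set_option autoImplicit false
set_option linter.unusedSectionVars false
open Filter Topology Set BoundedContinuousFunction

namespace Pool.Agent.Lib.Pa1e890

/-- Order-theoretic properties of the interval `[0, ω₁]`. -/
class OmegaLike (Ω : Type*) [LinearOrder Ω] [OrderTop Ω] : Prop where
  wf : WellFoundedLT Ω
  count : ∀ b : Ω, b < ⊤ → (Set.Iic b).Countable
  cof : ∀ s : Set Ω, s.Countable → (∀ a ∈ s, a < ⊤) → ∃ b, b < ⊤ ∧ ∀ a ∈ s, a ≤ b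
  lim : ∀ b : Ω, b < ⊤ → ∃ c, c < ⊤ ∧ b < c

variable {Ω : Type*} [LinearOrder Ω] [OrderTop Ω] [hΩ : OmegaLike Ω]

instance : WellFoundedLT Ω := hΩ.wf

/-- The successor. -/
noncomputable def sc (a : Ω) : Ω := by
  classical
  exact if h : ∃ b, a < b then (wellFounded_lt (α := Ω)).min {b | a < b} h else a

lemma lt_sc {a : Ω} (h : ∃ b, a < b) : a < sc a := by
  unfold sc
  rw [dif_pos h]
  exact (wellFounded_lt (α := Ω)).min_mem {b | a < b} h

lemma sc_le {a b : Ω} (h : a < b) : sc a ≤ b := by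
  have h' : ∃ b, a < b := ⟨b, h⟩
  unfold sc
  rw [dif_pos h']
  by_contra hcon
  push Not at hcon
  exact (wellFounded_lt (α := Ω)).not_lt_min {b | a < b} h hcon

lemma le_of_lt_sc {a b : Ω} (h : b < sc a) : b ≤ a := by
  by_contra hcon
  push Not at hcon
  exact absurd (sc_le hcon) (not_le.2 h)

lemma lt_sc_top {a : Ω} (h : a < ⊤) : a < sc a := lt_sc ⟨⊤, h⟩

lemma sc_lt_top {a : Ω} (h : a < ⊤) : sc a < ⊤ := by
  obtain ⟨c, hc, hac⟩ := hΩ.lim a h
  exact (sc_le hac).trans_lt hc

variable [TopologicalSpace Ω] [OrderTopology Ω]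

lemma isOpen_Iic' (b : Ω) : IsOpen (Set.Iic b) := by
  by_cases h : ∃ c, b < c
  · have : Set.Iic b = Set.Iio (sc b) := by
      ext x
      exact ⟨fun hx => lt_of_le_of_lt hx (lt_sc h), fun hx => le_of_lt_sc hx⟩
    rw [this]
    exact isOpen_Iio
  · push Not at h
    have : Set.Iic b = Set.univ := by
      ext x; simp [h x]
    rw [this]
    exact isOpen_univ

lemma isClopen_Iic' (b : Ω) : IsClopen (Set.Iic b) := ⟨isClosed_Iic, isOpen_Iic' b⟩

/-- The space. -/
abbrev XX (Ω : Type*) [TopologicalSpace Ω] : Type _ := Ω →ᵇ ℝ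

/-- Composition with a continuous self-map. -/
noncomputable def pre (n : C(Ω, Ω)) : XX Ω →L[ℝ] XX Ω :=
  LinearMap.mkContinuous
    { toFun := fun x => x.compContinuous n
      map_add' := fun _ _ => rfl
      map_smul' := fun _ _ => rfl } 1 (by
    intro x
    rw [one_mul]
    change ‖x.compContinuous n‖ ≤ ‖x‖
    rw [BoundedContinuousFunction.norm_le (norm_nonneg x)]
    intro a
    exact x.norm_coe_le_norm (n a))

lemma pre_apply (n : C(Ω, Ω)) (x : XX Ω) (a : Ω) : pre n x a = x (n a) := rfl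

lemma norm_pre_le (n : C(Ω, Ω)) (x : XX Ω) : ‖pre n x‖ ≤ ‖x‖ := by
  rw [BoundedContinuousFunction.norm_le (norm_nonneg x)]
  intro a
  exact x.norm_coe_le_norm (n a)

/-- The cutting map. -/
noncomputable def ctf (b a : Ω) : Ω := if a ≤ b then a else ⊤

lemma continuous_ctf (b : Ω) : Continuous (ctf b) := by
  unfold ctf
  refine continuous_if' ?_ ?_ ?_ ?_
  · intro a ha
    have : frontier {a : Ω | a ≤ b} = ∅ := (isClopen_Iic' b).frontier_eq
    rw [this] at ha
    exact absurd ha (Set.notMem_empty a)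
  · intro a ha
    have : frontier {a : Ω | a ≤ b} = ∅ := (isClopen_Iic' b).frontier_eq
    rw [this] at ha
    exact absurd ha (Set.notMem_empty a)
  · exact continuous_id.continuousOn
  · exact continuous_const.continuousOn

/-- The projections. -/
noncomputable def SS (b : Ω) : XX Ω →L[ℝ] XX Ω := pre ⟨ctf b, continuous_ctf b⟩

lemma SS_apply_le {a b : Ω} (x : XX Ω) (h : a ≤ b) : SS b x a = x a := by
  change x (ctf b a) = x a
  unfold ctf
  rw [if_pos h]

lemma SS_apply_gt {a b : Ω} (x : XX Ω) (h : b < a) : SS b x a = x ⊤ := by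
  change x (ctf b a) = x ⊤
  unfold ctf
  rw [if_neg (not_le.2 h)]

lemma norm_SS_le (b : Ω) (x : XX Ω) : ‖SS b x‖ ≤ ‖x‖ := norm_pre_le _ x

lemma SS_SS {a b : Ω} (h : a ≤ b) (x : XX Ω) : SS a (SS b x) = SS a x := by
  ext c
  rcases le_or_gt c a with hc | hc
  · rw [SS_apply_le _ hc, SS_apply_le _ hc, SS_apply_le _ (hc.trans h)]
  · rw [SS_apply_gt _ hc, SS_apply_gt _ hc]
    by_cases hb : b < ⊤
    · rw [SS_apply_gt _ hb]
    · rw [SS_apply_le _ (not_lt.1 hb)]

lemma SS_SS' {a b : Ω} (h : a ≤ b) (x : XX Ω) : SS b (SS a x) = SS a x := by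
  ext c
  rcases le_or_gt c b with hc | hc
  · rw [SS_apply_le _ hc]
  · rw [SS_apply_gt _ hc, SS_apply_gt _ (lt_of_le_of_lt h hc),
      SS_apply_gt _ (lt_of_lt_of_le (lt_of_le_of_lt h hc) le_top)]

/-- Indicator of an initial segment. -/
noncomputable def ind (b : Ω) : XX Ω :=
  BoundedContinuousFunction.ofNormedAddCommGroup (Set.indicator (Set.Iic b) (fun _ => (1:ℝ)))
    ((isClopen_Iic' b).continuous_indicator continuous_const) 1 (by
      intro a
      by_cases h : a ∈ Set.Iic b
      · rw [Set.indicator_of_mem h]; simp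
      · rw [Set.indicator_of_notMem h]; simp)

lemma ind_le {a b : Ω} (h : a ≤ b) : ind b a = 1 := by
  change Set.indicator (Set.Iic b) (fun _ => (1:ℝ)) a = 1
  exact Set.indicator_of_mem (s := Set.Iic b) h _

lemma ind_gt {a b : Ω} (h : b < a) : ind b a = 0 := by
  change Set.indicator (Set.Iic b) (fun _ => (1:ℝ)) a = 0
  exact Set.indicator_of_notMem (s := Set.Iic b) (not_le.2 h) _

/-- Cutting off. -/
noncomputable def lo (b : Ω) (x : XX Ω) : XX Ω := x * ind b

lemma lo_le {a b : Ω} (x : XX Ω) (h : a ≤ b) : lo b x a = x a := by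
  unfold lo
  rw [BoundedContinuousFunction.mul_apply, ind_le h, mul_one]

lemma lo_gt {a b : Ω} (x : XX Ω) (h : b < a) : lo b x a = 0 := by
  unfold lo
  rw [BoundedContinuousFunction.mul_apply, ind_gt h, mul_zero]

lemma norm_le_of_abs {x : XX Ω} {C : ℝ} (hC : 0 ≤ C) (h : ∀ a, |x a| ≤ C) : ‖x‖ ≤ C := by
  rw [BoundedContinuousFunction.norm_le hC]
  intro a
  rw [Real.norm_eq_abs]
  exact h a

lemma abs_le_norm' (x : XX Ω) (a : Ω) : |x a| ≤ ‖x‖ := by
  have := x.norm_coe_le_norm a
  rwa [Real.norm_eq_abs] at this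

/-- Continuity from the left. -/
lemma left_cont (x : XX Ω) {l : Ω} (hl : ∃ b, b < l) {ε : ℝ} (hε : 0 < ε) :
    ∃ b, b < l ∧ ∀ a, b < a → a ≤ l → |x a - x l| < ε := by
  have h1 : x ⁻¹' (Metric.ball (x l) ε) ∈ 𝓝 l :=
    x.continuous.continuousAt (Metric.ball_mem_nhds _ hε)
  obtain ⟨b, hb, hs⟩ := exists_Ioc_subset_of_mem_nhds h1 hl
  refine ⟨b, hb, fun a h2 h3 => ?_⟩
  have := hs ⟨h2, h3⟩
  rwa [Set.mem_preimage, Metric.mem_ball, Real.dist_eq] at this

/-- Small variation of a functional near `l`. -/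
lemma var_small (μ : XX Ω →L[ℝ] ℝ) {l : Ω} (hl : ∃ b, b < l) {ε : ℝ} (hε : 0 < ε) :
    ∃ b, b < l ∧ ∀ y : XX Ω, ‖y‖ ≤ 1 → (∀ a, a ≤ b → y a = 0) → (∀ a, l ≤ a → y a = 0) →
      |μ y| ≤ ε := by
  by_contra hcon
  push Not at hcon
  -- positive witnesses with controlled support
  have hstep : ∀ b, b < l → ∃ c, c < l ∧ b ≤ c ∧ ∃ y : XX Ω, ‖y‖ ≤ 1 ∧ (∀ a, a ≤ b → y a = 0) ∧
      (∀ a, c < a → y a = 0) ∧ ε / 2 ≤ μ y := by
    intro b hb
    obtain ⟨y, hy1, hy2, hy3, hy4⟩ := hcon b hb
    obtain ⟨y, hy1, hy2, hy3, hy4⟩ : ∃ y : XX Ω, ‖y‖ ≤ 1 ∧ (∀ a, a ≤ b → y a = 0) ∧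
        (∀ a, l ≤ a → y a = 0) ∧ ε < μ y := by
      rcases le_total 0 (μ y) with h | h
      · exact ⟨y, hy1, hy2, hy3, by rwa [abs_of_nonneg h] at hy4⟩
      · refine ⟨-y, by rwa [norm_neg], fun a ha => ?_, fun a ha => ?_, ?_⟩
        · rw [BoundedContinuousFunction.neg_apply, hy2 a ha, neg_zero]
        · rw [BoundedContinuousFunction.neg_apply, hy3 a ha, neg_zero]
        · rw [map_neg]; rwa [abs_of_nonpos h] at hy4
    have hk : 0 < ‖μ‖ + 1 := by positivity
    obtain ⟨c, hc, hc2⟩ := left_cont y hl (show 0 < ε / (2 * (‖μ‖ + 1)) by positivity)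
    have hyl : y l = 0 := hy3 l le_rfl
    have hmax : max b c < l := max_lt hb hc
    refine ⟨max b c, hmax, le_max_left _ _, lo (max b c) y, ?_, ?_, ?_, ?_⟩
    · apply norm_le_of_abs zero_le_one
      intro a
      rcases le_or_gt a (max b c) with h | h
      · rw [lo_le _ h]; exact (abs_le_norm' y a).trans hy1
      · rw [lo_gt _ h]; simp
    · intro a ha
      rw [lo_le _ (ha.trans (le_max_left _ _))]
      exact hy2 a ha
    · intro a ha
      exact lo_gt _ ha
    · have h1 : ‖y - lo (max b c) y‖ ≤ ε / (2 * (‖μ‖ + 1)) := by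
        apply norm_le_of_abs (by positivity)
        intro a
        rw [BoundedContinuousFunction.sub_apply]
        rcases le_or_gt a (max b c) with h | h
        · rw [lo_le _ h, sub_self, abs_zero]; positivity
        · rw [lo_gt _ h, sub_zero]
          rcases le_or_gt a l with h' | h'
          · have := hc2 a (lt_of_le_of_lt (le_max_right _ _) h) h'
            rw [hyl, sub_zero] at this
            exact this.le
          · rw [hy3 a h'.le, abs_zero]; positivity
      have h2 := μ.le_opNorm (y - lo (max b c) y)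
      rw [map_sub, Real.norm_eq_abs] at h2
      have h3 : ‖μ‖ * ‖y - lo (max b c) y‖ ≤ ε / 2 := by
        calc ‖μ‖ * ‖y - lo (max b c) y‖ ≤ (‖μ‖ + 1) * (ε / (2 * (‖μ‖ + 1))) :=
              mul_le_mul (by linarith) h1 (norm_nonneg _) hk.le
          _ = ε / 2 := by field_simp
      have h4 := (abs_le.1 (h2.trans h3)).2
      linarith
  obtain ⟨b0, hb0⟩ := hl
  have hiter : ∀ n : ℕ, ∃ c, c < l ∧ ∃ Y : XX Ω, ‖Y‖ ≤ 1 ∧ (∀ a, c < a → Y a = 0) ∧
      n * (ε / 2) ≤ μ Y := by
    intro n
    induction n with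
    | zero => exact ⟨b0, hb0, 0, by simp, fun _ _ => rfl, by simp⟩
    | succ n ih =>
      obtain ⟨c, hc, Y, hY1, hY2, hY3⟩ := ih
      obtain ⟨d, hd, hcd, y, hy1, hy2, hy3, hy4⟩ := hstep c hc
      refine ⟨d, hd, Y + y, ?_, ?_, ?_⟩
      · apply norm_le_of_abs zero_le_one
        intro a
        rw [BoundedContinuousFunction.add_apply]
        rcases le_or_gt a c with h | h
        · rw [hy2 a h, add_zero]; exact (abs_le_norm' Y a).trans hY1
        · rw [hY2 a h, zero_add]; exact (abs_le_norm' y a).trans hy1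
      · intro a ha
        rw [BoundedContinuousFunction.add_apply, hY2 a (lt_of_le_of_lt hcd ha), hy3 a ha, add_zero]
      · rw [map_add]
        push_cast
        linarith
  obtain ⟨n, hn⟩ := exists_nat_gt (‖μ‖ / (ε / 2))
  obtain ⟨c, -, Y, hY1, -, hY3⟩ := hiter n
  have h1 := μ.le_opNorm Y
  rw [Real.norm_eq_abs] at h1
  have h2 := le_abs_self (μ Y)
  have h3 : ‖μ‖ * ‖Y‖ ≤ ‖μ‖ * 1 := mul_le_mul_of_nonneg_left hY1 (norm_nonneg μ)
  rw [div_lt_iff₀ (by positivity)] at hn
  linarith

/-- Every functional is almost supported by a finite set. -/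
lemma finite_support (μ : XX Ω →L[ℝ] ℝ) {ε : ℝ} (hε : 0 < ε) :
    ∃ F : Finset Ω, ∀ y : XX Ω, ‖y‖ ≤ 1 → (∀ k ∈ F, y k = 0) → |μ y| ≤ ε := by
  classical
  have key : ∀ l : Ω, ∀ ε > 0, ∃ F : Finset Ω, ∀ y : XX Ω, ‖y‖ ≤ 1 → (∀ k ∈ F, y k = 0) →
      (∀ a, l < a → y a = 0) → |μ y| ≤ ε := by
    intro l
    induction l using WellFoundedLT.induction with
    | ind l ih =>
      intro ε hε
      by_cases hl : ∃ b, b < l
      · obtain ⟨b, hb, hb2⟩ := var_small μ hl (show 0 < ε / 2 by linarith)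
        obtain ⟨F, hF⟩ := ih b hb (ε / 2) (by linarith)
        refine ⟨insert l F, fun y hy1 hy2 hy3 => ?_⟩
        have e : y = lo b y + (y - lo b y) := by abel
        have h1 : |μ (lo b y)| ≤ ε / 2 := by
          apply hF
          · apply norm_le_of_abs zero_le_one
            intro a
            rcases le_or_gt a b with h | h
            · rw [lo_le _ h]; exact (abs_le_norm' y a).trans hy1
            · rw [lo_gt _ h]; simp
          · intro k hk
            have := hy2 k (Finset.mem_insert_of_mem hk)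
            rcases le_or_gt k b with h | h
            · rw [lo_le _ h, this]
            · rw [lo_gt _ h]
          · intro a ha
            exact lo_gt _ ha
        have h2 : |μ (y - lo b y)| ≤ ε / 2 := by
          apply hb2
          · apply norm_le_of_abs zero_le_one
            intro a
            rw [BoundedContinuousFunction.sub_apply]
            rcases le_or_gt a b with h | h
            · rw [lo_le _ h]; simp
            · rw [lo_gt _ h, sub_zero]; exact (abs_le_norm' y a).trans hy1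
          · intro a ha
            rw [BoundedContinuousFunction.sub_apply, lo_le _ ha, sub_self]
          · intro a ha
            rw [BoundedContinuousFunction.sub_apply, lo_gt _ (lt_of_lt_of_le hb ha), sub_zero]
            rcases eq_or_lt_of_le ha with h | h
            · rw [← h]; exact hy2 l (Finset.mem_insert_self l F)
            · exact hy3 a h
        have h3 : μ y = μ (lo b y) + μ (y - lo b y) := by rw [← map_add, ← e]
        rw [h3]
        have := abs_add_le (μ (lo b y)) (μ (y - lo b y))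
        linarith
      · push Not at hl
        refine ⟨{l}, fun y _ hy2 hy3 => ?_⟩
        have : y = 0 := by
          ext a
          rcases eq_or_lt_of_le (hl a) with h | h
          · rw [← h]; exact hy2 l (Finset.mem_singleton_self l)
          · exact hy3 a h
        rw [this, map_zero, abs_zero]
        exact hε.le
  obtain ⟨F, hF⟩ := key ⊤ ε hε
  exact ⟨F, fun y h1 h2 => hF y h1 h2 (fun a ha => absurd ha (not_lt.2 le_top))⟩

/-- Functions are eventually constant. -/
lemma eventually_const (x : XX Ω) : ∃ c : Ω, c < ⊤ ∧ ∀ a, c ≤ a → x a = x ⊤ := by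
  have hne : ∃ b : Ω, b < ⊤ := by
    obtain ⟨b, hb, -⟩ := hΩ.cof ∅ Set.countable_empty (fun a ha => absurd ha (Set.notMem_empty a))
    exact ⟨b, hb⟩
  choose b hb hb2 using fun n : ℕ => left_cont x (l := ⊤) hne
    (show (0:ℝ) < 1 / ((n:ℝ) + 1) by positivity)
  obtain ⟨c, hc, hc2⟩ := hΩ.cof (Set.range b) (Set.countable_range b) (by
    rintro _ ⟨n, rfl⟩; exact hb n)
  refine ⟨sc c, sc_lt_top hc, fun a ha => ?_⟩
  have h1 : ∀ n : ℕ, |x a - x ⊤| ≤ 1 / ((n:ℝ) + 1) := by
    intro n
    have h2 : b n < a := lt_of_le_of_lt (hc2 _ ⟨n, rfl⟩) (lt_of_lt_of_le (lt_sc_top hc) ha)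
    exact (hb2 n a h2 le_top).le
  have h2 : |x a - x ⊤| ≤ 0 := by
    refine le_of_forall_pos_le_add fun ε hε => ?_
    obtain ⟨n, hn⟩ := exists_nat_one_div_lt hε
    linarith [h1 n]
  linarith [abs_nonpos_iff.1 h2]

/-- Constancy criterion. -/
lemma const_of_sc (x : XX Ω) (b : Ω) (h : ∀ a, b ≤ a → a < ⊤ → x (sc a) = x a) :
    ∀ a, b ≤ a → x a = x b := by
  intro a
  induction a using WellFoundedLT.induction with
  | ind a ih =>
    intro hba
    rcases eq_or_lt_of_le hba with h0 | hlt
    · rw [h0]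
    by_contra hne
    have hpos : 0 < |x b - x a| := abs_pos.2 (sub_ne_zero.2 (Ne.symm hne))
    obtain ⟨l, hl, hl2⟩ := left_cont x (l := a) ⟨b, hlt⟩ hpos
    set m := max l b with hm
    have hma : m < a := max_lt hl hlt
    have hmt : m < ⊤ := lt_of_lt_of_le hma le_top
    have hbm : b ≤ m := le_max_right _ _
    have h1 : x m = x b := ih m hma hbm
    have h2 : x (sc m) = x m := h m hbm hmt
    rcases eq_or_lt_of_le (sc_le hma) with h3 | h3
    · rw [h3] at h2
      exact hne (h2.trans h1)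
    · have h4 := hl2 (sc m) (lt_of_le_of_lt (le_max_left _ _) (lt_sc_top hmt)) h3.le
      rw [h2, h1] at h4
      exact lt_irrefl _ h4

/-- The difference functionals. -/
noncomputable def tau (a : Ω) : XX Ω →L[ℝ] ℝ := by
  classical
  exact if a = ⊤ then BoundedContinuousFunction.evalCLM ℝ ⊤ else
    BoundedContinuousFunction.evalCLM ℝ a - BoundedContinuousFunction.evalCLM ℝ (sc a)

lemma tau_top (x : XX Ω) : tau (⊤ : Ω) x = x ⊤ := by
  unfold tau; rw [if_pos rfl]; rfl

lemma tau_lt {a : Ω} (h : a < ⊤) (x : XX Ω) : tau a x = x a - x (sc a) := by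
  unfold tau; rw [if_neg h.ne]; rfl

lemma abs_tau_le (a : Ω) (x : XX Ω) : |tau a x| ≤ 2 * ‖x‖ := by
  rcases eq_or_lt_of_le (le_top : a ≤ ⊤) with h | h
  · rw [h, tau_top]
    have := abs_le_norm' x ⊤
    have := norm_nonneg x
    linarith
  · rw [tau_lt h]
    have := abs_sub (x a) (x (sc a))
    have := abs_le_norm' x a
    have := abs_le_norm' x (sc a)
    linarith

lemma norm_tau_le (a : Ω) : ‖tau a‖ ≤ 2 := by
  apply ContinuousLinearMap.opNorm_le_bound _ (by norm_num)
  intro x
  rw [Real.norm_eq_abs]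
  exact abs_tau_le a x

/-- Only finitely many differences are large. -/
lemma tau_finite (x : XX Ω) {ε : ℝ} (hε : 0 < ε) : {a : Ω | ε ≤ |tau a x|}.Finite := by
  have key : ∀ l : Ω, {a : Ω | a < l ∧ ε ≤ |tau a x|}.Finite := by
    intro l
    induction l using WellFoundedLT.induction with
    | ind l ih =>
      by_cases hl : ∃ b, b < l
      · obtain ⟨b, hb, hb2⟩ := left_cont x hl (show 0 < ε / 2 by linarith)
        refine ((ih b hb).union (Set.finite_singleton b)).subset ?_
        rintro a ⟨ha1, ha2⟩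
        rcases lt_trichotomy a b with h | h | h
        · exact Or.inl ⟨h, ha2⟩
        · exact Or.inr h
        · exfalso
          have hat : a < ⊤ := lt_of_lt_of_le ha1 le_top
          rw [tau_lt hat] at ha2
          have h1 := hb2 a h ha1.le
          have h2 := hb2 (sc a) (h.trans (lt_sc_top hat)) (sc_le ha1)
          have h3 : x a - x (sc a) = (x a - x l) - (x (sc a) - x l) := by ring
          rw [h3] at ha2
          have := abs_sub (x a - x l) (x (sc a) - x l)
          linarith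
      · push Not at hl
        refine Set.Finite.subset Set.finite_empty ?_
        rintro a ⟨ha1, -⟩
        exact absurd ha1 (not_lt.2 (hl a))
  refine ((key ⊤).union (Set.finite_singleton ⊤)).subset ?_
  intro a ha
  rcases eq_or_lt_of_le (le_top : a ≤ ⊤) with h | h
  · exact Or.inr h
  · exact Or.inl ⟨h, ha⟩

end Pool.Agent.Lib.Pa1e890
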