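import Pool.Agent.Lib.Pa1e890.Piece
import Pool.Agent.Lib.Pa1e890.Glue2

/-!
# Near-maximisers on a separable piece converge in norm
-/

set_option autoImplicit false
open Filter Topology Set

namespace Pool.Agent.Lib.Pa1e890

/-- A Cauchy criterion along a decreasing family of nonempty sets. -/
lemma lim_of_cauchy {α : Type*} (N : ℝ → Set α) (hN : ∀ η > 0, (N η).Nonempty)
    (hmono : ∀ η η' : ℝ, η ≤ η' → N η ⊆ N η') (h : α → ℝ)
    (hc : ∀ ε > 0, ∃ η > 0, ∀ a ∈ N η, ∀ b ∈ N η, |h a - h b| ≤ ε) :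
    ∃ l : ℝ, ∀ ε > 0, ∃ η > 0, ∀ a ∈ N η, |h a - l| ≤ ε := by
  have hpos : ∀ n : ℕ, (0:ℝ) < 1 / ((n:ℝ) + 1) := fun n => by positivity
  choose a ha using fun n : ℕ => hN _ (hpos n)
  have hev : ∀ η > 0, ∃ K : ℕ, ∀ n ≥ K, a n ∈ N η := by
    intro η hη
    obtain ⟨K, hK⟩ := exists_nat_one_div_lt hη
    refine ⟨K, fun n hn => hmono _ _ ?_ (ha n)⟩
    refine le_trans ?_ hK.le
    apply one_div_le_one_div_of_le (by positivity)
    have : (K:ℝ) ≤ n := by exact_mod_cast hn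
    linarith
  have hcs : CauchySeq (fun n => h (a n)) := by
    rw [Metric.cauchySeq_iff]
    intro ε hε
    obtain ⟨η, hη, hη2⟩ := hc (ε / 2) (by linarith)
    obtain ⟨K, hK⟩ := hev η hη
    refine ⟨K, fun m hm n hn => ?_⟩
    rw [Real.dist_eq]
    exact (hη2 _ (hK m hm) _ (hK n hn)).trans_lt (by linarith)
  obtain ⟨l, hl⟩ := cauchySeq_tendsto_of_complete hcs
  refine ⟨l, fun ε hε => ?_⟩
  obtain ⟨η, hη, hη2⟩ := hc ε hε
  refine ⟨η, hη, fun b hb => ?_⟩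
  have h1 : Tendsto (fun n => |h b - h (a n)|) atTop (𝓝 |h b - l|) := (hl.const_sub _).abs
  refine le_of_tendsto h1 ?_
  obtain ⟨K, hK⟩ := hev η hη
  filter_upwards [eventually_ge_atTop K] with n hn
  exact hη2 _ hb _ (hK n hn)

variable {X : Type*} [NormedAddCommGroup X] [NormedSpace ℝ X]

namespace Piece

variable (P : Piece X)

/-- The objective. -/
noncomputable def J (z : X) (γ : ℝ) (μ : X →L[ℝ] ℝ) : ℝ := μ z + γ * P.ph μ

/-- The supremum of the objective. -/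
noncomputable def S (z : X) (γ : ℝ) : ℝ := ⨆ μ : P.E, P.J z γ μ.1

lemma abs_apply_le {μ : X →L[ℝ] ℝ} (hμ : μ ∈ P.E) (y : X) : |μ y| ≤ P.C * ‖y‖ := by
  have h1 := μ.le_opNorm y
  have h2 := mul_le_mul_of_nonneg_right (P.bound μ hμ) (norm_nonneg y)
  rw [Real.norm_eq_abs] at h1
  linarith

lemma J_bdd (z : X) {γ : ℝ} (hγ : 0 ≤ γ) : BddAbove (Set.range fun μ : P.E => P.J z γ μ.1) := by
  refine ⟨P.C * ‖z‖ + γ, ?_⟩
  rintro _ ⟨μ, rfl⟩
  have h1 := (abs_le.1 (P.abs_apply_le μ.2 z)).2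
  have h2 := mul_le_mul_of_nonneg_left (P.ph_le_one μ.1) hγ
  change P.J z γ μ.1 ≤ _
  unfold J
  linarith

lemma J_le (z : X) {γ : ℝ} (hγ : 0 ≤ γ) {μ : X →L[ℝ] ℝ} (hμ : μ ∈ P.E) : P.J z γ μ ≤ P.S z γ :=
  le_ciSup (P.J_bdd z hγ) ⟨μ, hμ⟩

/-- Near-maximisers. -/
def N (z : X) (γ η : ℝ) : Set (X →L[ℝ] ℝ) := {μ | μ ∈ P.E ∧ P.S z γ - η < P.J z γ μ}

lemma N_nonempty (z : X) (γ : ℝ) {η : ℝ} (hη : 0 < η) : (P.N z γ η).Nonempty := by
  have : Nonempty P.E := P.ne.to_subtype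
  obtain ⟨μ, hμ⟩ := exists_lt_of_lt_ciSup (f := fun μ : P.E => P.J z γ μ.1)
    (show P.S z γ - η < ⨆ μ : P.E, P.J z γ μ.1 by unfold S; linarith)
  exact ⟨μ.1, μ.2, hμ⟩

lemma N_mono (z : X) (γ : ℝ) (η η' : ℝ) (h : η ≤ η') : P.N z γ η ⊆ P.N z γ η' := by
  intro μ hμ
  exact ⟨hμ.1, by have := hμ.2; linarith⟩

lemma cauchy_e (z : X) {γ : ℝ} (hγ : 0 < γ) (m : ℕ) : ∀ ε > 0, ∃ η > 0, ∀ μ ∈ P.N z γ η,
    ∀ ν ∈ P.N z γ η, |μ (P.e m) - ν (P.e m)| ≤ ε := by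
  intro ε hε
  have hB := P.B_pos
  set κ : ℝ := γ / (2 * P.B) * ((1 / 2) ^ (m + 1) * (1 / 4)) with hκ
  have hκpos : 0 < κ := by positivity
  refine ⟨κ * ε ^ 2, by positivity, fun μ hμ ν hν => ?_⟩
  have h1 := P.Ps_mid hμ.1 hν.1 m
  have h2 := P.J_le z hγ.le (P.mid μ hμ.1 ν hν.1)
  have h3 := hμ.2
  have h4 := hν.2
  have e1 : ((1 / 2 : ℝ) • (μ + ν)) z = (1 / 2) * (μ z + ν z) := rfl
  have h5 : P.J z γ μ / 2 + P.J z γ ν / 2 + κ * (μ (P.e m) - ν (P.e m)) ^ 2 ≤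
      P.J z γ ((1 / 2 : ℝ) • (μ + ν)) := by
    unfold J ph
    rw [e1]
    have h6 : γ / (2 * P.B) * (P.Ps ((1 / 2 : ℝ) • (μ + ν)) +
        (1 / 2) ^ (m + 1) * ((μ (P.e m) - ν (P.e m)) ^ 2 / 4)) ≤
        γ / (2 * P.B) * ((P.Ps μ + P.Ps ν) / 2) :=
      mul_le_mul_of_nonneg_left h1 (by positivity)
    have e2 : κ * (μ (P.e m) - ν (P.e m)) ^ 2 =
      γ / (2 * P.B) * ((1 / 2) ^ (m + 1) * ((μ (P.e m) - ν (P.e m)) ^ 2 / 4)) := by rw [hκ]; ring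
    rw [e2]
    have e3 : ∀ x : ℝ, γ * (1 - x / (2 * P.B)) = γ - γ / (2 * P.B) * x := fun x => by ring
    rw [e3, e3, e3]
    linarith
  have h7 : κ * (μ (P.e m) - ν (P.e m)) ^ 2 ≤ κ * ε ^ 2 := by linarith
  exact abs_le_of_sq_le_sq (le_of_mul_le_mul_left h7 hκpos) hε.le

lemma cauchy_y (z : X) {γ : ℝ} (hγ : 0 < γ) (y : X) : ∀ ε > 0, ∃ η > 0, ∀ μ ∈ P.N z γ η,
    ∀ ν ∈ P.N z γ η, |μ y - ν y| ≤ ε := by
  intro ε hε
  obtain ⟨m, r, hr⟩ := P.dense y (ε / 3) (by linarith)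
  obtain ⟨η, hη, h⟩ := P.cauchy_e z hγ m (ε / (3 * (|r| + 1))) (by positivity)
  refine ⟨η, hη, fun μ hμ ν hν => ?_⟩
  have h1 := h μ hμ ν hν
  have h2 := hr μ hμ.1
  have h3 := hr ν hν.1
  have e : μ y - ν y = (μ y - r * μ (P.e m)) - (ν y - r * ν (P.e m)) +
    r * (μ (P.e m) - ν (P.e m)) := by ring
  rw [e]
  have h4 : |r * (μ (P.e m) - ν (P.e m))| ≤ ε / 3 := by
    rw [abs_mul]
    calc |r| * |μ (P.e m) - ν (P.e m)| ≤ (|r| + 1) * (ε / (3 * (|r| + 1))) :=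
          mul_le_mul (by linarith) h1 (abs_nonneg _) (by positivity)
      _ = ε / 3 := by field_simp
  have h5 := abs_add_le ((μ y - r * μ (P.e m)) - (ν y - r * ν (P.e m)))
    (r * (μ (P.e m) - ν (P.e m)))
  have h6 := abs_sub (μ y - r * μ (P.e m)) (ν y - r * ν (P.e m))
  linarith

/-- The limit functional. -/
lemma exists_lim (z : X) {γ : ℝ} (hγ : 0 < γ) : ∃ μ₀ ∈ P.E, ∀ y : X, ∀ ε > 0, ∃ η > 0,
    ∀ μ ∈ P.N z γ η, |μ y - μ₀ y| ≤ ε := by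
  have hlim : ∀ y : X, ∃ l : ℝ, ∀ ε > 0, ∃ η > 0, ∀ μ ∈ P.N z γ η, |μ y - l| ≤ ε := fun y =>
    lim_of_cauchy (P.N z γ) (fun η hη => P.N_nonempty z γ hη) (P.N_mono z γ)
      (fun μ => μ y) (P.cauchy_y z hγ y)
  choose l hl using hlim
  -- simultaneous approximation
  have happ : ∀ x y w : X, ∀ ε > 0, ∃ μ ∈ P.E, |μ x - l x| ≤ ε ∧ |μ y - l y| ≤ ε ∧
      |μ w - l w| ≤ ε := by
    intro x y w ε hε
    obtain ⟨η1, hη1, h1⟩ := hl x ε hε
    obtain ⟨η2, hη2, h2⟩ := hl y ε hε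
    obtain ⟨η3, hη3, h3⟩ := hl w ε hε
    obtain ⟨μ, hμ⟩ := P.N_nonempty z γ (lt_min hη1 (lt_min hη2 hη3))
    refine ⟨μ, hμ.1, h1 μ (P.N_mono z γ _ _ (min_le_left _ _) hμ),
      h2 μ (P.N_mono z γ _ _ ((min_le_right _ _).trans (min_le_left _ _)) hμ),
      h3 μ (P.N_mono z γ _ _ ((min_le_right _ _).trans (min_le_right _ _)) hμ)⟩
  have hadd : ∀ x y : X, l (x + y) = l x + l y := by
    intro x y
    have : ∀ ε > 0, |l (x + y) - (l x + l y)| ≤ ε := by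
      intro ε hε
      obtain ⟨μ, hμ, h1, h2, h3⟩ := happ x y (x + y) (ε / 3) (by linarith)
      rw [map_add] at h3
      rw [abs_le] at *
      constructor <;> linarith [h1.1, h1.2, h2.1, h2.2, h3.1, h3.2]
    have h0 : |l (x + y) - (l x + l y)| ≤ 0 := le_of_forall_pos_le_add fun ε hε => by
      have := this ε hε; linarith
    linarith [abs_nonpos_iff.1 h0]
  have hsmul : ∀ (c : ℝ) (x : X), l (c • x) = c * l x := by
    intro c x
    have : ∀ ε > 0, |l (c • x) - c * l x| ≤ ε := by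
      intro ε hε
      obtain ⟨μ, hμ, h1, h2, -⟩ := happ x (c • x) x (ε / (|c| + 1)) (by positivity)
      rw [map_smul, smul_eq_mul] at h2
      have e : l (c • x) - c * l x = -(c * μ x - l (c • x)) + c * (μ x - l x) := by ring
      rw [e]
      have h4 := abs_add_le (-(c * μ x - l (c • x))) (c * (μ x - l x))
      rw [abs_neg, abs_mul] at h4
      have h5 : |c| * |μ x - l x| ≤ |c| * (ε / (|c| + 1)) :=
        mul_le_mul_of_nonneg_left h1 (abs_nonneg c)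
      have h6 : ε / (|c| + 1) + |c| * (ε / (|c| + 1)) = ε := by field_simp; ring
      linarith
    have h0 : |l (c • x) - c * l x| ≤ 0 := le_of_forall_pos_le_add fun ε hε => by
      have := this ε hε; linarith
    linarith [abs_nonpos_iff.1 h0]
  have hbd : ∀ x : X, |l x| ≤ P.C * ‖x‖ := by
    intro x
    refine le_of_forall_pos_le_add fun ε hε => ?_
    obtain ⟨μ, hμ, h1, -, -⟩ := happ x x x ε hε
    have h2 := P.abs_apply_le hμ x
    have h3 := abs_sub (μ x) (μ x - l x)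
    have e : μ x - (μ x - l x) = l x := by ring
    rw [e] at h3
    linarith
  let μ₀ : X →L[ℝ] ℝ := LinearMap.mkContinuous
    { toFun := l, map_add' := hadd, map_smul' := fun c x => by rw [hsmul]; rfl } P.C
    (fun x => by rw [Real.norm_eq_abs]; exact hbd x)
  have hμ₀ : ∀ x, μ₀ x = l x := fun x => rfl
  refine ⟨μ₀, ?_, fun y ε hε => ?_⟩
  · apply P.closed
    intro x y ε hε
    obtain ⟨μ, hμ, h1, h2, -⟩ := happ x y x ε hε
    exact ⟨μ, hμ, by rw [hμ₀]; exact h1, by rw [hμ₀]; exact h2⟩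
  · rw [hμ₀]
    exact hl y ε hε

lemma J_sub (z : X) (γ : ℝ) (μ ν : X →L[ℝ] ℝ) :
    P.J z γ μ - P.J z γ ν = (μ z - ν z) - γ / (2 * P.B) * (P.Ps μ - P.Ps ν) := by
  unfold J ph
  ring

/-- Lower semicontinuity of the building blocks. -/
lemma ps_lsc (z : X) {γ : ℝ} {μ₀ : X →L[ℝ] ℝ} (h0 : μ₀ ∈ P.E)
    (hl : ∀ y : X, ∀ ε > 0, ∃ η > 0, ∀ μ ∈ P.N z γ η, |μ y - μ₀ y| ≤ ε) (m : ℕ) :
    ∀ ε > 0, ∃ η > 0, ∀ μ ∈ P.N z γ η, P.ps m μ₀ - ε ≤ P.ps m μ ∧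
      (μ₀ (P.e m)) ^ 2 - ε ≤ (μ (P.e m)) ^ 2 := by
  intro ε hε
  obtain ⟨y, hy, hy2⟩ := exists_Tf (P.hY0 m) μ₀ (show 0 < ε / 4 by linarith)
  obtain ⟨η1, hη1, h1⟩ := hl y (ε / 4) (by linarith)
  have hC := P.hC
  obtain ⟨η2, hη2, h2⟩ := hl (P.e m) (ε / (4 * P.C)) (by positivity)
  refine ⟨min η1 η2, lt_min hη1 hη2, fun μ hμ => ?_⟩
  have h3 := h1 μ (P.N_mono z γ _ _ (min_le_left _ _) hμ)
  have h4 := h2 μ (P.N_mono z γ _ _ (min_le_right _ _) hμ)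
  have h5 := le_Tf (P.hY1 m) μ hy
  have h6 := P.abs_e_le hμ.1 m
  have h7 := P.abs_e_le h0 m
  have h8 : (μ₀ (P.e m)) ^ 2 - (μ (P.e m)) ^ 2 ≤ ε / 2 := by
    have e : (μ₀ (P.e m)) ^ 2 - (μ (P.e m)) ^ 2 =
      (μ₀ (P.e m) + μ (P.e m)) * (μ₀ (P.e m) - μ (P.e m)) := by ring
    rw [e]
    have h9 : |μ₀ (P.e m) + μ (P.e m)| ≤ 2 * P.C := by
      have := abs_add_le (μ₀ (P.e m)) (μ (P.e m)); linarith
    have h10 := le_abs_self ((μ₀ (P.e m) + μ (P.e m)) * (μ₀ (P.e m) - μ (P.e m)))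
    rw [abs_mul] at h10
    rw [abs_sub_comm] at h4
    have h11 : |μ₀ (P.e m) + μ (P.e m)| * |μ₀ (P.e m) - μ (P.e m)| ≤ 2 * P.C * (ε / (4 * P.C)) :=
      mul_le_mul h9 h4 (abs_nonneg _) (by positivity)
    have e2 : 2 * P.C * (ε / (4 * P.C)) = ε / 2 := by field_simp; norm_num
    linarith
  have h12 := (abs_le.1 h3).1
  constructor
  · unfold ps; linarith
  · linarith

/-- Kadec type property. -/
lemma Ps_usc (z : X) {γ : ℝ} (hγ : 0 < γ) {μ₀ : X →L[ℝ] ℝ} (h0 : μ₀ ∈ P.E)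
    (hl : ∀ y : X, ∀ ε > 0, ∃ η > 0, ∀ μ ∈ P.N z γ η, |μ y - μ₀ y| ≤ ε) :
    ∀ ε > 0, ∃ η > 0, ∀ μ ∈ P.N z γ η, P.Ps μ - P.Ps μ₀ ≤ ε := by
  intro ε hε
  have hB := P.B_pos
  set k : ℝ := γ / (2 * P.B) with hk
  have hkpos : 0 < k := by positivity
  obtain ⟨η, hη, h⟩ := hl z (k * ε / 2) (by positivity)
  refine ⟨min η (k * ε / 2), lt_min hη (by positivity), fun μ hμ => ?_⟩
  have h1 := h μ (P.N_mono z γ _ _ (min_le_left _ _) hμ)
  have h2 := (P.N_mono z γ _ _ (min_le_right _ _) hμ).2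
  have h3 := P.J_le z hγ.le h0
  have h4 := P.J_sub z γ μ μ₀
  have h5 := (abs_le.1 h1).2
  rw [← hk] at h4
  have h6 : k * (P.Ps μ - P.Ps μ₀) ≤ k * ε := by linarith
  exact le_of_mul_le_mul_left h6 hkpos

lemma ps_usc (z : X) {γ : ℝ} (hγ : 0 < γ) {μ₀ : X →L[ℝ] ℝ} (h0 : μ₀ ∈ P.E)
    (hl : ∀ y : X, ∀ ε > 0, ∃ η > 0, ∀ μ ∈ P.N z γ η, |μ y - μ₀ y| ≤ ε) (m : ℕ) :
    ∀ ε > 0, ∃ η > 0, ∀ μ ∈ P.N z γ η, P.ps m μ ≤ P.ps m μ₀ + ε := by
  intro ε hε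
  have hB := P.B_pos
  set q : ℝ := (1 / 2 : ℝ) ^ (m + 1) with hq
  have hqpos : 0 < q := by positivity
  -- tail index
  obtain ⟨K, hK⟩ : ∃ K : ℕ, P.B * (1 / 2 : ℝ) ^ K ≤ q * ε / 3 := by
    obtain ⟨K, hK⟩ := exists_pow_lt_of_lt_one (show 0 < q * ε / 3 / P.B by positivity)
      (show (1 / 2 : ℝ) < 1 by norm_num)
    refine ⟨K, ?_⟩
    have := (lt_div_iff₀ hB).1 hK
    linarith
  -- lower bounds for the first blocks
  have hlow : ∀ K : ℕ, ∃ η > 0, ∀ μ ∈ P.N z γ η, ∀ k < K, P.ps k μ₀ - q * ε / 3 ≤ P.ps k μ := by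
    intro K
    induction K with
    | zero => exact ⟨1, one_pos, fun μ _ k hk => absurd hk (by omega)⟩
    | succ K ih =>
      obtain ⟨η1, hη1, h1⟩ := ih
      obtain ⟨η2, hη2, h2⟩ := P.ps_lsc z h0 hl K (q * ε / 3) (by positivity)
      refine ⟨min η1 η2, lt_min hη1 hη2, fun μ hμ k hk => ?_⟩
      rcases Nat.lt_succ_iff_lt_or_eq.1 hk with hk' | rfl
      · exact h1 μ (P.N_mono z γ _ _ (min_le_left _ _) hμ) k hk'
      · exact (h2 μ (P.N_mono z γ _ _ (min_le_right _ _) hμ)).1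
  obtain ⟨η1, hη1, h1⟩ := hlow K
  obtain ⟨η2, hη2, h2⟩ := P.Ps_usc z hγ h0 hl (q * ε / 4) (by positivity)
  refine ⟨min η1 η2, lt_min hη1 hη2, fun μ hμ => ?_⟩
  have h3 := h1 μ (P.N_mono z γ _ _ (min_le_left _ _) hμ)
  have h4 := h2 μ (P.N_mono z γ _ _ (min_le_right _ _) hμ)
  have s1 := P.summable_ps hμ.1
  have s2 := P.summable_ps h0
  set a : ℕ → ℝ := fun k => (1 / 2 : ℝ) ^ (k + 1) * P.ps k μ - (1 / 2 : ℝ) ^ (k + 1) * P.ps k μ₀
    with ha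
  have sa : Summable a := s1.sub s2
  have e1 : P.Ps μ - P.Ps μ₀ = ∑' k, a k := (Summable.tsum_sub s1 s2).symm
  by_contra hcon
  push Not at hcon
  -- bound from below, separately
  have hb1 : ∀ k, a k ≥ (if k = m then q * ε else 0) - (1 / 2 : ℝ) ^ (k + 1) * (q * ε / 3) -
      (if k < K then 0 else (1 / 2 : ℝ) ^ (k + 1) * P.B) := by
    intro k
    have hp : (0:ℝ) < (1 / 2 : ℝ) ^ (k + 1) := by positivity
    have hak : a k = (1 / 2 : ℝ) ^ (k + 1) * (P.ps k μ - P.ps k μ₀) := by rw [ha]; ring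
    have hqe : 0 < q * ε / 3 := by positivity
    by_cases hkm : k = m
    · subst hkm
      simp only [if_true]
      rw [hak]
      have h5 : q * ε ≤ (1 / 2 : ℝ) ^ (k + 1) * (P.ps k μ - P.ps k μ₀) := by
        rw [← hq]
        apply mul_le_mul_of_nonneg_left _ hqpos.le
        linarith
      have h6 : 0 ≤ (if k < K then 0 else (1 / 2 : ℝ) ^ (k + 1) * P.B) := by
        split_ifs <;> positivity
      have h7 : 0 ≤ (1 / 2 : ℝ) ^ (k + 1) * (q * ε / 3) := by positivity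
      linarith
    · rw [if_neg hkm, hak]
      by_cases hkK : k < K
      · rw [if_pos hkK]
        have h8 := h3 k hkK
        have h9 : (1 / 2 : ℝ) ^ (k + 1) * (-(q * ε / 3)) ≤
            (1 / 2 : ℝ) ^ (k + 1) * (P.ps k μ - P.ps k μ₀) :=
          mul_le_mul_of_nonneg_left (by linarith) hp.le
        linarith
      · rw [if_neg hkK]
        have h8 := P.ps_nonneg k μ
        have h9 := P.ps_le k h0
        have h10 : (1 / 2 : ℝ) ^ (k + 1) * (-P.B) ≤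
            (1 / 2 : ℝ) ^ (k + 1) * (P.ps k μ - P.ps k μ₀) :=
          mul_le_mul_of_nonneg_left (by linarith) hp.le
        have h11 : 0 < (1 / 2 : ℝ) ^ (k + 1) * (q * ε / 3) := by positivity
        linarith
  -- sums
  have t1 : HasSum (fun k : ℕ => if k = m then q * ε else 0) (q * ε) := hasSum_ite_eq m (q * ε)
  have t2 : HasSum (fun k : ℕ => (1 / 2 : ℝ) ^ (k + 1) * (q * ε / 3)) (q * ε / 3) := by
    have := (summable_half.hasSum).mul_right (q * ε / 3)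
    rwa [tsum_half, one_mul] at this
  have t3 : HasSum (fun k : ℕ => if k < K then 0 else (1 / 2 : ℝ) ^ (k + 1) * P.B)
      (P.B * (1 / 2 : ℝ) ^ K) := by
    have h5 : Summable (fun k : ℕ => if k < K then 0 else (1 / 2 : ℝ) ^ (k + 1) * P.B) := by
      refine Summable.of_nonneg_of_le (fun k => ?_) (fun k => ?_) (summable_half.mul_right P.B)
      · split_ifs <;> positivity
      · split_ifs
        · positivity
        · exact le_rfl
    have h6 := h5.sum_add_tsum_nat_add K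
    have h7 : ∑ i ∈ Finset.range K, (if i < K then (0:ℝ) else (1 / 2 : ℝ) ^ (i + 1) * P.B) = 0 := by
      apply Finset.sum_eq_zero
      intro i hi
      rw [if_pos (Finset.mem_range.1 hi)]
    have h8 : ∑' i : ℕ, (if i + K < K then (0:ℝ) else (1 / 2 : ℝ) ^ (i + K + 1) * P.B) =
        P.B * (1 / 2 : ℝ) ^ K := by
      have h9 : ∀ i : ℕ, (if i + K < K then (0:ℝ) else (1 / 2 : ℝ) ^ (i + K + 1) * P.B) =
          (1 / 2 : ℝ) ^ (i + 1) * (P.B * (1 / 2 : ℝ) ^ K) := by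
        intro i
        rw [if_neg (by omega)]
        rw [show i + K + 1 = (i + 1) + K by ring, pow_add]
        ring
      simp only [h9]
      rw [tsum_mul_right, tsum_half, one_mul]
    rw [h7, h8, zero_add] at h6
    rw [h6]
    exact h5.hasSum
  have t4 := (t1.sub t2).sub t3
  have t5 := hasSum_le (fun k => hb1 k) t4 sa.hasSum
  rw [← e1] at t5
  have : 0 < q * ε := by positivity
  linarith

/-- Near-maximisers converge in norm. -/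
theorem exposed (z : X) {γ : ℝ} (hγ : 0 < γ) : ∃ μ₀ ∈ P.E, ∀ ε > 0, ∃ η > 0,
    ∀ μ ∈ P.N z γ η, ‖μ - μ₀‖ ≤ ε := by
  obtain ⟨μ₀, h0, hl⟩ := P.exists_lim z hγ
  refine ⟨μ₀, h0, fun ε hε => ?_⟩
  obtain ⟨m, hm⟩ := P.tail μ₀ h0 (ε / 8) (by linarith)
  obtain ⟨U, hU⟩ := P.kadec m
  obtain ⟨η1, hη1, h1⟩ := P.ps_usc z hγ h0 hl m (ε / 16) (by linarith)
  obtain ⟨η2, hη2, h2⟩ := P.ps_lsc z h0 hl m (ε / 16) (by linarith)
  have hUη : ∀ U : Finset X, ∃ η > 0, ∀ μ ∈ P.N z γ η, ∀ u ∈ U, |μ u - μ₀ u| ≤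
      ε / (4 * ((Finset.card U : ℝ) + 1)) := by
    intro U
    have hpos : 0 < ε / (4 * ((Finset.card U : ℝ) + 1)) := by positivity
    choose η hη h using fun u : X => hl u _ hpos
    rcases U.eq_empty_or_nonempty with rfl | hne
    · exact ⟨1, one_pos, fun μ _ u hu => absurd hu (Finset.notMem_empty u)⟩
    · refine ⟨U.inf' hne η, ?_, fun μ hμ u hu => h u μ (P.N_mono z γ _ _ (Finset.inf'_le _ hu) hμ)⟩
      rw [gt_iff_lt, Finset.lt_inf'_iff]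
      exact fun u _ => hη u
  obtain ⟨η3, hη3, h3⟩ := hUη U
  refine ⟨min η1 (min η2 η3), lt_min hη1 (lt_min hη2 hη3), fun μ hμ => ?_⟩
  have k1 := h1 μ (P.N_mono z γ _ _ (min_le_left _ _) hμ)
  have k2 := (h2 μ (P.N_mono z γ _ _ ((min_le_right _ _).trans (min_le_left _ _)) hμ)).2
  have k3 := h3 μ (P.N_mono z γ _ _ ((min_le_right _ _).trans (min_le_right _ _)) hμ)
  have k4 : Tf (P.Y m) μ ≤ Tf (P.Y m) μ₀ + ε / 8 := by
    unfold ps at k1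
    linarith
  have k5 := hU μ hμ.1 μ₀ h0
  have k6 : ∑ u ∈ U, |μ u - μ₀ u| ≤ ε / 4 := by
    refine (Finset.sum_le_sum k3).trans ?_
    rw [Finset.sum_const, nsmul_eq_mul]
    have h11 : (U.card : ℝ) * (ε / (4 * (U.card + 1))) ≤ ((U.card : ℝ) + 1) * (ε / (4 * (U.card + 1)))
        := mul_le_mul_of_nonneg_right (by linarith) (by positivity)
    refine h11.trans (le_of_eq ?_)
    field_simp
  linarith

/-- The family attached to a piece and a functional. -/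
noncomputable def fam (τ : X →L[ℝ] ℝ) (c' : ℝ) (i : P.E × Bool) : X →L[ℝ] ℝ :=
  i.1.1 + (c' * P.ph i.1.1 * sgn i.2) • τ

instance : Nonempty (P.E × Bool) := by
  have : Nonempty P.E := P.ne.to_subtype
  infer_instance

lemma fam_apply (τ : X →L[ℝ] ℝ) (c' : ℝ) (i : P.E × Bool) (z : X) :
    P.fam τ c' i z = i.1.1 z + c' * P.ph i.1.1 * (sgn i.2 * τ z) := by
  unfold fam
  rw [add_apply, smul_apply, smul_eq_mul]
  ring

lemma norm_fam_le {τ : X →L[ℝ] ℝ} {c' M : ℝ} (hc' : 0 ≤ c') (hτ : ‖τ‖ ≤ M) (i : P.E × Bool) :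
    ‖P.fam τ c' i‖ ≤ P.C + c' * M := by
  unfold fam
  refine (norm_add_le _ _).trans ?_
  have h1 := P.bound i.1.1 i.1.2
  have h2 : ‖(c' * P.ph i.1.1 * sgn i.2) • τ‖ ≤ c' * M := by
    rw [norm_smul, Real.norm_eq_abs, abs_mul, sgn_sq, mul_one, abs_mul, abs_of_nonneg hc']
    have h3 := P.half_le_ph i.1.2
    have h4 := P.ph_le_one i.1.1
    rw [abs_of_nonneg (by linarith)]
    have h5 : c' * P.ph i.1.1 ≤ c' := by
      calc c' * P.ph i.1.1 ≤ c' * 1 := mul_le_mul_of_nonneg_left h4 hc'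
        _ = c' := mul_one _
    exact mul_le_mul h5 hτ (norm_nonneg _) hc'
  linarith

lemma fam_le_J {τ : X →L[ℝ] ℝ} {c' : ℝ} (hc' : 0 ≤ c') (i : P.E × Bool) (z : X) :
    P.fam τ c' i z ≤ P.J z (c' * |τ z|) i.1.1 := by
  rw [fam_apply]
  unfold J
  have h3 := P.half_le_ph i.1.2
  have h4 := sgn_mul_le i.2 (τ z)
  have h5 : c' * P.ph i.1.1 * (sgn i.2 * τ z) ≤ c' * P.ph i.1.1 * |τ z| :=
    mul_le_mul_of_nonneg_left h4 (mul_nonneg hc' (by linarith))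
  linarith

lemma supF_fam_le {τ : X →L[ℝ] ℝ} {c' : ℝ} (hc' : 0 ≤ c') (z : X) :
    supF (P.fam τ c') z ≤ P.S z (c' * |τ z|) :=
  supF_le fun i => (P.fam_le_J hc' i z).trans (P.J_le z (by positivity) i.1.2)

lemma le_supF_fam {τ : X →L[ℝ] ℝ} {c' M : ℝ} (hc' : 0 ≤ c') (hτ : ‖τ‖ ≤ M) (z : X) :
    P.S z (c' * |τ z|) ≤ supF (P.fam τ c') z := by
  have : Nonempty P.E := P.ne.to_subtype
  apply ciSup_le
  intro μ
  obtain ⟨b, hb⟩ := exists_sgn (τ z)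
  have h1 := le_supF (P.norm_fam_le hc' hτ) z (μ, b)
  rw [fam_apply, hb] at h1
  unfold J
  linarith

lemma le_supF_fam' {τ : X →L[ℝ] ℝ} {c' M : ℝ} (hc' : 0 ≤ c') (hτ : ‖τ‖ ≤ M) (z : X)
    {μ : X →L[ℝ] ℝ} (hμ : μ ∈ P.E) : μ z ≤ supF (P.fam τ c') z := by
  obtain ⟨b, hb⟩ := exists_sgn (τ z)
  have h1 := le_supF (P.norm_fam_le hc' hτ) z (⟨μ, hμ⟩, b)
  rw [fam_apply, hb] at h1
  have h3 := P.half_le_ph hμ
  have h4 : 0 ≤ c' * P.ph μ * |τ z| := mul_nonneg (mul_nonneg hc' (by linarith)) (abs_nonneg _)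
  simp only at h1
  linarith

lemma exposes_fam {τ : X →L[ℝ] ℝ} {c' M : ℝ} (hc' : 0 < c') (hτ : ‖τ‖ ≤ M) (hM : 0 < M) {z : X}
    (hz : τ z ≠ 0) : Exposes (P.fam τ c') z := by
  intro ε hε
  have htpos : 0 < |τ z| := abs_pos.2 hz
  set γ : ℝ := c' * |τ z| with hγ
  have hγpos : 0 < γ := by positivity
  obtain ⟨μ₀, h0, hexp⟩ := P.exposed z hγpos
  have hB := P.B_pos
  have hC := P.hC
  set k : ℝ := 1 + c' * ((1 + 2 * P.C) / (2 * P.B)) * M with hk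
  have hkpos : 0 < k := by positivity
  obtain ⟨η, hη, hη2⟩ := hexp (ε / k) (by positivity)
  refine ⟨μ₀ + (c' * P.ph μ₀ * (|τ z| / τ z)) • τ, min η γ, lt_min hη hγpos, fun i hi => ?_⟩
  have h1 := P.fam_le_J (τ := τ) hc'.le i z
  have h2 := P.le_supF_fam hc'.le hτ z
  rw [← hγ] at h1 h2
  have h3 : i.1.1 ∈ P.N z γ η := ⟨i.1.2, by have := min_le_left η γ; linarith⟩
  have h4 := hη2 _ h3
  have hsg : sgn i.2 * τ z = |τ z| := by
    by_contra hcon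
    have h6 : sgn i.2 * τ z = -|τ z| := by
      have h7 : |sgn i.2 * τ z| = |τ z| := by rw [abs_mul, sgn_sq, one_mul]
      rcases abs_choice (sgn i.2 * τ z) with h8 | h8
      · rw [h8] at h7; exact absurd h7 hcon
      · rw [h8] at h7; linarith
    rw [fam_apply, h6] at hi
    have h8 := P.J_le z hγpos.le i.1.2
    unfold J at h8
    have h9 := P.half_le_ph i.1.2
    have h10 : c' * P.ph i.1.1 * -|τ z| = -(γ * P.ph i.1.1) := by rw [hγ]; ring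
    rw [h10] at hi
    have h11 := min_le_right η γ
    nlinarith
  have hsg2 : sgn i.2 = |τ z| / τ z := by
    rw [← hsg]; field_simp
  have e : P.fam τ c' i - (μ₀ + (c' * P.ph μ₀ * (|τ z| / τ z)) • τ) =
      (i.1.1 - μ₀) + (c' * (P.ph i.1.1 - P.ph μ₀) * sgn i.2) • τ := by
    unfold fam
    rw [← hsg2]
    module
  rw [e]
  refine (norm_add_le _ _).trans ?_
  have h12 : ‖(c' * (P.ph i.1.1 - P.ph μ₀) * sgn i.2) • τ‖ ≤
      c' * ((1 + 2 * P.C) / (2 * P.B) * (ε / k)) * M := by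
    rw [norm_smul, Real.norm_eq_abs, abs_mul, sgn_sq, mul_one, abs_mul, abs_of_pos hc']
    apply mul_le_mul _ hτ (norm_nonneg _) (by positivity)
    apply mul_le_mul_of_nonneg_left _ hc'.le
    refine (P.ph_lip i.1.2 h0).trans ?_
    exact mul_le_mul_of_nonneg_left h4 (by positivity)
  have h13 : ε / k + c' * ((1 + 2 * P.C) / (2 * P.B) * (ε / k)) * M = k * (ε / k) := by
    rw [hk]; ring
  have h14 : k * (ε / k) = ε := by field_simp
  linarith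

end Piece

end Pool.Agent.Lib.Pa1e890
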