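import Pool.Agent.Lib.Pa1e890.Omega
import Pool.Agent.Lib.Pa1e890.Piece2

/-!
# Step projections, separability and closing off
-/

set_option autoImplicit false
set_option linter.unusedSectionVars false
open Filter Topology Set BoundedContinuousFunction

namespace Pool.Agent.Lib.Pa1e890

variable {Ω : Type*} [LinearOrder Ω] [OrderTop Ω] [hΩ : OmegaLike Ω]

section
open scoped Classical

/-- The next element of `F`. -/
noncomputable def nf (F : Finset Ω) (a : Ω) : Ω :=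
  ((insert ⊤ F).filter (fun k => a ≤ k)).min' ⟨⊤, by simp⟩

lemma le_nf (F : Finset Ω) (a : Ω) : a ≤ nf F a :=
  (Finset.mem_filter.1 (((insert ⊤ F).filter (fun k => a ≤ k)).min'_mem ⟨⊤, by simp⟩)).2

lemma nf_mem (F : Finset Ω) (a : Ω) : nf F a ∈ insert ⊤ F :=
  (Finset.mem_filter.1 (((insert ⊤ F).filter (fun k => a ≤ k)).min'_mem ⟨⊤, by simp⟩)).1

lemma nf_le {F : Finset Ω} {a k : Ω} (hk : k ∈ insert ⊤ F) (h : a ≤ k) : nf F a ≤ k :=
  Finset.min'_le _ _ (Finset.mem_filter.2 ⟨hk, h⟩)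

lemma nf_self {F : Finset Ω} {k : Ω} (hk : k ∈ insert ⊤ F) : nf F k = k :=
  le_antisymm (nf_le hk le_rfl) (le_nf F k)

variable [TopologicalSpace Ω] [OrderTopology Ω]

lemma nf_loc (F : Finset Ω) : IsLocallyConstant (nf F) := by
  rw [IsLocallyConstant.iff_exists_open]
  intro a
  refine ⟨Set.Iic (nf F a) ∩ ⋂ k ∈ (insert ⊤ F).filter (fun k => k < a), Set.Ioi k, ?_, ?_, ?_⟩
  · exact (isOpen_Iic' _).inter (isOpen_biInter_finset fun k _ => isOpen_Ioi)
  · refine ⟨le_nf F a, ?_⟩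
    rw [Set.mem_iInter₂]
    intro k hk
    exact (Finset.mem_filter.1 hk).2
  · rintro b ⟨hb1, hb2⟩
    rw [Set.mem_iInter₂] at hb2
    apply le_antisymm
    · exact nf_le (nf_mem F a) hb1
    · by_contra hcon
      push Not at hcon
      have h1 : nf F b < a := by
        by_contra h2
        push Not at h2
        exact absurd (nf_le (nf_mem F b) h2) (not_le.2 hcon)
      have h2 := hb2 (nf F b) (Finset.mem_filter.2 ⟨nf_mem F b, h1⟩)
      exact absurd (le_nf F b) (not_le.2 h2)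

/-- The step projection. -/
noncomputable def PF (F : Finset Ω) : XX Ω →L[ℝ] XX Ω := pre ⟨nf F, (nf_loc F).continuous⟩

lemma PF_apply (F : Finset Ω) (x : XX Ω) (a : Ω) : PF F x a = x (nf F a) := rfl

/-- The basis functions. -/
noncomputable def uk (F : Finset Ω) (k : Ω) : XX Ω :=
  BoundedContinuousFunction.ofNormedAddCommGroup (fun a => if nf F a = k then (1:ℝ) else 0)
    (((nf_loc F).comp (fun b => if b = k then (1:ℝ) else 0)).continuous) 1 (by
      intro a
      split_ifs <;> simp)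

lemma uk_apply (F : Finset Ω) (k a : Ω) : uk F k a = if nf F a = k then (1:ℝ) else 0 := rfl

lemma PF_eq (F : Finset Ω) (x : XX Ω) : PF F x = ∑ k ∈ insert ⊤ F, x k • uk F k := by
  ext a
  rw [PF_apply, BoundedContinuousFunction.coe_sum, Finset.sum_apply]
  rw [Finset.sum_eq_single (nf F a)]
  · rw [BoundedContinuousFunction.smul_apply, uk_apply, if_pos rfl, smul_eq_mul, mul_one]
  · intro k _ hk
    rw [BoundedContinuousFunction.smul_apply, uk_apply, if_neg (Ne.symm hk), smul_zero]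
  · intro h
    exact absurd (nf_mem F a) h

lemma uk_inj (F : Finset Ω) : Set.InjOn (uk F) (insert ⊤ F : Finset Ω) := by
  intro k hk k' hk' h
  have h1 : uk F k k = uk F k' k := by rw [h]
  rw [uk_apply, uk_apply, nf_self hk, if_pos rfl] at h1
  by_contra hne
  rw [if_neg hne] at h1
  exact one_ne_zero h1

/-- The test sets. -/
def YF (F : Finset Ω) : Set (XX Ω) := {y | ‖y‖ ≤ 1 ∧ ∀ k ∈ insert ⊤ F, y k = 0}

lemma zero_mem_YF (F : Finset Ω) : (0 : XX Ω) ∈ YF F := ⟨by simp, fun _ _ => rfl⟩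

lemma YF_norm (F : Finset Ω) : ∀ y ∈ YF F, ‖y‖ ≤ 1 := fun _ hy => hy.1

lemma abs_le_YF (F : Finset Ω) (μ : XX Ω →L[ℝ] ℝ) {y : XX Ω} (hy : ∀ k ∈ insert ⊤ F, y k = 0) :
    |μ y| ≤ ‖y‖ * Tf (YF F) μ := by
  rcases eq_or_ne y 0 with rfl | h0
  · simp
  have hpos : 0 < ‖y‖ := norm_pos_iff.2 h0
  have key : ∀ s : ℝ, |s| = 1 → s * μ y ≤ ‖y‖ * Tf (YF F) μ := by
    intro s hs
    have h1 : (s * ‖y‖⁻¹) • y ∈ YF F := by
      refine ⟨?_, fun k hk => ?_⟩
      · rw [norm_smul, Real.norm_eq_abs, abs_mul, hs, one_mul, abs_inv, abs_norm,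
          inv_mul_cancel₀ hpos.ne']
      · rw [BoundedContinuousFunction.smul_apply, hy k hk, smul_zero]
    have h2 := le_Tf (YF_norm F) μ h1
    rw [map_smul, smul_eq_mul] at h2
    have h3 := mul_le_mul_of_nonneg_left h2 hpos.le
    have h4 : ‖y‖ * (s * ‖y‖⁻¹ * μ y) = s * μ y := by field_simp
    linarith
  rw [abs_le]
  have h1 := key 1 (by simp)
  have h2 := key (-1) (by simp)
  constructor <;> linarith

lemma kadec_YF (F : Finset Ω) (μ ν : XX Ω →L[ℝ] ℝ) :
    ‖μ - ν‖ ≤ 2 * Tf (YF F) μ + 2 * Tf (YF F) ν +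
      ∑ u ∈ (insert ⊤ F : Finset Ω).image (uk F), |μ u - ν u| := by
  have hT1 := Tf_nonneg (zero_mem_YF F) (YF_norm F) μ
  have hT2 := Tf_nonneg (zero_mem_YF F) (YF_norm F) ν
  have hS : 0 ≤ ∑ u ∈ (insert ⊤ F : Finset Ω).image (uk F), |μ u - ν u| :=
    Finset.sum_nonneg fun _ _ => abs_nonneg _
  apply ContinuousLinearMap.opNorm_le_bound _ (by positivity)
  intro y
  rw [Real.norm_eq_abs]
  have e : (μ - ν) y = (μ (PF F y) - ν (PF F y)) + μ (y - PF F y) - ν (y - PF F y) := by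
    rw [_root_.sub_apply, map_sub, map_sub]; ring
  have hv : ∀ k ∈ insert ⊤ F, (y - PF F y) k = 0 := by
    intro k hk
    rw [BoundedContinuousFunction.sub_apply, PF_apply, nf_self hk, sub_self]
  have hn : ‖y - PF F y‖ ≤ 2 * ‖y‖ := by
    have h1 := norm_sub_le y (PF F y)
    have h2 : ‖PF F y‖ ≤ ‖y‖ := norm_pre_le _ y
    linarith
  have h1 := abs_le_YF F μ hv
  have h2 := abs_le_YF F ν hv
  have h1' : |μ (y - PF F y)| ≤ 2 * Tf (YF F) μ * ‖y‖ := by
    refine h1.trans ?_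
    have := mul_le_mul_of_nonneg_right hn hT1
    linarith
  have h2' : |ν (y - PF F y)| ≤ 2 * Tf (YF F) ν * ‖y‖ := by
    refine h2.trans ?_
    have := mul_le_mul_of_nonneg_right hn hT2
    linarith
  have h3 : |μ (PF F y) - ν (PF F y)| ≤
      (∑ u ∈ (insert ⊤ F : Finset Ω).image (uk F), |μ u - ν u|) * ‖y‖ := by
    rw [Finset.sum_image (uk_inj F), PF_eq, map_sum, map_sum, ← Finset.sum_sub_distrib,
      Finset.sum_mul]
    refine (Finset.abs_sum_le_sum_abs _ _).trans (Finset.sum_le_sum fun k _ => ?_)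
    rw [map_smul, map_smul, smul_eq_mul, smul_eq_mul, ← mul_sub, abs_mul, mul_comm]
    exact mul_le_mul_of_nonneg_left (abs_le_norm' y k) (abs_nonneg _)
  rw [e]
  have h4 := abs_sub ((μ (PF F y) - ν (PF F y)) + μ (y - PF F y)) (ν (y - PF F y))
  have h5 := abs_add_le (μ (PF F y) - ν (PF F y)) (μ (y - PF F y))
  have h6 : (2 * Tf (YF F) μ + 2 * Tf (YF F) ν +
      ∑ u ∈ (insert ⊤ F : Finset Ω).image (uk F), |μ u - ν u|) * ‖y‖ =
      2 * Tf (YF F) μ * ‖y‖ + 2 * Tf (YF F) ν * ‖y‖ +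
      (∑ u ∈ (insert ⊤ F : Finset Ω).image (uk F), |μ u - ν u|) * ‖y‖ := by ring
  rw [h6]
  linarith

/-- Separability of restrictions to countable initial segments. -/
lemma sep_lo (l : Ω) (hl : l < ⊤) : ∃ D : Set (XX Ω), D.Countable ∧ ∀ x : XX Ω, ∀ ε > 0, ∃ y ∈ D,
    ∀ a, a ≤ l → |x a - y a| ≤ ε := by
  induction l using WellFoundedLT.induction with
  | ind l ih =>
    have hD : ∀ b : Ω, ∃ D : Set (XX Ω), b < l → D.Countable ∧ ∀ x : XX Ω, ∀ ε > 0, ∃ y ∈ D,
        ∀ a, a ≤ b → |x a - y a| ≤ ε := by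
      intro b
      by_cases hb : b < l
      · obtain ⟨D, hD⟩ := ih b hb (hb.trans hl)
        exact ⟨D, fun _ => hD⟩
      · exact ⟨∅, fun h => absurd h hb⟩
    choose D hD using hD
    let g : Ω → ℚ → XX Ω → XX Ω := fun b q y => lo b y + (q : ℝ) • (ind l - ind b)
    let D0 : Set (XX Ω) := Set.range (fun q : ℚ => (q : ℝ) • ind l)
    let D1 : Set (XX Ω) := ⋃ b ∈ Set.Iio l, ⋃ q : ℚ, (g b q) '' (D b)
    refine ⟨D0 ∪ D1, ?_, ?_⟩
    · refine (Set.countable_range _).union ?_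
      refine Set.Countable.biUnion ((hΩ.count l hl).mono Set.Iio_subset_Iic_self) ?_
      intro b hb
      exact Set.countable_iUnion fun q => ((hD b hb).1).image _
    · intro x ε hε
      obtain ⟨q, hq1, hq2⟩ := exists_rat_btwn (show x l - ε / 2 < x l + ε / 2 by linarith)
      by_cases hex : ∃ b, b < l
      · obtain ⟨b, hb, hb2⟩ := left_cont x hex (show 0 < ε / 2 by linarith)
        obtain ⟨y, hy, hy2⟩ := (hD b hb).2 x ε hε
        refine ⟨g b q y, Or.inr ?_, ?_⟩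
        · simp only [D1, Set.mem_iUnion, Set.mem_Iio]
          exact ⟨b, hb, q, y, hy, rfl⟩
        · intro a ha
          change |x a - (lo b y + (q : ℝ) • (ind l - ind b)) a| ≤ ε
          rw [BoundedContinuousFunction.add_apply, BoundedContinuousFunction.smul_apply,
            BoundedContinuousFunction.sub_apply, ind_le ha]
          rcases le_or_gt a b with h | h
          · rw [lo_le _ h, ind_le h, sub_self, smul_zero, add_zero]
            exact hy2 a h
          · rw [lo_gt _ h, ind_gt h, sub_zero, smul_eq_mul, mul_one, zero_add]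
            have h1 := hb2 a h ha
            rw [abs_lt] at h1
            rw [abs_le]
            constructor <;> linarith [h1.1, h1.2]
      · push Not at hex
        refine ⟨(q : ℝ) • ind l, Or.inl ⟨q, rfl⟩, ?_⟩
        intro a ha
        have hal : a = l := le_antisymm ha (hex a)
        rw [BoundedContinuousFunction.smul_apply, ind_le ha, smul_eq_mul, mul_one, hal, abs_le]
        constructor <;> linarith

lemma separable_SS (b : Ω) (hb : b < ⊤) : TopologicalSpace.IsSeparable (Set.range (SS b)) := by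
  obtain ⟨D, hD, hD2⟩ := sep_lo b hb
  let g : ℚ → XX Ω → XX Ω := fun q y => lo b y + (q : ℝ) • (1 - ind b)
  have hc : (⋃ q : ℚ, (g q) '' D).Countable := Set.countable_iUnion fun q => hD.image _
  refine hc.isSeparable.closure.mono ?_
  rintro _ ⟨x, rfl⟩
  rw [Metric.mem_closure_iff]
  intro ε hε
  obtain ⟨y, hy, hy2⟩ := hD2 x (ε / 2) (by linarith)
  obtain ⟨q, hq1, hq2⟩ := exists_rat_btwn (show x ⊤ - ε / 2 < x ⊤ + ε / 2 by linarith)
  refine ⟨g q y, Set.mem_iUnion.2 ⟨q, y, hy, rfl⟩, ?_⟩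
  rw [dist_eq_norm]
  refine lt_of_le_of_lt (norm_le_of_abs (C := ε / 2) (by linarith) ?_) (by linarith)
  intro a
  change |(SS b x - (lo b y + (q : ℝ) • (1 - ind b))) a| ≤ ε / 2
  rw [BoundedContinuousFunction.sub_apply, BoundedContinuousFunction.add_apply,
    BoundedContinuousFunction.smul_apply, BoundedContinuousFunction.sub_apply,
    show (1 : XX Ω) a = 1 from rfl]
  rcases le_or_gt a b with h | h
  · rw [SS_apply_le _ h, lo_le _ h, ind_le h, sub_self, smul_zero, add_zero]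
    exact hy2 a h
  · rw [SS_apply_gt _ h, lo_gt _ h, ind_gt h, sub_zero, smul_eq_mul, mul_one, zero_add, abs_le]
    constructor <;> linarith

/-- Countable dense subsets of images. -/
lemma exists_dense (b : Ω) (hb : b < ⊤) (B : Set (XX Ω)) : ∃ D ⊆ B, D.Countable ∧
    ∀ x ∈ B, ∀ ε > 0, ∃ y ∈ D, ‖SS b x - SS b y‖ ≤ ε := by
  have hs : TopologicalSpace.IsSeparable (SS b '' B) :=
    (separable_SS b hb).mono (Set.image_subset_range _ _)
  obtain ⟨t, htB, htc, hst⟩ := hs.exists_countable_dense_subset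
  have hpick : ∀ z : XX Ω, ∃ y : XX Ω, z ∈ t → y ∈ B ∧ SS b y = z := by
    intro z
    by_cases hz : z ∈ t
    · obtain ⟨y, hy, hyz⟩ := htB hz
      exact ⟨y, fun _ => ⟨hy, hyz⟩⟩
    · exact ⟨0, fun h => absurd h hz⟩
  choose f hf using hpick
  refine ⟨f '' t, ?_, htc.image f, ?_⟩
  · rintro _ ⟨z, hz, rfl⟩
    exact (hf z hz).1
  · intro x hx ε hε
    have h1 := hst (Set.mem_image_of_mem (SS b) hx)
    rw [Metric.mem_closure_iff] at h1
    obtain ⟨z, hz, hz2⟩ := h1 ε hε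
    refine ⟨f z, Set.mem_image_of_mem f hz, ?_⟩
    rw [(hf z hz).2, ← dist_eq_norm]
    exact hz2.le

/-- The closing off function. -/
lemma exists_gamma (B : Set (XX Ω)) (b : Ω) (hb : b < ⊤) : ∃ g : Ω, g < ⊤ ∧ b < g ∧
    ∀ x ∈ B, ∀ ε > 0, ∃ y ∈ B, ‖SS b x - SS b y‖ ≤ ε ∧ ∀ a, g ≤ a → y a = y ⊤ := by
  obtain ⟨D, hDB, hDc, hD⟩ := exists_dense b hb B
  choose c hc hc2 using fun x : XX Ω => eventually_const x
  obtain ⟨g, hg, hg2⟩ := hΩ.cof (insert b (c '' D)) ((hDc.image c).insert b) (by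
    intro a ha
    rcases ha with rfl | ⟨x, -, rfl⟩
    · exact hb
    · exact hc x)
  refine ⟨sc g, sc_lt_top hg, lt_of_le_of_lt (hg2 b (Set.mem_insert _ _)) (lt_sc_top hg), ?_⟩
  intro x hx ε hε
  obtain ⟨y, hy, hy2⟩ := hD x hx ε hε
  refine ⟨y, hDB hy, hy2, fun a ha => hc2 y a ?_⟩
  have h1 := hg2 (c y) (Set.mem_insert_of_mem _ (Set.mem_image_of_mem c hy))
  exact h1.trans ((lt_sc_top hg).le.trans ha)

/-- Existence of closed-off elements. -/
lemma exists_closed (γ : Ω → Ω) (hγ : ∀ b, b < ⊤ → γ b < ⊤) (a : Ω) (ha : a < ⊤) :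
    ∃ b, b < ⊤ ∧ a < b ∧ ∀ c, c < b → γ c < b := by
  have hstep : ∀ b : Ω, ∃ d : Ω, b < ⊤ → d < ⊤ ∧ b < d ∧ ∀ c, c ≤ b → γ c < d := by
    intro b
    by_cases hb : b < ⊤
    · obtain ⟨d, hd, hd2⟩ := hΩ.cof (insert b (γ '' Set.Iic b))
        (((hΩ.count b hb).image γ).insert b) (by
          intro c hc
          rcases hc with rfl | ⟨x, hx, rfl⟩
          · exact hb
          · exact hγ x (lt_of_le_of_lt hx hb))
      refine ⟨sc d, fun _ => ⟨sc_lt_top hd, lt_of_le_of_lt (hd2 b (Set.mem_insert _ _))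
        (lt_sc_top hd), fun c hc => ?_⟩⟩
      exact lt_of_le_of_lt (hd2 _ (Set.mem_insert_of_mem _ (Set.mem_image_of_mem γ hc)))
        (lt_sc_top hd)
    · exact ⟨b, fun h => absurd h hb⟩
  choose d hd using hstep
  let s : ℕ → Ω := fun n => Nat.rec (sc a) (fun _ b => d b) n
  have hs0 : s 0 = sc a := rfl
  have hs1 : ∀ n, s (n + 1) = d (s n) := fun n => rfl
  have hlt : ∀ n, s n < ⊤ := by
    intro n
    induction n with
    | zero => exact sc_lt_top ha
    | succ n ih => rw [hs1]; exact (hd _ ih).1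
  obtain ⟨u, hu, hu2⟩ := hΩ.cof (Set.range s) (Set.countable_range s) (by
    rintro _ ⟨n, rfl⟩; exact hlt n)
  have hne : ∃ u : Ω, ∀ n, s n ≤ u := ⟨u, fun n => hu2 _ ⟨n, rfl⟩⟩
  set b := (wellFounded_lt (α := Ω)).min {u | ∀ n, s n ≤ u} hne with hb
  have hbmem : ∀ n, s n ≤ b := (wellFounded_lt (α := Ω)).min_mem {u | ∀ n, s n ≤ u} hne
  have hbu : b ≤ u := by
    by_contra hcon
    push Not at hcon
    exact (wellFounded_lt (α := Ω)).not_lt_min {u | ∀ n, s n ≤ u} (x := u)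
      (fun n => hu2 _ ⟨n, rfl⟩) hcon
  refine ⟨b, lt_of_le_of_lt hbu hu, lt_of_lt_of_le (lt_sc_top ha) (hbmem 0), fun c hc => ?_⟩
  have hex : ∃ n, c < s n := by
    by_contra hcon
    push Not at hcon
    exact (wellFounded_lt (α := Ω)).not_lt_min {u | ∀ n, s n ≤ u} (x := c) hcon hc
  obtain ⟨n, hn⟩ := hex
  have h1 := (hd _ (hlt n)).2.2 c hn.le
  exact lt_of_lt_of_le h1 (hbmem (n + 1))

end

end Pool.Agent.Lib.Pa1e890
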