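import Pool.Agent.Lib.Pa1e890.Smulian

/-!
# Strongly exposing perturbations on separable pieces

For a weak-star closed convex bounded set `E` of functionals which is governed by countably many
test vectors, a concave function `φ : E → [1/2, 1]` such that for each `z` and `γ > 0` the
near-maximisers of `μ z + γ φ(μ)` are close to each other in norm.
-/

set_option autoImplicit false
open Filter Topology Set

namespace Pool.Agent.Lib.Pa1e890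

variable {X : Type*} [NormedAddCommGroup X] [NormedSpace ℝ X]

/-- Support function of a set of vectors. -/
noncomputable def Tf (Y : Set X) (μ : X →L[ℝ] ℝ) : ℝ := ⨆ y : Y, μ y.1

/-- Data of a separable piece. -/
structure Piece (X : Type*) [NormedAddCommGroup X] [NormedSpace ℝ X] where
  /-- the set of functionals -/
  E : Set (X →L[ℝ] ℝ)
  /-- bound -/
  C : ℝ
  /-- test vectors -/
  e : ℕ → X
  /-- test sets -/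
  Y : ℕ → Set X
  hC : 0 < C
  ne : E.Nonempty
  mid : ∀ μ ∈ E, ∀ ν ∈ E, (1 / 2 : ℝ) • (μ + ν) ∈ E
  bound : ∀ μ ∈ E, ‖μ‖ ≤ C
  closed : ∀ μ : X →L[ℝ] ℝ, (∀ x y : X, ∀ ε > 0, ∃ ν ∈ E, |ν x - μ x| ≤ ε ∧ |ν y - μ y| ≤ ε) →
    μ ∈ E
  he : ∀ m, ‖e m‖ ≤ 1
  dense : ∀ y : X, ∀ ε > 0, ∃ m, ∃ r : ℝ, ∀ ν ∈ E, |ν y - r * ν (e m)| ≤ ε
  hY0 : ∀ m, (0 : X) ∈ Y m
  hY1 : ∀ m, ∀ y ∈ Y m, ‖y‖ ≤ 1
  tail : ∀ μ ∈ E, ∀ ε > 0, ∃ m, Tf (Y m) μ ≤ ε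
  kadec : ∀ m, ∃ U : Finset X, ∀ μ ∈ E, ∀ ν ∈ E,
    ‖μ - ν‖ ≤ 2 * Tf (Y m) μ + 2 * Tf (Y m) ν + ∑ u ∈ U, |μ u - ν u|

lemma Tf_bdd {Y : Set X} (hY1 : ∀ y ∈ Y, ‖y‖ ≤ 1) (μ : X →L[ℝ] ℝ) :
    BddAbove (Set.range fun y : Y => μ y.1) := by
  refine ⟨‖μ‖, ?_⟩
  rintro _ ⟨y, rfl⟩
  have h1 := μ.le_opNorm y.1
  have h2 := mul_le_mul_of_nonneg_left (hY1 y.1 y.2) (norm_nonneg μ)
  rw [Real.norm_eq_abs] at h1
  have := le_abs_self (μ y.1)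
  change μ y.1 ≤ ‖μ‖
  linarith

lemma le_Tf {Y : Set X} (hY1 : ∀ y ∈ Y, ‖y‖ ≤ 1) (μ : X →L[ℝ] ℝ) {y : X} (hy : y ∈ Y) :
    μ y ≤ Tf Y μ := le_ciSup (Tf_bdd hY1 μ) ⟨y, hy⟩

lemma Tf_nonneg {Y : Set X} (hY0 : (0 : X) ∈ Y) (hY1 : ∀ y ∈ Y, ‖y‖ ≤ 1) (μ : X →L[ℝ] ℝ) :
    0 ≤ Tf Y μ := by
  have := le_Tf hY1 μ hY0
  rwa [map_zero] at this

lemma Tf_le {Y : Set X} (hY0 : (0 : X) ∈ Y) {μ : X →L[ℝ] ℝ} {t : ℝ} (h : ∀ y ∈ Y, μ y ≤ t) :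
    Tf Y μ ≤ t := by
  have : Nonempty Y := ⟨⟨0, hY0⟩⟩
  exact ciSup_le fun y => h y.1 y.2

lemma Tf_le_norm {Y : Set X} (hY0 : (0 : X) ∈ Y) (hY1 : ∀ y ∈ Y, ‖y‖ ≤ 1) (μ : X →L[ℝ] ℝ) :
    Tf Y μ ≤ ‖μ‖ := by
  apply Tf_le hY0
  intro y hy
  have h1 := μ.le_opNorm y
  have h2 := mul_le_mul_of_nonneg_left (hY1 y hy) (norm_nonneg μ)
  rw [Real.norm_eq_abs] at h1
  have := le_abs_self (μ y)
  linarith

lemma exists_Tf {Y : Set X} (hY0 : (0 : X) ∈ Y) (μ : X →L[ℝ] ℝ) {ε : ℝ} (hε : 0 < ε) :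
    ∃ y ∈ Y, Tf Y μ - ε < μ y := by
  have : Nonempty Y := ⟨⟨0, hY0⟩⟩
  obtain ⟨y, hy⟩ := exists_lt_of_lt_ciSup (f := fun y : Y => μ y.1) (show Tf Y μ - ε < ⨆ y : Y, μ y.1
    by unfold Tf; linarith)
  exact ⟨y.1, y.2, hy⟩

lemma Tf_lip {Y : Set X} (hY0 : (0 : X) ∈ Y) (hY1 : ∀ y ∈ Y, ‖y‖ ≤ 1) (μ ν : X →L[ℝ] ℝ) :
    Tf Y μ ≤ Tf Y ν + ‖μ - ν‖ := by
  apply Tf_le hY0
  intro y hy
  have h1 := (μ - ν).le_opNorm y
  have h2 := mul_le_mul_of_nonneg_left (hY1 y hy) (norm_nonneg (μ - ν))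
  rw [Real.norm_eq_abs] at h1
  have h3 := le_abs_self ((μ - ν) y)
  have h4 : (μ - ν) y = μ y - ν y := rfl
  have h5 := le_Tf hY1 ν hy
  linarith

namespace Piece

variable (P : Piece X)

/-- The building blocks. -/
noncomputable def ps (m : ℕ) (μ : X →L[ℝ] ℝ) : ℝ := Tf (P.Y m) μ + (μ (P.e m)) ^ 2

/-- The bound for `ps`. -/
noncomputable def B : ℝ := P.C + P.C ^ 2

lemma B_pos : 0 < P.B := by
  have := P.hC
  unfold B; positivity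

lemma abs_e_le {μ : X →L[ℝ] ℝ} (hμ : μ ∈ P.E) (m : ℕ) : |μ (P.e m)| ≤ P.C := by
  have h1 := μ.le_opNorm (P.e m)
  have h2 := mul_le_mul (P.bound μ hμ) (P.he m) (norm_nonneg _) P.hC.le
  rw [Real.norm_eq_abs] at h1
  linarith

lemma ps_nonneg (m : ℕ) (μ : X →L[ℝ] ℝ) : 0 ≤ P.ps m μ := by
  have := Tf_nonneg (P.hY0 m) (P.hY1 m) μ
  unfold ps; positivity

lemma ps_le (m : ℕ) {μ : X →L[ℝ] ℝ} (hμ : μ ∈ P.E) : P.ps m μ ≤ P.B := by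
  have h1 := (Tf_le_norm (P.hY0 m) (P.hY1 m) μ).trans (P.bound μ hμ)
  have h2 := P.abs_e_le hμ m
  have h3 : (μ (P.e m)) ^ 2 ≤ P.C ^ 2 := sq_le_sq' (abs_le.1 h2).1 (abs_le.1 h2).2
  unfold ps B
  linarith

lemma summable_half : Summable (fun m : ℕ => (1 / 2 : ℝ) ^ (m + 1)) :=
  (summable_nat_add_iff 1).2 summable_geometric_two

lemma tsum_half : ∑' m : ℕ, (1 / 2 : ℝ) ^ (m + 1) = 1 := by
  have h := summable_geometric_two.tsum_eq_zero_add (f := fun m : ℕ => (1 / 2 : ℝ) ^ m)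
  rw [tsum_geometric_two] at h
  simp only [pow_zero] at h
  linarith

lemma summable_ps {μ : X →L[ℝ] ℝ} (hμ : μ ∈ P.E) :
    Summable (fun m : ℕ => (1 / 2 : ℝ) ^ (m + 1) * P.ps m μ) := by
  refine Summable.of_nonneg_of_le (fun m => mul_nonneg (by positivity) (P.ps_nonneg m μ))
    (fun m => mul_le_mul_of_nonneg_left (P.ps_le m hμ) (by positivity))
    (summable_half.mul_right P.B)

/-- The total. -/
noncomputable def Ps (μ : X →L[ℝ] ℝ) : ℝ := ∑' m : ℕ, (1 / 2 : ℝ) ^ (m + 1) * P.ps m μ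

lemma Ps_nonneg (μ : X →L[ℝ] ℝ) : 0 ≤ P.Ps μ :=
  tsum_nonneg fun m => mul_nonneg (by positivity) (P.ps_nonneg m μ)

lemma Ps_le {μ : X →L[ℝ] ℝ} (hμ : μ ∈ P.E) : P.Ps μ ≤ P.B := by
  have h1 : P.Ps μ ≤ ∑' m : ℕ, (1 / 2 : ℝ) ^ (m + 1) * P.B :=
    Summable.tsum_le_tsum (fun m => mul_le_mul_of_nonneg_left (P.ps_le m hμ) (by positivity))
      (P.summable_ps hμ) (summable_half.mul_right P.B)
  rw [tsum_mul_right, tsum_half, one_mul] at h1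
  exact h1

/-- The concave function. -/
noncomputable def ph (μ : X →L[ℝ] ℝ) : ℝ := 1 - P.Ps μ / (2 * P.B)

lemma ph_le_one (μ : X →L[ℝ] ℝ) : P.ph μ ≤ 1 := by
  have := P.Ps_nonneg μ
  have := P.B_pos
  have : 0 ≤ P.Ps μ / (2 * P.B) := by positivity
  unfold ph; linarith

lemma half_le_ph {μ : X →L[ℝ] ℝ} (hμ : μ ∈ P.E) : 1 / 2 ≤ P.ph μ := by
  have h1 := P.Ps_le hμ
  have h2 := P.B_pos
  have : P.Ps μ / (2 * P.B) ≤ 1 / 2 := by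
    rw [div_le_div_iff₀ (by positivity) (by norm_num)]
    linarith
  unfold ph; linarith

lemma ps_mid (m : ℕ) {μ ν : X →L[ℝ] ℝ} :
    P.ps m ((1 / 2 : ℝ) • (μ + ν)) + (μ (P.e m) - ν (P.e m)) ^ 2 / 4 ≤
      (P.ps m μ + P.ps m ν) / 2 := by
  have h1 : Tf (P.Y m) ((1 / 2 : ℝ) • (μ + ν)) ≤ (Tf (P.Y m) μ + Tf (P.Y m) ν) / 2 := by
    apply Tf_le (P.hY0 m)
    intro y hy
    have h2 := le_Tf (P.hY1 m) μ hy
    have h3 := le_Tf (P.hY1 m) ν hy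
    have h4 : ((1 / 2 : ℝ) • (μ + ν)) y = (1 / 2) * (μ y + ν y) := rfl
    rw [h4]
    linarith
  have h5 : ((1 / 2 : ℝ) • (μ + ν)) (P.e m) = (1 / 2) * (μ (P.e m) + ν (P.e m)) := rfl
  unfold ps
  rw [h5]
  nlinarith

lemma Ps_mid {μ ν : X →L[ℝ] ℝ} (hμ : μ ∈ P.E) (hν : ν ∈ P.E) (m : ℕ) :
    P.Ps ((1 / 2 : ℝ) • (μ + ν)) + (1 / 2) ^ (m + 1) * ((μ (P.e m) - ν (P.e m)) ^ 2 / 4) ≤
      (P.Ps μ + P.Ps ν) / 2 := by
  have hm := P.mid μ hμ ν hν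
  have s1 := P.summable_ps hμ
  have s2 := P.summable_ps hν
  have s3 := P.summable_ps hm
  have e1 : (P.Ps μ + P.Ps ν) / 2 - P.Ps ((1 / 2 : ℝ) • (μ + ν)) =
      ∑' k : ℕ, (((1 / 2 : ℝ) ^ (k + 1) * P.ps k μ + (1 / 2 : ℝ) ^ (k + 1) * P.ps k ν) / 2 -
        (1 / 2 : ℝ) ^ (k + 1) * P.ps k ((1 / 2 : ℝ) • (μ + ν))) := by
    rw [Summable.tsum_sub ((s1.add s2).div_const 2) s3, tsum_div_const, Summable.tsum_add s1 s2]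
    rfl
  have s4 : Summable (fun k : ℕ => ((1 / 2 : ℝ) ^ (k + 1) * P.ps k μ +
      (1 / 2 : ℝ) ^ (k + 1) * P.ps k ν) / 2 -
        (1 / 2 : ℝ) ^ (k + 1) * P.ps k ((1 / 2 : ℝ) • (μ + ν))) :=
    ((s1.add s2).div_const 2).sub s3
  have hnn : ∀ k : ℕ, (1 / 2 : ℝ) ^ (k + 1) * ((μ (P.e k) - ν (P.e k)) ^ 2 / 4) ≤
      ((1 / 2 : ℝ) ^ (k + 1) * P.ps k μ + (1 / 2 : ℝ) ^ (k + 1) * P.ps k ν) / 2 -
        (1 / 2 : ℝ) ^ (k + 1) * P.ps k ((1 / 2 : ℝ) • (μ + ν)) := by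
    intro k
    have h1 := P.ps_mid k (μ := μ) (ν := ν)
    have h2 : (0:ℝ) < (1 / 2 : ℝ) ^ (k + 1) := by positivity
    nlinarith
  have h1 := s4.le_tsum m (fun k _ => le_trans (by positivity) (hnn k))
  have h2 := hnn m
  linarith

lemma ps_lip (m : ℕ) {μ ν : X →L[ℝ] ℝ} (hμ : μ ∈ P.E) (hν : ν ∈ P.E) :
    P.ps m μ ≤ P.ps m ν + (1 + 2 * P.C) * ‖μ - ν‖ := by
  have h1 := Tf_lip (P.hY0 m) (P.hY1 m) μ ν
  have h2 := P.abs_e_le hμ m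
  have h3 := P.abs_e_le hν m
  have h4 := (μ - ν).le_opNorm (P.e m)
  have h5 := mul_le_mul_of_nonneg_left (P.he m) (norm_nonneg (μ - ν))
  rw [Real.norm_eq_abs] at h4
  have h6 : (μ - ν) (P.e m) = μ (P.e m) - ν (P.e m) := rfl
  rw [h6] at h4
  have h7 : (μ (P.e m)) ^ 2 - (ν (P.e m)) ^ 2 ≤ 2 * P.C * ‖μ - ν‖ := by
    have e : (μ (P.e m)) ^ 2 - (ν (P.e m)) ^ 2 =
      (μ (P.e m) + ν (P.e m)) * (μ (P.e m) - ν (P.e m)) := by ring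
    rw [e]
    have h8 : |μ (P.e m) + ν (P.e m)| ≤ 2 * P.C := by
      have := abs_add_le (μ (P.e m)) (ν (P.e m)); linarith
    have h9 := le_abs_self ((μ (P.e m) + ν (P.e m)) * (μ (P.e m) - ν (P.e m)))
    rw [abs_mul] at h9
    have h10 : |μ (P.e m) + ν (P.e m)| * |μ (P.e m) - ν (P.e m)| ≤ 2 * P.C * ‖μ - ν‖ :=
      mul_le_mul h8 (by linarith) (abs_nonneg _) (by have := P.hC; positivity)
    linarith
  unfold ps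
  linarith

lemma Ps_lip {μ ν : X →L[ℝ] ℝ} (hμ : μ ∈ P.E) (hν : ν ∈ P.E) :
    P.Ps μ ≤ P.Ps ν + (1 + 2 * P.C) * ‖μ - ν‖ := by
  have s1 := P.summable_ps hμ
  have s2 := P.summable_ps hν
  have h1 : P.Ps μ ≤ ∑' m : ℕ, ((1 / 2 : ℝ) ^ (m + 1) * P.ps m ν +
      (1 / 2 : ℝ) ^ (m + 1) * ((1 + 2 * P.C) * ‖μ - ν‖)) := by
    refine Summable.tsum_le_tsum (fun m => ?_) s1 (s2.add (summable_half.mul_right _))
    have := P.ps_lip m hμ hν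
    have h2 : (0:ℝ) < (1 / 2 : ℝ) ^ (m + 1) := by positivity
    nlinarith
  rw [Summable.tsum_add s2 (summable_half.mul_right _), tsum_mul_right, tsum_half, one_mul] at h1
  exact h1

lemma ph_lip {μ ν : X →L[ℝ] ℝ} (hμ : μ ∈ P.E) (hν : ν ∈ P.E) :
    |P.ph μ - P.ph ν| ≤ (1 + 2 * P.C) / (2 * P.B) * ‖μ - ν‖ := by
  have h1 := P.Ps_lip hμ hν
  have h2 := P.Ps_lip hν hμ
  rw [norm_sub_rev] at h2
  have hB := P.B_pos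
  have e : P.ph μ - P.ph ν = (P.Ps ν - P.Ps μ) / (2 * P.B) := by unfold ph; ring
  rw [e, abs_div, abs_of_pos (show 0 < 2 * P.B by positivity), div_mul_eq_mul_div]
  apply div_le_div_of_nonneg_right _ (by positivity)
  rw [abs_le]
  constructor <;> linarith

end Piece

end Pool.Agent.Lib.Pa1e890
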