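import Mathlib

/-!
# Support functions of sets of functionals that are strongly exposed at each point

If `v : I → X*` is bounded and at every `z ≠ 0` near-maximising functionals are close to each
other in norm, then `z ↦ sup_i v i z` is of class `C¹` off the origin.
-/

set_option autoImplicit false
open Filter Topology Set

namespace Pool.Agent.Lib.Pa1e890

variable {X : Type*} [NormedAddCommGroup X] [NormedSpace ℝ X] {I : Type*}

/-- The support function. -/
noncomputable def supF (v : I → X →L[ℝ] ℝ) (z : X) : ℝ := ⨆ i, v i z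

/-- Near-maximising functionals are close to each other. -/
def Exposes (v : I → X →L[ℝ] ℝ) (z : X) : Prop :=
  ∀ ε > 0, ∃ ζ : X →L[ℝ] ℝ, ∃ η > 0, ∀ i, supF v z - η < v i z → ‖v i - ζ‖ ≤ ε

lemma bdd_of_bound {v : I → X →L[ℝ] ℝ} {M : ℝ} (hM : ∀ i, ‖v i‖ ≤ M) (z : X) :
    BddAbove (Set.range fun i => v i z) := by
  refine ⟨M * ‖z‖, ?_⟩
  rintro _ ⟨i, rfl⟩
  have h1 := (v i).le_opNorm z
  have h2 := mul_le_mul_of_nonneg_right (hM i) (norm_nonneg z)
  rw [Real.norm_eq_abs] at h1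
  exact ((le_abs_self _).trans h1).trans h2

lemma le_supF {v : I → X →L[ℝ] ℝ} {M : ℝ} (hM : ∀ i, ‖v i‖ ≤ M) (z : X) (i : I) :
    v i z ≤ supF v z := le_ciSup (bdd_of_bound hM z) i

lemma exists_near [Nonempty I] (v : I → X →L[ℝ] ℝ) (z : X) {η : ℝ} (hη : 0 < η) :
    ∃ i, supF v z - η < v i z := by
  apply exists_lt_of_lt_ciSup
  unfold supF
  linarith

lemma supF_le [Nonempty I] {v : I → X →L[ℝ] ℝ} {z : X} {C : ℝ} (h : ∀ i, v i z ≤ C) :
    supF v z ≤ C := ciSup_le h

lemma supF_lip [Nonempty I] {v : I → X →L[ℝ] ℝ} {M : ℝ} (hM : ∀ i, ‖v i‖ ≤ M) (y z : X) :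
    supF v y ≤ supF v z + M * ‖y - z‖ := by
  apply supF_le
  intro i
  have h1 := le_supF hM z i
  have h2 := (v i).le_opNorm (y - z)
  have h3 := mul_le_mul_of_nonneg_right (hM i) (norm_nonneg (y - z))
  rw [Real.norm_eq_abs, map_sub] at h2
  have h4 := le_abs_self (v i y - v i z)
  linarith

lemma exists_limit [Nonempty I] {v : I → X →L[ℝ] ℝ} {z : X} (h : Exposes v z) :
    ∃ D : X →L[ℝ] ℝ, ∀ ε > 0, ∃ η > 0, ∀ i, supF v z - η < v i z → ‖v i - D‖ ≤ ε := by
  have hpos : ∀ n : ℕ, (0:ℝ) < 1 / ((n:ℝ) + 1) := fun n => by positivity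
  choose i hi using fun n : ℕ => exists_near v z (hpos n)
  have key : ∀ ε > 0, ∃ ζ : X →L[ℝ] ℝ, ∃ η > 0, (∀ i, supF v z - η < v i z → ‖v i - ζ‖ ≤ ε) ∧
      ∃ N : ℕ, ∀ n ≥ N, ‖v (i n) - ζ‖ ≤ ε := by
    intro ε hε
    obtain ⟨ζ, η, hη, hζ⟩ := h ε hε
    obtain ⟨N, hN⟩ := exists_nat_one_div_lt hη
    refine ⟨ζ, η, hη, hζ, N, fun n hn => hζ (i n) ?_⟩
    have h1 : (1:ℝ) / ((n:ℝ) + 1) ≤ 1 / ((N:ℝ) + 1) := by
      apply one_div_le_one_div_of_le (by positivity)
      have : (N:ℝ) ≤ n := by exact_mod_cast hn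
      linarith
    have := hi n
    linarith
  have hc : CauchySeq (fun n => v (i n)) := by
    rw [Metric.cauchySeq_iff]
    intro ε hε
    obtain ⟨ζ, η, hη, -, N, hN⟩ := key (ε / 3) (by linarith)
    refine ⟨N, fun m hm n hn => ?_⟩
    have h1 := hN m hm
    have h2 := hN n hn
    rw [dist_eq_norm]
    have h3 : v (i m) - v (i n) = (v (i m) - ζ) - (v (i n) - ζ) := by abel
    rw [h3]
    have := norm_sub_le (v (i m) - ζ) (v (i n) - ζ)
    linarith
  obtain ⟨D, hD⟩ := cauchySeq_tendsto_of_complete hc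
  refine ⟨D, fun ε hε => ?_⟩
  obtain ⟨ζ, η, hη, hζ, N, hN⟩ := key (ε / 3) (by linarith)
  refine ⟨η, hη, fun j hj => ?_⟩
  rw [Metric.tendsto_atTop] at hD
  obtain ⟨N', hN'⟩ := hD (ε / 3) (by linarith)
  have h1 := hN (max N N') (le_max_left _ _)
  have h2 := hN' (max N N') (le_max_right _ _)
  rw [dist_eq_norm] at h2
  have h3 := hζ j hj
  have h4 : v j - D = (v j - ζ) - (v (i (max N N')) - ζ) + (v (i (max N N')) - D) := by abel
  rw [h4]
  have h5 := norm_add_le ((v j - ζ) - (v (i (max N N')) - ζ)) (v (i (max N N')) - D)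
  have h6 := norm_sub_le (v j - ζ) (v (i (max N N')) - ζ)
  linarith

/-- Šmulian type criterion. -/
theorem contDiffOn_supF [Nonempty I] {v : I → X →L[ℝ] ℝ} {M : ℝ} (hM : ∀ i, ‖v i‖ ≤ M)
    (h : ∀ z : X, z ≠ 0 → Exposes v z) : ContDiffOn ℝ 1 (supF v) {z | z ≠ 0} := by
  classical
  have hM0 : 0 ≤ M := (norm_nonneg _).trans (hM (Classical.arbitrary I))
  have hD : ∀ z : X, ∃ D : X →L[ℝ] ℝ, z ≠ 0 → ∀ ε > 0, ∃ η > 0, ∀ i, supF v z - η < v i z →
      ‖v i - D‖ ≤ ε := by
    intro z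
    by_cases hz : z = 0
    · exact ⟨0, fun h => absurd hz h⟩
    · obtain ⟨D, hD⟩ := exists_limit (h z hz)
      exact ⟨D, fun _ => hD⟩
  choose D hD using hD
  have hopen : IsOpen {z : X | z ≠ 0} := isOpen_ne
  have hder : ∀ z : X, z ≠ 0 → HasFDerivAt (supF v) (D z) z := by
    intro z hz
    rw [hasFDerivAt_iff_isLittleO_nhds_zero, Asymptotics.isLittleO_iff]
    intro ε hε
    obtain ⟨η, hη, hηD⟩ := hD z hz (ε / 2) (by linarith)
    have hM1 : 0 < 2 * M + ε + 1 := by linarith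
    have hr : 0 < η / (2 * M + ε + 1) := by positivity
    filter_upwards [Metric.ball_mem_nhds (0 : X) hr] with y hy
    rw [mem_ball_zero_iff] at hy
    have hy2 : ‖y‖ * (2 * M + ε + 1) < η := by rwa [lt_div_iff₀ hM1] at hy
    have hyn := norm_nonneg y
    rw [Real.norm_eq_abs]
    rcases eq_or_ne y 0 with rfl | hy0
    · simp
    have hypos : 0 < ‖y‖ := norm_pos_iff.2 hy0
    have happ : ∀ i, ‖v i - D z‖ ≤ ε / 2 → |v i y - D z y| ≤ ε / 2 * ‖y‖ := by
      intro i hi
      have h1 := (v i - D z).le_opNorm y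
      have h2 := mul_le_mul_of_nonneg_right hi hyn
      rw [Real.norm_eq_abs] at h1
      exact (h1.trans h2)
    have hMi : ∀ i, |v i y| ≤ M * ‖y‖ := by
      intro i
      have h1 := (v i).le_opNorm y
      have h2 := mul_le_mul_of_nonneg_right (hM i) hyn
      rw [Real.norm_eq_abs] at h1
      exact h1.trans h2
    have upper : supF v (z + y) - supF v z - D z y ≤ ε * ‖y‖ := by
      obtain ⟨i, hi⟩ := exists_near v (z + y) (show 0 < ε / 2 * ‖y‖ by positivity)
      have h1 : v i (z + y) = v i z + v i y := map_add _ _ _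
      have h2 := supF_lip hM z (z + y)
      have h3 : ‖z - (z + y)‖ = ‖y‖ := by rw [sub_add_cancel_left, norm_neg]
      rw [h3] at h2
      have h4 := abs_le.1 (hMi i)
      have h5 : supF v z - η < v i z := by nlinarith
      have h6 := abs_le.1 (happ i (hηD i h5))
      have h7 := le_supF hM z i
      linarith
    have lower : -(ε * ‖y‖) ≤ supF v (z + y) - supF v z - D z y := by
      obtain ⟨i, hi⟩ := exists_near v z (show 0 < min η (ε / 2 * ‖y‖) by positivity)
      have h0 := min_le_left η (ε / 2 * ‖y‖)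
      have h0' := min_le_right η (ε / 2 * ‖y‖)
      have h1 : v i (z + y) = v i z + v i y := map_add _ _ _
      have h6 := abs_le.1 (happ i (hηD i (by linarith)))
      have h7 := le_supF hM (z + y) i
      linarith
    exact abs_le.2 ⟨lower, upper⟩
  have hcont : ContinuousOn D {z : X | z ≠ 0} := by
    rw [Metric.continuousOn_iff]
    intro z hz ε hε
    obtain ⟨η, hη, hηD⟩ := hD z hz (ε / 3) (by linarith)
    have hM1 : 0 < 2 * M + 1 := by linarith
    refine ⟨η / 2 / (2 * M + 1), by positivity, fun y hy hyz => ?_⟩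
    rw [dist_eq_norm] at hyz ⊢
    have hyz2 : ‖y - z‖ * (2 * M + 1) < η / 2 := by rwa [lt_div_iff₀ hM1] at hyz
    obtain ⟨η', hη', hηD'⟩ := hD y hy (ε / 3) (by linarith)
    obtain ⟨i, hi⟩ := exists_near v y (show 0 < min η' (η / 2) by positivity)
    have h0 := min_le_left η' (η / 2)
    have h0' := min_le_right η' (η / 2)
    have h1 := hηD' i (by linarith)
    have h2 := supF_lip hM z y
    rw [norm_sub_rev] at h2
    have h3 := (v i).le_opNorm (y - z)
    have h4 := mul_le_mul_of_nonneg_right (hM i) (norm_nonneg (y - z))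
    rw [Real.norm_eq_abs, map_sub] at h3
    have h5 := le_abs_self (v i y - v i z)
    have h6 : supF v z - η < v i z := by nlinarith [norm_nonneg (y - z)]
    have h7 := hηD i h6
    have h8 : D y - D z = (v i - D z) - (v i - D y) := by abel
    rw [h8]
    have := norm_sub_le (v i - D z) (v i - D y)
    linarith
  have h1 : ((0 : WithTop ℕ∞) + 1) = 1 := zero_add 1
  rw [← h1, contDiffOn_succ_iff_fderiv_of_isOpen hopen]
  refine ⟨fun z hz => (hder z hz).differentiableAt.differentiableWithinAt, ?_, ?_⟩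
  · intro h0
    exact absurd h0 (by simp)
  · rw [contDiffOn_zero]
    refine hcont.congr fun z hz => ?_
    exact (hder z hz).fderiv

end Pool.Agent.Lib.Pa1e890
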